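import Pool.Agent.Helper37.LB.St

/-!
Project LB: the completion.
-/

set_option autoImplicit false

namespace CM.LB

open Set Topology unitInterval

namespace CMP

variable {X : Type} [TopologicalSpace X] {f : X → E3} {s : Setoid (X × Bool)}

/-- the class of a point -/
def cl (s : Setoid (X × Bool)) (x : X) (b : Bool) : Quotient s := Quotient.mk s (x, b)

omit [TopologicalSpace X] in
theorem cl_surj (y : Quotient s) : ∃ x b, y = cl s x b := by
  induction y using Quotient.ind with
  | _ p => exact ⟨p.1, p.2, rfl⟩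

theorem cl_eq (hs : ∀ p q, s p q ↔ gl f p q) {x x' : X} {b b' : Bool} :
    cl s x b = cl s x' b' ↔ gl f (x, b) (x', b') := by
  rw [← hs]
  exact Quotient.eq

/-- the map to `E3` -/
def fh (f : X → E3) (hs : ∀ p q, s p q ↔ gl f p q) (hf : ∀ x, f (oth f x) = f x) :
    Quotient s → E3 :=
  Quotient.lift (fun p => f p.1) (by
    intro p q h
    rcases (hs p q).1 h with h | ⟨-, -, -, h, -⟩
    · rw [h]
    · show f p.1 = f q.1
      rw [h, hf])

/-- the involution -/
def tau (hs : ∀ p q, s p q ↔ gl f p q) : Quotient s → Quotient s :=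
  Quotient.lift (fun p => cl s p.1 (!p.2)) (by
    intro p q h
    show cl s p.1 (!p.2) = cl s q.1 (!q.2)
    rw [cl_eq hs]
    rcases (hs p q).1 h with h | ⟨h1, h2, h3, h4, h5⟩
    · left; rw [h]
    · right
      exact ⟨fun h => h1 (by simpa using h), h2, h3, h4, h5⟩)

theorem fh_cl (hs : ∀ p q, s p q ↔ gl f p q) (hf : ∀ x, f (oth f x) = f x) (x : X) (b : Bool) :
    fh f hs hf (cl s x b) = f x := rfl

theorem tau_cl (hs : ∀ p q, s p q ↔ gl f p q) (x : X) (b : Bool) :
    tau hs (cl s x b) = cl s x (!b) := rfl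

end CMP

open CMP in
theorem lbCmp (h1 : LbPrp) (h2 : LbSheet) (h3 : LbOth) (h4 : LbQuot) : LbCmp := by
  intro X _ _ _ f B hop
  obtain ⟨s, hs, hmk, hT2⟩ := h4 X f B hop
  obtain ⟨o1, o2, o3, -, -⟩ := h3 X f B hop
  obtain ⟨-, hP, -⟩ := h1 X f B hop
  have hswap : ∀ x b, f x ∈ Prp f → cl s x b = cl s (oth f x) (!b) := by
    intro x b hx
    rw [cl_eq hs]
    right
    refine ⟨by simp, hx, ?_, rfl, (o2 x).symm⟩
    show f (oth f x) ∈ Prp f
    rw [o1]; exact hx
  have hcont : Continuous (fh f hs o1) := Continuous.quotient_lift (hop.cont.comp continuous_fst) _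
  have htc : Continuous (tau hs) := by
    refine Continuous.quotient_lift ?_ _
    have hnot : Continuous (fun b : Bool => !b) := continuous_of_discreteTopology
    have : Continuous fun p : X × Bool => ((p.1, !p.2) : X × Bool) :=
      continuous_fst.prodMk (hnot.comp continuous_snd)
    exact continuous_quotient_mk'.comp this
  have hsurj : Function.Surjective (fh f hs o1) := by
    intro y
    obtain ⟨x, rfl⟩ := hop.surj y
    exact ⟨cl s x false, rfl⟩
  have hloc : ∀ y : E3, ∃ V ∈ 𝓝 y, ∃ C : Set (Quotient s), IsCompact C ∧ fh f hs o1 ⁻¹' V ⊆ C := by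
    intro y
    obtain ⟨x, rfl⟩ := hop.surj y
    obtain ⟨N, hNc, hxN⟩ := exists_compact_mem_nhds x
    refine ⟨f '' interior N, (hop.opn _ isOpen_interior).mem_nhds
      ⟨x, mem_interior_iff_mem_nhds.mpr hxN, rfl⟩, Quotient.mk s '' (N ×ˢ univ),
      (hNc.prod isCompact_univ).image continuous_quotient_mk', ?_⟩
    intro w hw
    obtain ⟨z, b, rfl⟩ := cl_surj w
    obtain ⟨z₁, hz₁, he⟩ := hw
    have he' : f z₁ = f z := he
    rcases (o3 z₁ z).1 he' with h | h
    · subst h
      exact ⟨(z, b), ⟨interior_subset hz₁, mem_univ _⟩, rfl⟩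
    · by_cases hzz : z₁ = z
      · subst hzz
        exact ⟨(z₁, b), ⟨interior_subset hz₁, mem_univ _⟩, rfl⟩
      · have hPz : f z₁ ∈ Prp f := hP z₁ z he' hzz
        refine ⟨(z₁, !b), ⟨interior_subset hz₁, mem_univ _⟩, ?_⟩
        show cl s z₁ (!b) = cl s z b
        rw [hswap z₁ (!b) hPz, h, Bool.not_not]
  have hproper : IsProperMap (fh f hs o1) := by
    rw [isProperMap_iff_isCompact_preimage]
    refine ⟨hcont, fun K hK => ?_⟩
    have hC : ∃ C : Set (Quotient s), IsCompact C ∧ fh f hs o1 ⁻¹' K ⊆ C := by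
      refine hK.induction_on (p := fun S => ∃ C : Set (Quotient s), IsCompact C ∧
        fh f hs o1 ⁻¹' S ⊆ C) ?_ ?_ ?_ ?_
      · exact ⟨∅, isCompact_empty, by simp⟩
      · rintro S T hST ⟨C, hC, hCT⟩
        exact ⟨C, hC, (preimage_mono hST).trans hCT⟩
      · rintro S T ⟨C, hC, hCS⟩ ⟨C', hC', hCT⟩
        exact ⟨C ∪ C', hC.union hC', by
          rw [preimage_union]; exact union_subset_union hCS hCT⟩
      · intro y _
        obtain ⟨V, hV, C, hC, hVC⟩ := hloc y
        exact ⟨V, mem_nhdsWithin_of_mem_nhds hV, C, hC, hVC⟩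
    obtain ⟨C, hC, hCK⟩ := hC
    exact hC.of_isClosed_subset (hK.isClosed.preimage hcont) hCK
  have hopen : IsOpenMap (fh f hs o1) := by
    intro U hU
    have h5 : fh f hs o1 '' U = (f ∘ Prod.fst) '' (Quotient.mk s ⁻¹' U) := by
      ext y
      constructor
      · rintro ⟨w, hw, rfl⟩
        obtain ⟨x, b, rfl⟩ := cl_surj w
        exact ⟨(x, b), hw, rfl⟩
      · rintro ⟨p, hp, rfl⟩
        exact ⟨Quotient.mk s p, hp, rfl⟩
    rw [h5]
    exact (hop.opn.comp isOpenMap_fst) _ (hU.preimage continuous_quotient_mk')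
  have hj : IsOpenEmbedding (fun x => cl s x false) := by
    refine IsOpenEmbedding.of_continuous_injective_isOpenMap ?_ ?_ ?_
    · exact continuous_quotient_mk'.comp (continuous_id.prodMk continuous_const)
    · intro x x' h
      rcases (cl_eq hs).1 h with h | ⟨h, -⟩
      · exact congrArg Prod.fst h
      · exact absurd rfl h
    · intro U hU
      have h5 : (fun x => cl s x false) '' U = Quotient.mk s '' (U ×ˢ {false}) := by
        ext y
        constructor
        · rintro ⟨x, hx, rfl⟩
          exact ⟨(x, false), ⟨hx, rfl⟩, rfl⟩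
        · rintro ⟨⟨x, b⟩, ⟨hx, hb⟩, rfl⟩
          have hb' : b = false := hb
          subst hb'
          exact ⟨x, hx, rfl⟩
      rw [h5]
      exact hmk _ (hU.prod (isOpen_discrete _))
  refine ⟨{ Y := Quotient s, top := inferInstance, t2 := hT2, j := fun x => cl s x false,
            τ := tau hs, fh := fh f hs o1, emb := hj, fold := ?_, comp := fun x => rfl,
            two := ?_, miss := ?_ }⟩
  · refine ⟨hcont, hsurj, hopen, hproper, htc, ?_, ?_⟩
    · intro y
      obtain ⟨x, b, rfl⟩ := cl_surj y
      rw [tau_cl, tau_cl, Bool.not_not]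
    · intro y y'
      obtain ⟨x, b, rfl⟩ := cl_surj y
      obtain ⟨x', b', rfl⟩ := cl_surj y'
      rw [fh_cl, fh_cl, tau_cl]
      constructor
      · intro h
        by_cases hxx : x = x'
        · subst hxx
          by_cases hb : b' = b
          · left; rw [hb]
          · right
            have : b' = !b := by cases b <;> cases b' <;> simp_all
            rw [this]
        · have hx' : x' = oth f x := ((o3 x x').1 h).resolve_left (Ne.symm hxx)
          have hPx : f x ∈ Prp f := hP x x' h hxx
          by_cases hb : b' = b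
          · right
            rw [hswap x (!b) hPx, hx', hb, Bool.not_not]
          · left
            have : b' = !b := by cases b <;> cases b' <;> simp_all
            rw [hswap x b hPx, hx', this]
      · rintro (h | h)
        · have := congrArg (fh f hs o1) h
          rw [fh_cl, fh_cl] at this
          exact this.symm
        · have := congrArg (fh f hs o1) h
          rw [fh_cl, fh_cl] at this
          exact this.symm
  · intro y
    obtain ⟨x, b, rfl⟩ := cl_surj y
    cases b
    · exact Or.inl ⟨x, rfl⟩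
    · exact Or.inr ⟨x, rfl⟩
  · intro y hy hyP
    obtain ⟨x, b, rfl⟩ := cl_surj y
    cases b
    · exact hy ⟨x, rfl⟩
    · refine hy ⟨oth f x, ?_⟩
      show cl s (oth f x) false = cl s x true
      rw [hswap x true hyP]
      rfl

end CM.LB
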