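import Pool.Agent.Helper37.LB.St

/-!
Project LB, module CONE: locally a closed set contained in finitely many segments is contained in
finitely many lines through a given point.
-/

set_option autoImplicit false

namespace CM.LB

open Set Topology unitInterval

namespace CONE

theorem isClosed_seg (a b : E3) : IsClosed (segment ℝ a b) := by
  rw [segment_eq_image]
  refine (IsCompact.image isCompact_Icc ?_).isClosed
  fun_prop

theorem exists_radius (y : E3) (L : Finset (E3 × E3)) :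
    ∃ r : ℝ, 0 < r ∧ ∀ l ∈ L, y ∉ segment ℝ l.1 l.2 →
      ∀ z ∈ Metric.ball y r, z ∉ segment ℝ l.1 l.2 := by
  classical
  have hcl : IsClosed (⋃ l ∈ L.filter (fun l => y ∉ segment ℝ l.1 l.2), segment ℝ l.1 l.2) := by
    refine Set.Finite.isClosed_biUnion (Finset.finite_toSet _) ?_
    intro l _
    exact isClosed_seg _ _
  have hy : y ∈ (⋃ l ∈ L.filter (fun l => y ∉ segment ℝ l.1 l.2), segment ℝ l.1 l.2)ᶜ := by
    simp only [mem_compl_iff, mem_iUnion, not_exists]
    intro l hl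
    exact (Finset.mem_filter.mp hl).2
  obtain ⟨r, hr, hsub⟩ := Metric.isOpen_iff.mp hcl.isOpen_compl y hy
  refine ⟨r, hr, ?_⟩
  intro l hl hyl z hz hzl
  have := hsub hz
  apply this
  simp only [mem_iUnion]
  exact ⟨l, Finset.mem_filter.mpr ⟨hl, hyl⟩, hzl⟩

theorem line_of_mem (a b y z : E3) (hy : y ∈ segment ℝ a b) (hz : z ∈ segment ℝ a b) :
    ∃ t : ℝ, z = y + t • (b - a) := by
  rw [segment_eq_image'] at hy hz
  obtain ⟨s, _, rfl⟩ := hy
  obtain ⟨s', _, rfl⟩ := hz
  refine ⟨s' - s, ?_⟩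
  module

end CONE

theorem lbCone : LbCone := by
  classical
  intro B hB y
  obtain ⟨L, hL⟩ := hB.2 (‖y‖ + 1)
  obtain ⟨r, hr, hrL⟩ := CONE.exists_radius y L
  refine ⟨min r 1, lt_min hr one_pos, L.image (fun l => l.2 - l.1), ?_⟩
  intro z hzB hz
  have hz1 : dist z y < 1 := lt_of_lt_of_le (Metric.mem_ball.mp hz) (min_le_right _ _)
  have hzr : z ∈ Metric.ball y r :=
    Metric.mem_ball.mpr (lt_of_lt_of_le (Metric.mem_ball.mp hz) (min_le_left _ _))
  have hzR : z ∈ Metric.closedBall (0 : E3) (‖y‖ + 1) := by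
    rw [mem_closedBall_zero_iff]
    have h1 : ‖z‖ ≤ ‖y‖ + ‖z - y‖ := by
      have := norm_add_le y (z - y)
      simpa using this
    rw [← dist_eq_norm] at h1
    linarith
  have hzL := hL ⟨hzB, hzR⟩
  simp only [mem_iUnion] at hzL
  obtain ⟨l, hl, hzl⟩ := hzL
  have hyl : y ∈ segment ℝ l.1 l.2 := by
    by_contra hcon
    exact hrL l hl hcon z hzr hzl
  obtain ⟨t, ht⟩ := CONE.line_of_mem l.1 l.2 y z hyl hzl
  exact ⟨l.2 - l.1, Finset.mem_image.mpr ⟨l, hl, rfl⟩, t, ht⟩

end CM.LB
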