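import Pool.Agent.Helper37.LB.St

set_option autoImplicit false

namespace CM.LB

open Set Topology unitInterval

namespace GEN

theorem box_sub (R : ℝ) : box R ⊆ Metric.closedBall (0 : E3) (2 * |R|) := by
  intro y hy
  rw [mem_closedBall_zero_iff]
  have h1 : ‖y‖ ^ 2 ≤ (2 * |R|) ^ 2 := by
    rw [EuclideanSpace.norm_sq_eq]
    have h2 : ∀ i ∈ Finset.univ, ‖y i‖ ^ 2 ≤ |R| ^ 2 := by
      intro i _
      have h3 : |y i| ≤ R := hy i
      have h4 : R ≤ |R| := le_abs_self R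
      have h5 : ‖y i‖ = |y i| := Real.norm_eq_abs _
      rw [h5]
      exact pow_le_pow_left₀ (abs_nonneg _) (h3.trans h4) 2
    have h6 := Finset.sum_le_sum h2
    rw [Finset.sum_const, Finset.card_univ, Fintype.card_fin] at h6
    have h7 : (0 : ℝ) ≤ |R| ^ 2 := by positivity
    calc _ ≤ (3 : ℕ) • |R| ^ 2 := h6
      _ ≤ (2 * |R|) ^ 2 := by rw [nsmul_eq_mul]; push_cast; nlinarith
  exact le_of_sq_le_sq h1 (by positivity)
where le_of_sq_le_sq {a b : ℝ} (h : a ^ 2 ≤ b ^ 2) (hb : 0 ≤ b) : a ≤ b :=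
  (abs_le_of_sq_le_sq' h hb).2

theorem seg_sub (a b : E3) (i : Fin 3) (t : ℝ) (h : a i ≠ t) :
    (segment ℝ a b ∩ {y | y i = t}).Subsingleton := by
  rintro x ⟨hx, hxt⟩ y ⟨hy, hyt⟩
  rw [segment_eq_image'] at hx hy
  obtain ⟨s, -, rfl⟩ := hx
  obtain ⟨s', -, rfl⟩ := hy
  simp only [mem_setOf_eq, PiLp.add_apply, PiLp.smul_apply, PiLp.sub_apply, smul_eq_mul] at hxt hyt
  have h1 : (s - s') * (b i - a i) = 0 := by linarith
  rcases mul_eq_zero.1 h1 with h2 | h2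
  · rw [sub_eq_zero.1 h2]
  · exfalso
    rw [h2, mul_zero, add_zero] at hxt
    exact h hxt

end GEN

theorem lbGen : LbGen := by
  rintro B ⟨-, hB⟩ R
  obtain ⟨L, hL⟩ := hB (2 * |R|)
  have hfin : (⋃ l ∈ L, ⋃ i : Fin 3, ({l.1 i} : Set ℝ)).Finite := by
    refine L.finite_toSet.biUnion fun l _ => ?_
    exact Set.finite_iUnion fun i => Set.finite_singleton _
  refine hfin.subset ?_
  intro t ht
  by_contra hne
  apply ht
  have h1 : (⋃ l ∈ L, ⋃ i : Fin 3, (segment ℝ l.1 l.2 ∩ {y : E3 | y i = t})).Finite := by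
    refine L.finite_toSet.biUnion fun l hl => ?_
    refine Set.finite_iUnion fun i => ?_
    refine (GEN.seg_sub l.1 l.2 i t ?_).finite
    intro he
    apply hne
    simp only [mem_iUnion]
    exact ⟨l, hl, i, by rw [he]; rfl⟩
  refine h1.subset ?_
  rintro y ⟨⟨hyB, hyR⟩, i, hi⟩
  have h2 := hL ⟨hyB, GEN.box_sub R hyR⟩
  simp only [mem_iUnion] at h2 ⊢
  obtain ⟨l, hl, hy⟩ := h2
  exact ⟨l, hl, i, hy, hi⟩

end CM.LB
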