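import Pool.Agent.Helper37.LB.St
import Pool.Agent.Helper37.LB.M_GEN
import Pool.Agent.Helper59.CM.M_SQ
import Pool.Agent.Helper59.CM.M_GL
import Pool.Agent.Helper59.CM.M_CVX
import Pool.Agent.Helper59.CM.M_LEV

/-!
Project LB, module EXTF: extension of a functor given near infinity of the completion.
-/

set_option autoImplicit false

namespace CM.LB

open Set Topology unitInterval

namespace EXTF

theorem coord_cont (i : Fin 3) : Continuous fun y : E3 => |y i| :=
  (continuous_apply i |>.comp (PiLp.continuous_ofLp 2 _)).abs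

theorem box_closed (R : ℝ) : IsClosed (box R) := by
  have h : box R = ⋂ i, {y : E3 | |y i| ≤ R} := by
    ext y
    simp [box]
  rw [h]
  exact isClosed_iInter fun i => isClosed_le (coord_cont i) continuous_const

theorem box_compact (R : ℝ) : IsCompact (box R) :=
  (isCompact_closedBall (0 : E3) (2 * |R|)).of_isClosed_subset (box_closed R) (GEN.box_sub R)

/-- the open box -/
def ob (R : ℝ) : Set E3 := {y | ∀ i, |y i| < R}

theorem ob_open (R : ℝ) : IsOpen (ob R) := by
  have h : ob R = ⋂ i, {y : E3 | |y i| < R} := by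
    ext y
    simp [ob]
  rw [h]
  exact isOpen_iInter_of_finite fun i => isOpen_lt (coord_cont i) continuous_const

/-- a path in a union of disjoint open sets stays in one of them -/
theorem path_stays {Y ι : Type} [TopologicalSpace Y] (O : ι → Set Y) (hO : ∀ i, IsOpen (O i))
    (hd : ∀ i j, i ≠ j → Disjoint (O i) (O j)) {a b : Y} (p : Path a b)
    (hp : ∀ t, p t ∈ ⋃ i, O i) (i : ι) (hi : a ∈ O i) : ∀ t, p t ∈ O i := by
  have hr : range p ⊆ O i := by
    refine IsPreconnected.subset_left_of_subset_union (hO i)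
      (isOpen_iUnion fun j : {j // j ≠ i} => hO j) ?_ ?_ ?_
      (isPreconnected_range p.continuous)
    · rw [disjoint_iUnion_right]
      rintro ⟨j, hj⟩
      exact hd i j (Ne.symm hj)
    · rintro _ ⟨t, rfl⟩
      obtain ⟨j, hj⟩ := mem_iUnion.1 (hp t)
      by_cases h : j = i
      · left; rw [← h]; exact hj
      · right
        exact mem_iUnion.2 ⟨⟨j, h⟩, hj⟩
    · exact ⟨a, ⟨0, p.source⟩, hi⟩
  intro t
  exact hr ⟨t, rfl⟩

/-- exact on disjoint open sets implies exact on their union -/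
theorem exact_union {Y Γ ι : Type} [TopologicalSpace Y] [Group Γ] (O : ι → Set Y)
    (F : PFun Y Γ) (hO : ∀ i, IsOpen (O i)) (hd : ∀ i j, i ≠ j → Disjoint (O i) (O j))
    (hF : ∀ i, IsExact (O i) F) : IsExact (⋃ i, O i) F := by
  classical
  choose g hg using hF
  refine ⟨fun y => if h : ∃ i, y ∈ O i then g h.choose y else 1, ?_⟩
  have key : ∀ i y, y ∈ O i →
      (if h : ∃ i, y ∈ O i then g h.choose y else (1 : Γ)) = g i y := by
    intro i y hy
    have h : ∃ i, y ∈ O i := ⟨i, hy⟩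
    rw [dif_pos h]
    have h2 : h.choose = i := by
      by_contra hne
      exact (disjoint_left.1 (hd _ _ hne)) h.choose_spec hy
    rw [h2]
  intro a b p hp
  have ha : a ∈ ⋃ i, O i := by
    have := hp 0
    rwa [p.source] at this
  obtain ⟨i, hi⟩ := mem_iUnion.1 ha
  have hs := path_stays O hO hd p hp i hi
  have hb : b ∈ O i := by
    have := hs 1
    rwa [p.target] at this
  rw [hg i a b p hs]
  simp only [key i a hi, key i b hb]

end EXTF

theorem lbExtF (h1 : LbPrp) (h2 : LbShY) (h3 : LbShS) (h4 : LbGen) : LbExtF := by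
  intro X _ _ _ T f B hf c R₀ h hR₀ hh
  have hExt : StExt := pExt (pGL pSq)
  -- a good radius
  obtain ⟨R, hR1, hR2, hRb, hRb'⟩ : ∃ R : ℝ, R₀ < R ∧ R < R₀ + 1 ∧ R ∉ Bad B (R₀ + 1) ∧
      -R ∉ Bad B (R₀ + 1) := by
    have hfin := h4 B hf.seg (R₀ + 1)
    have hfin2 : (Bad B (R₀ + 1) ∪ (fun t : ℝ => -t) '' Bad B (R₀ + 1)).Finite :=
      hfin.union (hfin.image _)
    have hinf : (Ioo R₀ (R₀ + 1)).Infinite := Ioo_infinite (by linarith)
    obtain ⟨R, hR, hR'⟩ := hinf.exists_notMem_finite hfin2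
    refine ⟨R, hR.1, hR.2, fun hb => hR' (Or.inl hb), fun hb => hR' (Or.inr ⟨-R, hb, by simp⟩)⟩
  have hR0 : 0 < R := lt_of_le_of_lt hR₀ hR1
  -- the missing points on the boundary of the box
  set E : Set c.Y := {y | y ∈ c.C ∧ c.fh y ∈ box R ∧ ∃ i, |c.fh y i| = R} with hE
  have hinjC : InjOn c.fh c.C := by
    intro y hy y' hy' hyy
    rcases (c.fold.fib y y').1 hyy with e | e
    · exact e.symm
    · exfalso
      rcases c.two y with hr | hr
      · exact hy hr
      · rw [← e] at hr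
        exact hy' hr
  have hEfin : E.Finite := by
    have hBad : (B ∩ box (R₀ + 1) ∩ {y : E3 | ∃ i, y i = R}).Finite := not_not.1 hRb
    have hBad' : (B ∩ box (R₀ + 1) ∩ {y : E3 | ∃ i, y i = -R}).Finite := not_not.1 hRb'
    refine Set.Finite.of_finite_image (f := c.fh) ((hBad.union hBad').subset ?_)
      (hinjC.mono fun y hy => hy.1)
    rintro _ ⟨y, ⟨hyC, hyb, i, hi⟩, rfl⟩
    have hB : c.fh y ∈ B := (h1 X f B hf).2.2 (c.miss y hyC)
    have hbox : c.fh y ∈ box (R₀ + 1) := fun k => (hyb k).trans hR2.le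
    rcases (abs_eq hR0.le).1 hi with e | e
    · exact Or.inl ⟨⟨hB, hbox⟩, i, e⟩
    · exact Or.inr ⟨⟨hB, hbox⟩, i, e⟩
  -- disjoint sheets
  obtain ⟨U, hU, hUd⟩ := hEfin.t2_separation
  have hVVopen : ∀ r : ℝ, IsOpen (c.fh ⁻¹' VV r) := fun r =>
    (EXTF.box_closed r).isOpen_compl.preimage c.fold.cont
  have hsheet : ∀ y : E, ∃ (O : Set c.Y) (r : ℝ), O ⊆ U y ∩ c.fh ⁻¹' VV R₀ ∧ 0 < r ∧
      Sheet c y O r := by
    rintro ⟨y, hyC, hyb, i, hi⟩
    refine h2 X f B hf c y hyC _ ?_
    refine (((hU y).2.inter (hVVopen R₀)).mem_nhds ⟨(hU y).1, ?_⟩)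
    intro hb
    have := hb i
    rw [hi] at this
    linarith
  choose O r hO hr hS using hsheet
  have hOopen : ∀ y, IsOpen (O y) := fun y => (hS y).opn
  have hOd : ∀ y y' : E, y ≠ y' → Disjoint (O y) (O y') := by
    intro y y' hne
    have hd := hUd y.2 y'.2 (fun e => hne (Subtype.ext e))
    exact Disjoint.mono (fun z hz => (hO y hz).1) (fun z hz => (hO y' hz).1) hd
  have hOex : ∀ y, IsExact (O y) h := by
    intro y
    have h5 := ((h3 X f B hf c y (O y) (r y) (hS y)).2.2.1 univ convex_univ isOpen_univ).2 UU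
    have e : O y ∩ c.fh ⁻¹' univ = O y := by simp
    rw [e] at h5
    exact h5 h (hh.mono fun z hz => (hO y hz).2)
  have hUex : IsExact (⋃ y, O y) h := EXTF.exact_union O h hOopen hOd hOex
  -- extension
  set N : Set c.Y := c.fh ⁻¹' (EXTF.ob R) ∪ ⋃ y, O y with hN
  have hNo : IsOpen N := ((EXTF.ob_open R).preimage c.fold.cont).union (isOpen_iUnion hOopen)
  have hSN : c.fh ⁻¹' VV R ∩ N ⊆ ⋃ y, O y := by
    rintro z ⟨hz, hz' | hz'⟩
    · exfalso
      exact hz fun i => (hz' i).le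
    · exact hz'
  have hSub : c.fh ⁻¹' VV R ⊆ c.fh ⁻¹' VV R₀ := by
    intro z hz hb
    exact hz fun i => (hb i).trans hR1.le
  obtain ⟨F', hF', hF'h⟩ := hExt c.Y UU (c.fh ⁻¹' VV R) N h (hVVopen R) hNo (hh.mono hSub)
    (hUex.mono hSN)
  -- the complement is compact in X
  set K : Set c.Y := (c.fh ⁻¹' VV R ∪ N)ᶜ with hK
  have hKc : IsCompact K := by
    have hb : IsCompact (c.fh ⁻¹' box R) := c.fold.proper.isCompact_preimage (EXTF.box_compact R)
    refine hb.of_isClosed_subset ((hVVopen R).union hNo).isClosed_compl ?_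
    intro z hz
    by_contra hzb
    exact hz (Or.inl hzb)
  have hKr : K ⊆ range c.j := by
    intro z hz
    by_contra hzr
    have hzb : c.fh z ∈ box R := by
      by_contra hzb
      exact hz (Or.inl hzb)
    have hzo : ¬ (c.fh z ∈ EXTF.ob R) := fun hzo => hz (Or.inr (Or.inl hzo))
    have : ∃ i, ¬ |c.fh z i| < R := by
      by_contra hcon
      push Not at hcon
      exact hzo hcon
    obtain ⟨i, hi⟩ := this
    have hi' : |c.fh z i| = R := le_antisymm (hzb i) (not_lt.1 hi)
    have hzE : z ∈ E := ⟨hzr, hzb, i, hi'⟩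
    exact hz (Or.inr (Or.inr (mem_iUnion.2 ⟨⟨z, hzE⟩, (hS ⟨z, hzE⟩).mem⟩)))
  have hKj : IsCompact (c.j ⁻¹' K) := by
    rw [c.emb.isInducing.isCompact_preimage_iff hKr]
    exact hKc
  obtain ⟨n, hn⟩ := (pLev X T).2.2.2 _ hKj
  have hn := hn n le_rfl
  refine ⟨n, R, pull ⟨c.j, c.emb.continuous⟩ F', hR1, ?_, ?_⟩
  · refine (hF'.pull ⟨c.j, c.emb.continuous⟩).mono ?_
    intro x hx
    by_contra hcon
    exact hx (hn hcon)
  · intro a b p hp
    have := hF'h (c.j a) (c.j b) (p.map c.emb.continuous) (by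
      intro t
      show c.fh (c.j (p t)) ∈ VV R
      rw [c.comp]
      exact (hp t).2)
    exact this

end CM.LB
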