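import Pool.Agent.Helper37.LB.St
import Pool.Agent.Helper59.CM.M_GL
import Pool.Agent.Helper59.CM.M_SQ

set_option autoImplicit false

namespace CM.LB

open Set Topology unitInterval Filter

namespace EXTZ

variable {Y Γ : Type} [TopologicalSpace Y] [Group Γ] {S Z : Set Y} {F : PFun Y Γ}

/-- two potentials off a thin set differ by a constant near every point -/
theorem germ (hZ : Thin Z) {N N' : Set Y} (hN : IsOpen N) (hN' : IsOpen N') {p p' : Y → Γ}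
    (hp : ∀ (a b : Y) (γ : Path a b), (∀ t, γ t ∈ N \ Z) → F a b γ = (p a)⁻¹ * p b)
    (hp' : ∀ (a b : Y) (γ : Path a b), (∀ t, γ t ∈ N' \ Z) → F a b γ = (p' a)⁻¹ * p' b)
    {w : Y} (hw : w ∈ N) (hw' : w ∈ N') :
    ∃ c : Γ, ∀ᶠ v in 𝓝 w, v ∉ Z → p v * (p' v)⁻¹ = c := by
  obtain ⟨V, hVN, hVo, hwV, _, hJ, ⟨v₀, hv₀⟩, _⟩ :=
    hZ.2 w (N ∩ N') ((hN.inter hN').mem_nhds ⟨hw, hw'⟩)
  refine ⟨p v₀ * (p' v₀)⁻¹, ?_⟩
  filter_upwards [hVo.mem_nhds hwV] with v hv hvZ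
  obtain ⟨γ, hγ⟩ := hJ v₀ hv₀ v ⟨hv, hvZ⟩
  have h1 := hp v₀ v γ fun t => ⟨(hVN (hγ t).1).1, (hγ t).2⟩
  have h2 := hp' v₀ v γ fun t => ⟨(hVN (hγ t).1).2, (hγ t).2⟩
  rw [h1] at h2
  have h3 : p v = p v₀ * ((p' v₀)⁻¹ * p' v) := by rw [← h2]; group
  rw [h3]; group

/-- points off a thin set are everywhere dense -/
theorem freq (hZ : Thin Z) (w : Y) : ∃ᶠ v in 𝓝 w, v ∉ Z := by
  intro hev
  obtain ⟨V, hVN, _, _, _, _, ⟨v₀, hv₀⟩, _⟩ := hZ.2 w _ hev
  exact hVN hv₀.1 hv₀.2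

omit [Group Γ] in
/-- a locally constant function is constant along paths -/
theorem along {h : Y → Γ} {N : Set Y} (hl : ∀ w ∈ N, ∀ᶠ v in 𝓝 w, h v = h w) {a b : Y}
    (γ : Path a b) (hγ : ∀ t, γ t ∈ N) : h a = h b := by
  have h1 : IsLocallyConstant fun t : I => h (γ t) := by
    rw [IsLocallyConstant.iff_eventually_eq]
    intro t
    exact γ.continuous.continuousAt.eventually (hl (γ t) (hγ t))
  have h2 := h1.apply_eq_of_preconnectedSpace 0 1
  simpa using h2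

end EXTZ

theorem lbExtZ : LbExtZ := by
  classical
  intro Y Γ _ _ S Z F hZ hS hF hloc
  choose! N hNo hzN hNS hex using hloc
  have hex' : ∀ z ∈ S ∩ Z, ∃ g : Y → Γ, ∀ (a b : Y) (γ : Path a b), (∀ t, γ t ∈ N z \ Z) →
      F a b γ = (g a)⁻¹ * g b := fun z hz => hex z hz
  choose! p hp using hex'
  have hgerm : ∀ z ∈ S ∩ Z, ∀ w ∈ S ∩ Z, w ∈ N z →
      ∃ c : Γ, ∀ᶠ v in 𝓝 w, v ∉ Z → p z v * (p w v)⁻¹ = c := fun z hz w hw hwN =>
    EXTZ.germ hZ (hNo z hz) (hNo w hw) (hp z hz) (hp w hw) hwN (hzN w hw)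
  choose! c hc using hgerm
  let q : Y → Y → Γ := fun z w => if w ∈ Z then c z w else p z w
  -- local constancy
  have hloc : ∀ z ∈ S ∩ Z, ∀ z' ∈ S ∩ Z, ∀ w ∈ N z ∩ N z',
      ∀ᶠ v in 𝓝 w, q z' v * (q z v)⁻¹ = q z' w * (q z w)⁻¹ := by
    intro z hz z' hz' w hw
    obtain ⟨d, hd⟩ := EXTZ.germ hZ (hNo z' hz') (hNo z hz) (hp z' hz') (hp z hz) hw.2 hw.1
    have h1 : ∀ᶠ u in 𝓝 w, q z' u * (q z u)⁻¹ = d := by
      have hopen : IsOpen (N z ∩ N z') := (hNo z hz).inter (hNo z' hz')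
      filter_upwards [eventually_eventually_nhds.mpr hd, hopen.mem_nhds hw] with u hu huN
      by_cases huZ : u ∈ Z
      · have huS : u ∈ S ∩ Z := ⟨hNS z hz huN.1, huZ⟩
        have e1 := hc z hz u huS huN.1
        have e2 := hc z' hz' u huS huN.2
        obtain ⟨v, hvZ, ⟨h3, h4⟩, h5⟩ := ((EXTZ.freq hZ u).and_eventually ((e1.and e2).and hu)).exists
        have k1 := h3 hvZ
        have k2 := h4 hvZ
        have k3 := h5 hvZ
        simp only [q, if_pos huZ]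
        rw [← k1, ← k2, ← k3]
        group
      · simp only [q, if_neg huZ]
        exact hu.self_of_nhds huZ
    have h2 : q z' w * (q z w)⁻¹ = d := h1.self_of_nhds
    filter_upwards [h1] with v hv
    rw [hv, h2]
  -- gluing
  let O : Option ↥(S ∩ Z) → Set Y := fun i => match i with
    | none => S \ Z
    | some z => N z
  let G : Option ↥(S ∩ Z) → PFun Y Γ := fun i => match i with
    | none => F
    | some z => fun a b _ => (q z a)⁻¹ * q z b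
  have hO : ∀ i, IsOpen (O i) := by
    rintro (_ | ⟨z, hz⟩)
    · exact hS.sdiff hZ.1
    · exact hNo z hz
  have hG : ∀ i, IsPF (O i) (G i) := by
    rintro (_ | ⟨z, hz⟩)
    · exact hF
    · exact IsExact.isPF ⟨q z, fun a b γ _ => rfl⟩
  have key : ∀ (z : ↥(S ∩ Z)) (a b : Y) (γ : Path a b), (∀ t, γ t ∈ N z \ Z) →
      F a b γ = (q z a)⁻¹ * q z b := by
    intro z a b γ hγ
    have ha : a ∉ Z := by have := (hγ 0).2; simpa using this
    have hb : b ∉ Z := by have := (hγ 1).2; simpa using this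
    rw [hp z z.2 a b γ hγ]
    simp only [q, if_neg ha, if_neg hb]
  have hagree : ∀ (i j : Option ↥(S ∩ Z)) (a b : Y) (γ : Path a b), (∀ t, γ t ∈ O i ∩ O j) →
      G i a b γ = G j a b γ := by
    rintro (_ | z) (_ | z') a b γ hγ
    · rfl
    · exact key z' a b γ fun t => ⟨(hγ t).2, (hγ t).1.2⟩
    · exact (key z a b γ fun t => ⟨(hγ t).1, (hγ t).2.2⟩).symm
    · have h1 := EXTZ.along (h := fun v => q z' v * (q z v)⁻¹) (N := N z ∩ N z')
        (fun w hw => hloc z z.2 z' z'.2 w hw) γ hγ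
      show (q z a)⁻¹ * q z b = (q z' a)⁻¹ * q z' b
      have h2 : q z' b = q z' a * (q z a)⁻¹ * q z b := by rw [h1]; group
      rw [h2]; group
  obtain ⟨F', hF', hF'2⟩ := pGL pSq Y Γ (Option ↥(S ∩ Z)) O G hO hG hagree
  have hU : (⋃ i, O i) = S := by
    apply subset_antisymm
    · refine iUnion_subset ?_
      rintro (_ | ⟨z, hz⟩)
      · exact sdiff_subset
      · exact hNS z hz
    · intro y hy
      by_cases hyZ : y ∈ Z
      · exact mem_iUnion.mpr ⟨some ⟨y, hy, hyZ⟩, hzN y ⟨hy, hyZ⟩⟩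
      · exact mem_iUnion.mpr ⟨none, hy, hyZ⟩
  rw [hU] at hF'
  exact ⟨F', hF', fun a b γ hγ => hF'2 none a b γ hγ⟩

end CM.LB
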