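import Pool.Agent.Helper37.LB.St

/-!
Project LB, module GRAPH (helper33).
-/

set_option autoImplicit false

namespace CM.LB

open Set Topology unitInterval

theorem lbGraph : LbGraph := by
  intro Ed Vt _ s t hr Γ _ g
  classical
  have key : ∀ D : Finset Ed, ∃ θ : Vt → Γ, ∀ e ∈ D, g e = (θ (s e))⁻¹ * θ (t e) := by
    intro D
    induction D using Finset.induction_on with
    | empty => exact ⟨fun _ => 1, fun e he => absurd he (Finset.notMem_empty e)⟩
    | insert e₀ D he₀ ih =>
      obtain ⟨θ', hθ'⟩ := ih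
      obtain ⟨ρ, hρ⟩ := hr (fun e => if e = e₀ then 1 else 0)
      have h0 : ρ (t e₀) - ρ (s e₀) = 1 := by
        have := hρ e₀
        rw [if_pos rfl] at this
        exact this.symm
      have h1 : ∀ e ∈ D, ρ (t e) = ρ (s e) := by
        intro e he
        have hne : e ≠ e₀ := by
          rintro rfl
          exact he₀ he
        have := hρ e
        rw [if_neg hne] at this
        linarith
      refine ⟨fun v => if ρ (t e₀) ≤ ρ v then
        (θ' (s e₀) * g e₀ * (θ' (t e₀))⁻¹) * θ' v else θ' v, ?_⟩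
      intro e he
      rcases Finset.mem_insert.1 he with rfl | he
      · show g e = (if ρ (t e) ≤ ρ (s e) then _ else θ' (s e))⁻¹ *
          (if ρ (t e) ≤ ρ (t e) then (θ' (s e) * g e * (θ' (t e))⁻¹) * θ' (t e) else _)
        rw [if_neg (by linarith), if_pos le_rfl]
        group
      · have e1 := h1 e he
        have e2 := hθ' e he
        by_cases hc : ρ (t e₀) ≤ ρ (s e)
        · have hc' : ρ (t e₀) ≤ ρ (t e) := by rw [e1]; exact hc
          show g e = (if ρ (t e₀) ≤ ρ (s e) then
            (θ' (s e₀) * g e₀ * (θ' (t e₀))⁻¹) * θ' (s e) else θ' (s e))⁻¹ *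
            (if ρ (t e₀) ≤ ρ (t e) then
            (θ' (s e₀) * g e₀ * (θ' (t e₀))⁻¹) * θ' (t e) else θ' (t e))
          rw [if_pos hc, if_pos hc', e2]
          group
        · have hc' : ¬ ρ (t e₀) ≤ ρ (t e) := by rw [e1]; exact hc
          show g e = (if ρ (t e₀) ≤ ρ (s e) then
            (θ' (s e₀) * g e₀ * (θ' (t e₀))⁻¹) * θ' (s e) else θ' (s e))⁻¹ *
            (if ρ (t e₀) ≤ ρ (t e) then
            (θ' (s e₀) * g e₀ * (θ' (t e₀))⁻¹) * θ' (t e) else θ' (t e))
          rw [if_neg hc, if_neg hc']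
          exact e2
  have : Fintype Ed := Fintype.ofFinite Ed
  obtain ⟨θ, hθ⟩ := key Finset.univ
  exact ⟨θ, fun e => hθ e (Finset.mem_univ e)⟩

end CM.LB
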