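import Pool.Agent.Helper37.LB.St
import Pool.Agent.Helper59.CM.M_PAIR

/-!
Project LB, module H1 (helper33): real functors die at the next level.
-/

set_option autoImplicit false

namespace CM.LB

open Set Topology unitInterval

theorem lbH1 : LbH1 := by
  intro X _ T A hA
  set a := A T.p T.p T.lx with ha
  set b := A T.p T.p T.ly with hb
  have hR : IsPF T.Kᶜ (fun x y p => hom2 a b (T.Φ x y p)) := PAIR.hom_pf T.Φ_pf _
  have hD : IsPF T.Kᶜ (fun x y p => hom2 a b (T.Φ x y p) * (A x y p)⁻¹) := by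
    refine ⟨fun x y p q H hH => ?_, fun x y z p q hp hq => ?_⟩
    · show hom2 a b (T.Φ x y p) * (A x y p)⁻¹ = hom2 a b (T.Φ x y q) * (A x y q)⁻¹
      rw [T.Φ_pf.hom x y p q H hH, hA.hom x y p q H hH]
    · show hom2 a b (T.Φ x z (p.trans q)) * (A x z (p.trans q))⁻¹ =
        (hom2 a b (T.Φ x y p) * (A x y p)⁻¹) * (hom2 a b (T.Φ y z q) * (A y z q)⁻¹)
      rw [T.Φ_pf.trans x y z p q hp hq, hA.trans x y z p q hp hq, map_mul, mul_inv,
        mul_mul_mul_comm]
  obtain ⟨g, hg⟩ := T.fill _ hD (by simp [T.Φx, ← ha]) (by simp [T.Φy, ← hb])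
  have hsub : T.shift.Kᶜ ⊆ T.Kᶜ := compl_subset_compl.2 (PAIR.shift_K T)
  have loop : ∀ (x : X) (z : Path x x), (∀ t, z t ∈ T.Kᶜ) → A x x z = hom2 a b (T.Φ x x z) := by
    intro x z hz
    have h1 : hom2 a b (T.Φ x x z) * (A x x z)⁻¹ = (g x)⁻¹ * g x := hg x x z hz
    rw [inv_mul_cancel, mul_inv_eq_one] at h1
    exact h1.symm
  have cm1 : ∀ u v : Multiplicative ℝ, cm u v = 1 := by
    intro u v
    unfold cm
    rw [mul_comm u v, mul_assoc v u u⁻¹, mul_inv_cancel, mul_one, mul_inv_cancel]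
  refine T.shift.fill A (hA.mono hsub) ?_ ?_
  · have e : T.Φ T.shift.p T.shift.p T.shift.lx = W1 xx yy := T.ΦGx
    rw [loop _ T.shift.lx (fun t => hsub (T.shift.lx_mem t)), e, PAIR.hom2_W1]
    exact cm1 _ _
  · have e : T.Φ T.shift.p T.shift.p T.shift.ly = W2 xx yy := T.ΦGy
    rw [loop _ T.shift.ly (fun t => hsub (T.shift.ly_mem t)), e, PAIR.hom2_W2]
    exact cm1 _ _

end CM.LB
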