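import Pool.Agent.Helper37.LB.St

/-!
Project LB, module HB: half balls at the boundary of a box, fine grids.
-/

set_option autoImplicit false

namespace CM.LB

open Set Topology unitInterval

namespace HB

/-- the sign -/
noncomputable def s (y : E3) (i : Fin 3) : ℝ := if 0 ≤ y i then 1 else -1

theorem s_abs (y : E3) (i : Fin 3) : s y i * y i = |y i| := by
  unfold s
  split_ifs with h
  · rw [abs_of_nonneg h, one_mul]
  · rw [abs_of_neg (not_le.1 h)]; ring

theorem s_sq (y : E3) (i : Fin 3) : s y i ^ 2 = 1 := by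
  unfold s
  split_ifs <;> norm_num

theorem s_le (y z : E3) (i : Fin 3) : s y i * z i ≤ |z i| := by
  unfold s
  split_ifs with h
  · rw [one_mul]; exact le_abs_self _
  · rw [neg_one_mul]; exact neg_le_abs _

theorem coord {y z : E3} {ε : ℝ} (hz : z ∈ Metric.ball y ε) (i : Fin 3) : |z i - y i| < ε := by
  have h1 : ‖z - y‖ < ε := by rwa [Metric.mem_ball, dist_eq_norm] at hz
  have h2 := PiLp.norm_apply_le (z - y) i
  rw [Real.norm_eq_abs] at h2
  exact h2.trans_lt h1

/-- the half ball -/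
def H (R ε : ℝ) (y : E3) (i : Fin 3) : Set E3 := Metric.ball y ε ∩ {z | R < s y i * z i}

theorem H_convex (R ε : ℝ) (y : E3) (i : Fin 3) : Convex ℝ (H R ε y i) := by
  refine (convex_ball y ε).inter ?_
  intro a ha b hb u v hu hv huv
  simp only [mem_setOf_eq] at ha hb ⊢
  have e : s y i * (u • a + v • b) i = u * (s y i * a i) + v * (s y i * b i) := by
    simp only [PiLp.add_apply, PiLp.smul_apply, smul_eq_mul]
    ring
  rw [e]
  rcases hu.eq_or_lt with h0 | h0
  · have hv1 : v = 1 := by linarith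
    rw [← h0, hv1]
    linarith
  · have h1 : u * R < u * (s y i * a i) := mul_lt_mul_of_pos_left ha h0
    have h2 : v * R ≤ v * (s y i * b i) := mul_le_mul_of_nonneg_left hb.le hv
    have h3 : u * R + v * R = R := by rw [← add_mul, huv, one_mul]
    linarith

theorem H_sub (R ε : ℝ) (y : E3) (i : Fin 3) : H R ε y i ⊆ Metric.ball y ε \ box R := by
  rintro z ⟨hz, hz2⟩
  refine ⟨hz, fun hb => ?_⟩
  have h1 : |z i| ≤ R := hb i
  have h2 := s_le y z i
  simp only [mem_setOf_eq] at hz2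
  linarith

/-- the common point -/
noncomputable def q (ε : ℝ) (y : E3) : E3 := y + (ε / 2) • !₂[s y 0, s y 1, s y 2]

theorem q_apply (ε : ℝ) (y : E3) (i : Fin 3) : q ε y i = y i + ε / 2 * s y i := by
  unfold q
  rw [PiLp.add_apply, PiLp.smul_apply, smul_eq_mul]
  fin_cases i <;> rfl

theorem q_ball {ε : ℝ} (hε : 0 < ε) (y : E3) : q ε y ∈ Metric.ball y ε := by
  have h3 : ‖(!₂[s y 0, s y 1, s y 2] : E3)‖ < 2 := by
    rw [EuclideanSpace.norm_eq, Fin.sum_univ_three]
    have e0 : ‖(!₂[s y 0, s y 1, s y 2] : E3) 0‖ ^ 2 = 1 := by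
      rw [Real.norm_eq_abs, sq_abs]; exact s_sq y 0
    have e1 : ‖(!₂[s y 0, s y 1, s y 2] : E3) 1‖ ^ 2 = 1 := by
      rw [Real.norm_eq_abs, sq_abs]; exact s_sq y 1
    have e2 : ‖(!₂[s y 0, s y 1, s y 2] : E3) 2‖ ^ 2 = 1 := by
      rw [Real.norm_eq_abs, sq_abs]; exact s_sq y 2
    rw [e0, e1, e2, Real.sqrt_lt' (by norm_num)]
    norm_num
  rw [Metric.mem_ball, dist_eq_norm, q, add_sub_cancel_left, norm_smul, Real.norm_eq_abs,
    abs_of_pos (by positivity)]
  nlinarith

theorem q_H {R ε : ℝ} (hε : 0 < ε) {y : E3} {i : Fin 3} (hi : |y i| = R) : q ε y ∈ H R ε y i := by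
  refine ⟨q_ball hε y, ?_⟩
  simp only [mem_setOf_eq]
  rw [q_apply, mul_add, s_abs, hi]
  have := s_sq y i
  nlinarith

theorem cover {R ε : ℝ} {y : E3} (hR : 0 < R) (hy : y ∈ box R) (hεR : ε ≤ R)
    (hε : ∀ i, |y i| < R → ε ≤ R - |y i|) {z : E3} (hz : z ∈ Metric.ball y ε \ box R) :
    ∃ i, |y i| = R ∧ z ∈ H R ε y i := by
  obtain ⟨hz1, hz2⟩ := hz
  have hz3 : ∃ i, R < |z i| := by
    by_contra hc
    push Not at hc
    exact hz2 hc
  obtain ⟨i, hi⟩ := hz3
  have hc := coord hz1 i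
  have hyi : |y i| ≤ R := hy i
  have h1 : |y i| = R := by
    by_contra hne
    have h2 : |y i| < R := lt_of_le_of_ne hyi hne
    have h3 := hε i h2
    have h4 : |z i| ≤ |y i| + |z i - y i| := by
      calc |z i| = |y i + (z i - y i)| := by congr 1; ring
        _ ≤ |y i| + |z i - y i| := abs_add_le _ _
    linarith
  refine ⟨i, h1, hz1, ?_⟩
  simp only [mem_setOf_eq]
  have hc' := abs_lt.1 hc
  unfold s
  split_ifs with h0
  · rw [abs_of_nonneg h0] at h1
    have : 0 < z i := by linarith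
    rwa [abs_of_pos this, ← one_mul (z i)] at hi
  · rw [abs_of_neg (not_le.1 h0)] at h1
    have : z i < 0 := by linarith
    rw [abs_of_neg this] at hi
    linarith

end HB

theorem lbHB : LbHB := by
  intro R y hR hy
  obtain ⟨ε₀, hε₀, hR₀, hb⟩ : ∃ ε₀ : ℝ, 0 < ε₀ ∧ ε₀ ≤ R ∧ ∀ i, |y i| < R → ε₀ ≤ R - |y i| := by
    classical
    let f : Fin 3 → ℝ := fun i => if |y i| < R then R - |y i| else R
    have hf : ∀ i, 0 < f i := by
      intro i
      simp only [f]
      split_ifs with h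
      · linarith
      · exact hR
    refine ⟨min R (min (f 0) (min (f 1) (f 2))), ?_, min_le_left _ _, ?_⟩
    · exact lt_min hR (lt_min (hf 0) (lt_min (hf 1) (hf 2)))
    · intro i hi
      have h1 : min R (min (f 0) (min (f 1) (f 2))) ≤ f i := by
        fin_cases i
        · exact (min_le_right _ _).trans (min_le_left _ _)
        · exact ((min_le_right _ _).trans (min_le_right _ _)).trans (min_le_left _ _)
        · exact ((min_le_right _ _).trans (min_le_right _ _)).trans (min_le_right _ _)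
      have h2 : f i = R - |y i| := if_pos hi
      rw [h2] at h1
      exact h1
  refine ⟨ε₀, hε₀, ?_⟩
  intro ε hε hle
  have key : ∀ z ∈ Metric.ball y ε \ box R, JoinedIn (Metric.ball y ε \ box R) z (HB.q ε y) := by
    intro z hz
    obtain ⟨i, hi, hzi⟩ := HB.cover hR hy (hle.trans hR₀) (fun i h => hle.trans (hb i h)) hz
    have hseg : segment ℝ z (HB.q ε y) ⊆ Metric.ball y ε \ box R :=
      ((HB.H_convex R ε y i).segment_subset hzi (HB.q_H hε hi)).trans (HB.H_sub R ε y i)
    exact JoinedIn.of_segment_subset hseg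
  intro z hz w hw
  exact (key z hz).trans (key w hw).symm

theorem lbGrid : LbGrid := by
  intro Z R δ hZ hR hδ hRZ hRZ'
  obtain ⟨n, hn⟩ := exists_nat_gt (2 * R * (2 / δ))
  have hn0 : (0 : ℝ) < n := lt_of_le_of_lt (by positivity) hn
  have hn1 : n ≠ 0 := by
    intro h
    rw [h] at hn0
    simp at hn0
  set h : ℝ := 2 * R / n with hh
  have hpos : 0 < h := by positivity
  have hlt : h < δ / 2 := by
    rw [hh, div_lt_iff₀ hn0]
    have := mul_lt_mul_of_pos_left hn (by positivity : (0 : ℝ) < δ / 2)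
    calc 2 * R = δ / 2 * (2 * R * (2 / δ)) := by field_simp
      _ < δ / 2 * n := this
  have hnh : (n : ℝ) * h = 2 * R := by rw [hh]; field_simp
  have hch : ∀ i : ℕ, ∃ x : ℝ, -R + i * h ≤ x ∧ x < -R + i * h + h / 2 ∧ x ∉ Z ∧
      (i = 0 → x = -R) ∧ (i = n → x = R) := by
    intro i
    by_cases h0 : i = 0
    · refine ⟨-R, ?_, ?_, hRZ', fun _ => rfl, ?_⟩
      · rw [h0]; simp
      · rw [h0]; simp; linarith
      · intro h1; exact absurd (h1.symm.trans h0) hn1
    by_cases h1 : i = n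
    · refine ⟨R, ?_, ?_, hRZ, fun h2 => absurd h2 h0, fun _ => rfl⟩
      · rw [h1, hnh]; linarith
      · rw [h1, hnh]; linarith
    · have hinf : (Ico (-R + i * h) (-R + i * h + h / 2) \ Z).Infinite :=
        (Ico_infinite (by linarith)).diff hZ
      obtain ⟨x, hx⟩ := hinf.nonempty
      exact ⟨x, hx.1.1, hx.1.2, hx.2, fun h2 => absurd h2 h0, fun h2 => absurd h2 h1⟩
  choose t ht1 ht2 ht3 ht4 ht5 using hch
  refine ⟨n, t, ?_, ht4 0 rfl, ht5 n rfl, ?_, fun i _ => ht3 i⟩
  · apply strictMono_nat_of_lt_succ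
    intro i
    have h1 := ht2 i
    have h2 := ht1 (i + 1)
    push_cast at h2
    linarith
  · intro i _
    have h1 := ht1 i
    have h2 := ht2 (i + 1)
    push_cast at h2
    linarith

end CM.LB
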