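import Pool.Agent.Helper37.LB.St

/-!
Project LB, module LEB (helper1): uniform size of sheets over a box.
-/

set_option autoImplicit false

namespace CM.LB

open Set Topology unitInterval

namespace LEB

theorem box_compact (R : ℝ) : IsCompact (box R) := by
  refine Metric.isCompact_of_isClosed_isBounded ?_ ?_
  · have e : box R = ⋂ i : Fin 3, {y : E3 | |y i| ≤ R} := by
      ext y
      simp [box]
    rw [e]
    exact isClosed_iInter fun i => isClosed_le (by fun_prop) continuous_const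
  · refine (Metric.isBounded_closedBall (x := (0 : E3)) (r := 3 * R)).subset fun y hy => ?_
    rw [mem_closedBall_zero_iff, EuclideanSpace.norm_eq]
    have hR : 0 ≤ R := (abs_nonneg _).trans (hy 0)
    refine Real.sqrt_le_iff.2 ⟨by positivity, ?_⟩
    calc ∑ i, ‖y i‖ ^ 2 ≤ ∑ _i : Fin 3, R ^ 2 :=
          Finset.sum_le_sum fun i _ => pow_le_pow_left₀ (norm_nonneg _) (hy i) 2
      _ ≤ (3 * R) ^ 2 := by
          rw [Finset.sum_const, Finset.card_univ, Fintype.card_fin, nsmul_eq_mul]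
          push_cast
          nlinarith [sq_nonneg R]

end LEB

theorem lbLeb (_h1 : LbPrp) (h2 : LbShY) (_h3 : LbShS) : LbLeb := by
  intro X _ _ _ f B hB c K R hK hKC
  have hCcl : IsClosed c.C := c.emb.isOpen_range.isClosed_compl
  have hA : IsCompact (c.fh '' c.C ∩ box R) :=
    (LEB.box_compact R).inter_left (c.fold.proper.isClosedMap _ hCcl)
  have hex : ∀ v : ↥(c.fh '' c.C ∩ box R), ∃ (y : c.Y) (O : Set c.Y) (r : ℝ), c.fh y = v.1 ∧
      O ∩ K = ∅ ∧ 0 < r ∧ Sheet c y O r := by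
    rintro ⟨v, ⟨y, hy, rfl⟩, hb⟩
    have hyK : Kᶜ ∈ 𝓝 y := hK.isOpen_compl.mem_nhds fun h => by
      have : y ∈ K ∩ c.C := ⟨h, hy⟩
      rw [hKC] at this
      exact this
    obtain ⟨O, r, hO, hr, hS⟩ := h2 X f B hB c y hy _ hyK
    refine ⟨y, O, r, rfl, ?_, hr, hS⟩
    rw [← disjoint_iff_inter_eq_empty]
    exact disjoint_left.2 fun z hz => hO hz
  choose y O r hy hO hr hS using hex
  obtain ⟨δ, hδ, hL⟩ := lebesgue_number_lemma_of_metric hA
    (c := fun v : ↥(c.fh '' c.C ∩ box R) => Metric.ball (c.fh (y v)) (r v))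
    (fun _ => Metric.isOpen_ball) (by
      intro v hv
      refine mem_iUnion.2 ⟨⟨v, hv⟩, ?_⟩
      rw [hy ⟨v, hv⟩]
      exact Metric.mem_ball_self (hr _))
  refine ⟨δ, hδ, fun z hz hzb => ?_⟩
  obtain ⟨v, hv⟩ := hL (c.fh z) ⟨⟨z, hz, rfl⟩, hzb⟩
  exact ⟨y v, O v, r v, hS v, hO v, hv⟩

end CM.LB
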