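import Pool.Agent.Helper37.LB.St
import Pool.Agent.Helper59.CM.Final

/-!
Project LB (MP_e9500f_gt, literal definition): the main argument.
-/

set_option autoImplicit false

namespace CM.LB

open Set Topology unitInterval

namespace MAINL

variable {X Y Γ : Type} [TopologicalSpace X] [TopologicalSpace Y] [Group Γ]

/-- paths in the range of an open embedding lift -/
theorem lift_path {j : X → Y} (hj : IsOpenEmbedding j) {a b : Y} (p : Path a b)
    (hp : ∀ t, p t ∈ range j) : ∃ (a' b' : X) (q : Path a' b') (ha : a = j a') (hb : b = j b'),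
      p = (q.map hj.continuous).cast ha hb := by
  choose l hl using hp
  have hcont : Continuous l := by
    rw [hj.isEmbedding.continuous_iff]
    have : j ∘ l = p := funext hl
    rw [this]; exact p.continuous
  refine ⟨l 0, l 1, ⟨⟨l, hcont⟩, rfl, rfl⟩, by rw [hl, p.source], by rw [hl, p.target], ?_⟩
  ext t
  exact (hl t).symm

open Classical in
/-- gauge equivalence is transported from `X` to `Y` -/
theorem gauge_push {j : X → Y} (hj : IsOpenEmbedding j) (S : Set Y) (hS : S ⊆ range j)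
    (F F' : PFun Y Γ) (g : X → Γ)
    (h : ∀ (a b : X) (q : Path a b), (∀ t, j (q t) ∈ S) →
      F' _ _ (q.map hj.continuous) = (g a)⁻¹ * F _ _ (q.map hj.continuous) * g b) :
    ∃ g' : Y → Γ, ∀ (a b : Y) (p : Path a b), (∀ t, p t ∈ S) →
      F' a b p = (g' a)⁻¹ * F a b p * g' b := by
  refine ⟨fun y => if hy : ∃ x, j x = y then g hy.choose else 1, ?_⟩
  have key : ∀ x, (if hy : ∃ x', j x' = j x then g hy.choose else 1) = g x := by
    intro x
    have hy : ∃ x', j x' = j x := ⟨x, rfl⟩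
    rw [dif_pos hy]
    exact congrArg g (hj.injective hy.choose_spec)
  intro a b p hp
  obtain ⟨a', b', q, ha, hb, hq⟩ := lift_path hj p (fun t => hS (hp t))
  subst ha hb
  have hq' : p = q.map hj.continuous := by rw [hq]; rfl
  subst hq'
  rw [h a' b' q hp]
  simp only [key]

theorem exact_push {j : X → Y} (hj : IsOpenEmbedding j) (S : Set Y) (hS : S ⊆ range j)
    (F : PFun Y Γ) (g : X → Γ)
    (h : ∀ (a b : X) (q : Path a b), (∀ t, j (q t) ∈ S) →
      F _ _ (q.map hj.continuous) = (g a)⁻¹ * g b) : IsExact S F := by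
  obtain ⟨g', hg'⟩ := gauge_push hj S hS (fun _ _ _ => (1 : Γ)) F g (by
    intro a b q hq
    rw [h a b q hq]; group)
  refine ⟨g', fun a b p hp => ?_⟩
  rw [hg' a b p hp]; group

/-- trivial on the loops at one point of a joined set -/
theorem exact_of_loops {S : Set X} {F : PFun X Γ} (hF : IsPF S F) {p₀ : X} (hp₀ : p₀ ∈ S)
    (hJ : Jn S) (hl : ∀ z : Path p₀ p₀, (∀ t, z t ∈ S) → F p₀ p₀ z = 1) : IsExact S F := by
  classical
  refine ⟨fun x => if hx : JoinedIn S p₀ x then F p₀ x hx.somePath else 1, ?_⟩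
  intro a b p hp
  have ha : a ∈ S := by simpa using hp 0
  have hb : b ∈ S := by simpa using hp 1
  have ja := hJ p₀ hp₀ a ha
  have jb := hJ p₀ hp₀ b hb
  show F a b p = (if hx : JoinedIn S p₀ a then F p₀ a hx.somePath else 1)⁻¹ *
    (if hx : JoinedIn S p₀ b then F p₀ b hx.somePath else 1)
  rw [dif_pos ja, dif_pos jb]
  have h1 := hl ((ja.somePath.trans p).trans jb.somePath.symm)
    (trans_mem (trans_mem ja.somePath_mem hp) (symm_mem jb.somePath_mem))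
  rw [hF.trans _ _ _ _ _ (trans_mem ja.somePath_mem hp) (symm_mem jb.somePath_mem),
    hF.trans _ _ _ _ _ ja.somePath_mem hp, hF.symm _ jb.somePath_mem, mul_inv_eq_one] at h1
  rw [← h1]; group

/-- pull back along an involution -/
theorem exact_invol {τ : X → X} (hτ : Continuous τ) (hinv : ∀ x, τ (τ x) = x) {S : Set X}
    (hS : ∀ x ∈ S, τ x ∈ S) {F : PFun X Γ} (h : IsExact S (pull ⟨τ, hτ⟩ F)) : IsExact S F := by
  obtain ⟨g, hg⟩ := h
  refine ⟨fun x => g (τ x), fun a b p hp => ?_⟩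
  rw [← hg _ _ (p.map hτ) (fun t => hS _ (hp t))]
  show F a b p = F _ _ ((p.map hτ).map _)
  have : (p.map hτ).map (ContinuousMap.mk τ hτ).continuous = p.cast (hinv a) (hinv b) := by
    ext t; exact hinv _
  rw [this, F_cast F]

/-- invariance under homeomorphisms of the source -/
theorem trans_L {X X' : Type} [TopologicalSpace X] [TopologicalSpace X'] (h : X ≃ₜ X')
    {f : X' → E3} (hf : IsBranchedL f) : IsBranchedL (f ∘ h) := by
  refine ⟨hf.cont.comp h.continuous, hf.surj.comp h.surjective, ?_, ?_⟩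
  · intro y
    have := hf.disc y
    have hc : Continuous (fun x : ↥((f ∘ h) ⁻¹' {y}) => (⟨h x.1, x.2⟩ : ↥(f ⁻¹' {y}))) :=
      Continuous.subtype_mk (h.continuous.comp continuous_subtype_val) _
    exact DiscreteTopology.of_continuous_injective hc (by
      intro a b hab
      have h1 : h a.1 = h b.1 := congrArg Subtype.val hab
      exact Subtype.ext (h.injective h1))
  · obtain ⟨B, hB, hL, hcov, hcard⟩ := hf.branch
    refine ⟨B, hB, hL, hcov.comp_homeomorph h, ?_⟩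
    intro y hy
    rw [preimage_comp, ← hcard y hy]
    have h1 : (⇑h ⁻¹' (f ⁻¹' {y})) = ⇑h.symm '' (f ⁻¹' {y}) := by
      rw [h.symm.image_eq_preimage_symm]
      rfl
    rw [h1]
    exact ncard_image_of_injective _ h.symm.injective

end MAINL

open MAINL CM.PAIR

theorem lbMain (hCmp : LbCmp) (hThin : LbThin) (hPhi : LbPhiH) (hRem2 : LbRem2) (hRem : LbRem)
    (hExtF : LbExtF) (hN4 : LbN4) (hNJ : LbNJ) : LbMain := by
  intro X _ _ _ hX T f B hop
  obtain ⟨c⟩ := hCmp X f B hop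
  have hth := hThin X hX f B hop c
  have hfold := c.fold
  obtain ⟨hbox1, hbox2, hbox3⟩ := FINAL.aBox
  obtain ⟨A, A', hAA, hρ0, hnc⟩ := FINAL.aRho1 X T
  obtain ⟨hG, hint, hmono, hcpt⟩ := pLev X T
  obtain ⟨F0, hF0, hL0⟩ := hPhi X hX T f B hop c
  have hjc := c.emb.continuous
  have hfτ : ∀ y, c.fh (c.τ y) = c.fh y := fun y => ((hfold.fib y (c.τ y)).2 (Or.inr rfl)).symm
  set ρ : PFun c.Y UU := fun a b p => hom2 A A' (F0 a b p) with hρdef
  have hρ : IsPF (c.j '' T.K)ᶜ ρ := hom_pf hF0 (hom2 A A')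
  set ρj : PFun X UU := pull ⟨c.j, hjc⟩ ρ with hρjdef
  have hρj : ∀ (a b : X) (p : Path a b), (∀ t, p t ∈ T.Kᶜ) → ρj a b p = hom2 A A' (T.Φ a b p) := by
    intro a b p hp
    show hom2 A A' (F0 _ _ (p.map hjc)) = _
    rw [hL0 a b p hp]
  have hjmem : ∀ (S : Set X) (x : X), x ∉ S → c.j x ∉ c.j '' S := by
    rintro S x hx ⟨x', hx', he⟩
    exact hx (c.emb.injective he ▸ hx')
  have hρjpf : IsPF T.Kᶜ ρj := by
    refine (hρ.pull ⟨c.j, hjc⟩).mono ?_
    intro x hx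
    exact hjmem _ _ hx
  have hne : ∀ m : ℕ, ¬ IsExact (T.lev m).Kᶜ ρj := by
    rintro m ⟨g, hg⟩
    apply hnc m
    have hsub : (T.lev m).Kᶜ ⊆ T.Kᶜ := compl_subset_compl.2 (hmono 0 m (Nat.zero_le _))
    have h1 := hg _ _ _ (T.lev m).lx_mem
    have h2 := hg _ _ _ (T.lev m).ly_mem
    rw [hρj _ _ _ (fun t => hsub ((T.lev m).lx_mem t))] at h1
    rw [hρj _ _ _ (fun t => hsub ((T.lev m).ly_mem t))] at h2
    rw [h1, h2]
  -- first box
  obtain ⟨R0, hR0, hK0⟩ := hbox2 (c.fh '' (c.j '' T.K))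
    ((T.compact.image hjc).image hfold.cont)
  have hboxmono : ∀ {R R' : ℝ}, R ≤ R' → box R ⊆ box R' := by
    intro R R' h y hy i
    exact (hy i).trans h
  have hVmono : ∀ {R R' : ℝ}, R ≤ R' → VV R' ⊆ VV R := fun h => compl_subset_compl.2 (hboxmono h)
  have hU : ∀ (K : Set X) (R : ℝ), c.fh '' (c.j '' K) ⊆ box R →
      c.fh ⁻¹' VV R ⊆ (c.j '' K)ᶜ := by
    intro K R h y hy hyK
    exact hy (h ⟨y, hyK, rfl⟩)
  have hnx : ∀ R, R0 ≤ R → ¬ IsExact (c.fh ⁻¹' VV R) ρ := fun R hR =>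
    hN4 X hX T f B hop c ρ hρ hne R (hR0.trans hR) (hK0.trans (hboxmono hR))
  set h : PFun c.Y UU := pull ⟨c.τ, hfold.tcont⟩ ρ with hhdef
  have hτV : ∀ (R : ℝ), ∀ y ∈ c.fh ⁻¹' VV R, c.τ y ∈ c.fh ⁻¹' VV R := by
    intro R y hy
    show c.fh (c.τ y) ∈ VV R
    rw [hfτ]; exact hy
  have hhpf : IsPF (c.fh ⁻¹' VV R0) h := by
    refine (hρ.pull ⟨c.τ, hfold.tcont⟩).mono ?_
    intro y hy
    exact hU T.K R0 hK0 (hτV R0 y hy)
  obtain ⟨n, R1, F1, hR1, hF1, hF1h⟩ := hExtF X T f B hop c R0 h hR0 hhpf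
  set S := T.lev n with hS
  have hopen : ∀ R, 0 ≤ R → IsOpen (c.fh ⁻¹' VV R) := fun R hR =>
    (hbox1 R hR).1.preimage hfold.cont
  -- the second pair does not commute
  have hncF : F1 S.p S.p S.lx * F1 S.p S.p S.ly ≠ F1 S.p S.p S.ly * F1 S.p S.p S.lx := by
    intro hcomm
    have h1 := (FINAL.aPair X S F1 hF1).2
    rw [MAIN.W1_comm hcomm, MAIN.W2_comm hcomm] at h1
    obtain ⟨hx, hy⟩ := MAIN.conj_one h1
    have hSS : S.K ⊆ S.shift.K := S.mono.trans interior_subset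
    have hF1' : IsPF S.shift.Kᶜ F1 := hF1.mono (compl_subset_compl.2 hSS)
    obtain ⟨g, hg⟩ := (FINAL.aPair X S.shift F1 hF1').1
    obtain ⟨R2, hR2, hK2⟩ := hbox2 (c.fh '' (c.j '' S.shift.K))
      ((S.shift.compact.image hjc).image hfold.cont)
    have hR1' : R1 ≤ max R1 R2 := le_max_left _ _
    have hR2' : R2 ≤ max R1 R2 := le_max_right _ _
    have hR3 : 0 ≤ max R1 R2 := hR2.trans hR2'
    have hex : IsExact ((c.fh ⁻¹' VV (max R1 R2)) \ c.C) h := by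
      refine exact_push c.emb _ ?_ h g ?_
      · intro y hy
        by_contra hcon
        exact hy.2 hcon
      · intro a b q hq
        have hq1 : ∀ t, q t ∈ S.shift.Kᶜ := by
          intro t ht
          exact hU S.shift.K (max R1 R2) (hK2.trans (hboxmono hR2')) (hq t).1 ⟨_, ht, rfl⟩
        have hq2 : ∀ t, q t ∈ S.Kᶜ ∧ f (q t) ∈ VV R1 := by
          intro t
          refine ⟨fun ht => hq1 t (hSS ht), ?_⟩
          have := (hq t).1
          have h3 : c.fh (c.j (q t)) ∈ VV (max R1 R2) := this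
          rw [c.comp] at h3
          exact hVmono hR1' h3
        rw [← hF1h a b q hq2, hg a b q hq1, hx, hy, MAIN.hom2_one]
        group
    have hex2 : IsExact (c.fh ⁻¹' VV (max R1 R2)) h :=
      hRem c.Y UU _ c.C h hth (hopen _ hR3)
        (hhpf.mono (preimage_mono (hVmono (hR1.le.trans hR1')))) hex
    exact hnx _ (hR1.le.trans hR1') (exact_invol hfold.tcont hfold.invol (hτV _) hex2)
  -- level n + 4
  have hS4' : S.lev 4 = T.lev (n + 4) := T.lev_add n 4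
  set S4 := T.lev (n + 4) with hS4
  have hgood : Good (ρj _ _ S4.lx) (ρj _ _ S4.ly) := by
    have hnc0 : ρj T.p T.p T.lx * ρj T.p T.p T.ly ≠ ρj T.p T.p T.ly * ρj T.p T.p T.lx := by
      rw [hρj _ _ _ T.lx_mem, hρj _ _ _ T.ly_mem]
      exact hnc 0
    exact (FINAL.aSeq X T ρj hρjpf hnc0).2 (n + 4) (by omega)
  have hgoodF : Good (F1 _ _ S4.lx) (F1 _ _ S4.ly) := by
    have := (FINAL.aSeq X S F1 hF1 hncF).2 4 le_rfl
    rw [hS4'] at this
    exact this
  have hTS4 : T.K ⊆ S4.K := hmono 0 (n + 4) (Nat.zero_le _)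
  have hSS4 : S.K ⊆ S4.K := hmono n (n + 4) (Nat.le_add_right _ _)
  obtain ⟨g1, hg1⟩ := (FINAL.aPair X S4 ρj (hρjpf.mono (compl_subset_compl.2 hTS4))).1
  obtain ⟨g2, hg2⟩ := (FINAL.aPair X S4 F1 (hF1.mono (compl_subset_compl.2 hSS4))).1
  obtain ⟨F4, hF4, hL4⟩ := hPhi X hX S4 f B hop c
  obtain ⟨R2, hR2, hK2⟩ := hbox2 (c.fh '' (c.j '' S4.K))
    ((S4.compact.image hjc).image hfold.cont)
  set R3 := max R1 R2 with hR3def
  have hR13 : R1 ≤ R3 := le_max_left _ _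
  have hR23 : R2 ≤ R3 := le_max_right _ _
  have hR3 : 0 ≤ R3 := hR2.trans hR23
  have hR03 : R0 ≤ R3 := hR1.le.trans hR13
  have hU3 : c.fh ⁻¹' VV R3 ⊆ (c.j '' S4.K)ᶜ := hU S4.K R3 (hK2.trans (hboxmono hR23))
  have hU30 : c.fh ⁻¹' VV R3 ⊆ (c.j '' T.K)ᶜ := hU T.K R3 (hK0.trans (hboxmono hR03))
  have hS3 : ∀ {a b : X} (q : Path a b), (∀ t, c.j (q t) ∈ (c.fh ⁻¹' VV R3) \ c.C) →
      ∀ t, q t ∈ S4.Kᶜ := by
    intro a b q hq t ht
    exact hU3 (hq t).1 ⟨_, ht, rfl⟩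
  set a1 := ρj S4.p S4.p S4.lx with ha1
  set b1 := ρj S4.p S4.p S4.ly with hb1
  set a2 := F1 S4.p S4.p S4.lx with ha2
  set b2 := F1 S4.p S4.p S4.ly with hb2
  have hPF1 : IsPF (c.fh ⁻¹' VV R3) (fun a b p => hom2 a1 b1 (F4 a b p)) :=
    (hom_pf hF4 (hom2 a1 b1)).mono hU3
  have hPF2 : IsPF (c.fh ⁻¹' VV R3) (fun a b p => hom2 a2 b2 (F4 a b p)) :=
    (hom_pf hF4 (hom2 a2 b2)).mono hU3
  have hρ3 : IsPF (c.fh ⁻¹' VV R3) ρ := hρ.mono hU30
  have hh3 : IsPF (c.fh ⁻¹' VV R3) h := hhpf.mono (preimage_mono (hVmono hR03))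
  have hrange : (c.fh ⁻¹' VV R3) \ c.C ⊆ range c.j := by
    intro y hy
    by_contra hcon
    exact hy.2 hcon
  obtain ⟨k1, hk1⟩ : ∃ g' : c.Y → UU, ∀ (a b : c.Y) (p : Path a b),
      (∀ t, p t ∈ c.fh ⁻¹' VV R3) → ρ a b p = (g' a)⁻¹ * hom2 a1 b1 (F4 a b p) * g' b := by
    obtain ⟨g', hg'⟩ := gauge_push c.emb _ hrange (fun a b p => hom2 a1 b1 (F4 a b p)) ρ g1 (by
      intro a b q hq
      have := hg1 a b q (hS3 q hq)
      rw [hL4 a b q (hS3 q hq)]
      exact this)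
    exact hRem2 c.Y UU _ c.C _ ρ g' hth (hopen _ hR3) hPF1 hρ3 hg'
  obtain ⟨k2, hk2⟩ : ∃ g' : c.Y → UU, ∀ (a b : c.Y) (p : Path a b),
      (∀ t, p t ∈ c.fh ⁻¹' VV R3) → h a b p = (g' a)⁻¹ * hom2 a2 b2 (F4 a b p) * g' b := by
    obtain ⟨g', hg'⟩ := gauge_push c.emb _ hrange (fun a b p => hom2 a2 b2 (F4 a b p)) h g2 (by
      intro a b q hq
      have := hg2 a b q (hS3 q hq)
      rw [hL4 a b q (hS3 q hq), ← this]
      refine (hF1h a b q (fun t => ⟨fun ht => hS3 q hq t (hSS4 ht), ?_⟩)).symm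
      have h3 : c.fh (c.j (q t)) ∈ VV R3 := (hq t).1
      rw [c.comp] at h3
      exact hVmono hR13 h3)
    exact hRem2 c.Y UU _ c.C _ h g' hth (hopen _ hR3) hPF2 hh3 hg'
  obtain ⟨hVo, -, hVJ, hVne, hVE⟩ := hbox1 R3 hR3
  by_cases hUJ : Jn (c.fh ⁻¹' VV R3)
  · obtain ⟨p, hpU, hpτ⟩ := FINAL.aFix c.Y E3 c.fh c.τ (VV R3) hfold hVo hVne (hVE _) hUJ
    have hloc : LocPF c.Y := by
      intro y W hW
      obtain ⟨V, hVW, hV1, hV2, hV3, _, _, hV4⟩ := hth.2 y W hW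
      exact ⟨V, hVW, hV1, hV2, hV3, hV4 _⟩
    obtain ⟨D, D', hDD, -, -⟩ := FINAL.aRho1 X S4
    have key : ∀ z : Path p p, (∀ t, z t ∈ c.fh ⁻¹' VV R3) → (∀ t, c.τ (z t) = z (σ t)) →
        (fun a b p => hom2 D D' (F4 a b p) : PFun c.Y UU) p p z = 1 := by
      intro z hz hzτ
      by_contra hne'
      have hW : F4 p p z ≠ 1 := by
        intro h5; apply hne'; show hom2 D D' (F4 p p z) = 1; rw [h5, map_one]
      have e1 := hk1 p p z hz
      have e2 := hk2 p p z hz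
      have e3 : h p p z = (ρ p p z)⁻¹ := by
        show ρ _ _ (z.map _) = _
        have : z.map hfold.tcont = z.symm.cast hpτ hpτ := by
          ext t; exact hzτ t
        rw [this, F_cast ρ]
        exact hρ3.symm z hz
      rw [e1] at e3
      rw [e2] at e3
      apply FINAL.aSign _ _ _ _ hgood hgoodF _ hW (k2 p * (k1 p)⁻¹)
      have e4 : hom2 a2 b2 (F4 p p z) =
          k2 p * ((k2 p)⁻¹ * hom2 a2 b2 (F4 p p z) * k2 p) * (k2 p)⁻¹ := by group
      rw [e4, e3]; group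
    have htriv := FINAL.aDeckU c.Y E3 c.fh c.τ (VV R3) p
      (fun a b p => hom2 D D' (F4 a b p)) hfold hloc hVo (hVE _) hUJ hpU hpτ
      ((hom_pf hF4 (hom2 D D')).mono hU3) key
    apply hnx R3 hR03
    apply exact_of_loops hρ3 hpU hUJ
    intro z hz
    have h5 : F4 p p z = 1 := by
      by_contra hcon
      exact hDD _ hcon (htriv z hz)
    rw [hk1 p p z hz, h5, map_one]; group
  · have hsm : ∀ y : c.Y, ∀ W ∈ 𝓝 y, ∃ V ⊆ W, IsOpen V ∧ y ∈ V ∧ Jn V := by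
      intro y W hW
      obtain ⟨V, hVW, hV1, hV2, hV3, -⟩ := hth.2 y W hW
      exact ⟨V, hVW, hV1, hV2, hV3⟩
    exact hnx R3 hR03 (hNJ c.Y UU c.fh c.τ (VV R3) hsm hfold hVo hVJ (hVE _) hUJ ρ hρ3)

theorem lbFinal (h0 : LbOp2) (h1 : LbMain) (h2 : LbLocAll) : LbFinal := by
  obtain ⟨hc, ho, -, -, -⟩ := FINAL.aContr
  have hfin : Module.finrank ℝ E = Module.finrank ℝ E3 := by
    simp [E, E3, Complex.finrank_real_complex]
  let Θ : E ≃ₜ E3 := (ContinuousLinearEquiv.ofFinrankEq hfin).toHomeomorph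
  have hcon : ContractibleSpace ↥(Θ '' MM) := (Θ.image MM).symm.contractibleSpace
  refine ⟨Θ '' MM, Θ.isOpenMap _ ho, hcon, ?_⟩
  intro f hf
  have : LocallyCompactSpace ↥MM := ho.locallyCompactSpace
  have hf' : IsBranchedL (f ∘ (Θ.image MM)) := trans_L (Θ.image MM) hf
  obtain ⟨B, hB⟩ := h0 ↥MM _ hf' (fun B _ hB => pInt MM _ B ho hf'.cont hf'.disc hB)
  obtain ⟨T⟩ := FINAL.aTower
  exact h1 ↥MM (h2 MM ho) T _ B hB

end CM.LB
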