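import Pool.Agent.Helper37.LB.St
import Pool.Agent.Helper59.CM.M_BOX

set_option autoImplicit false

namespace CM.LB

open Set Topology unitInterval

namespace N4

theorem cont_co (i : Fin 3) : Continuous fun y : E3 => y i := by fun_prop

/-- open cell -/
def Pa {k : ℕ} (t : ℕ → ℝ) (a : Fin 3 → Fin k) : Set E3 :=
  {v | ∀ i, t (a i : ℕ) < v i ∧ v i < t ((a i : ℕ) + 1)}

/-- closed cell -/
def Pc {k : ℕ} (t : ℕ → ℝ) (a : Fin 3 → Fin k) : Set E3 :=
  {v | ∀ i, t (a i : ℕ) ≤ v i ∧ v i ≤ t ((a i : ℕ) + 1)}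

theorem sub_Pc {k : ℕ} (t : ℕ → ℝ) (a : Fin 3 → Fin k) : Pa t a ⊆ Pc t a :=
  fun _ hv i => ⟨(hv i).1.le, (hv i).2.le⟩

theorem open_Pa {k : ℕ} (t : ℕ → ℝ) (a : Fin 3 → Fin k) : IsOpen (Pa t a) := by
  have : Pa t a = ⋂ i, (fun y : E3 => y i) ⁻¹' Ioo (t (a i : ℕ)) (t ((a i : ℕ) + 1)) := by
    ext v; simp [Pa]
  rw [this]
  exact isOpen_iInter_of_finite fun i => isOpen_Ioo.preimage (cont_co i)

theorem closed_Pc {k : ℕ} (t : ℕ → ℝ) (a : Fin 3 → Fin k) : IsClosed (Pc t a) := by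
  have : Pc t a = ⋂ i, (fun y : E3 => y i) ⁻¹' Icc (t (a i : ℕ)) (t ((a i : ℕ) + 1)) := by
    ext v; simp [Pc]
  rw [this]
  exact isClosed_iInter fun i => isClosed_Icc.preimage (cont_co i)

theorem convex_Pa {k : ℕ} (t : ℕ → ℝ) (a : Fin 3 → Fin k) : Convex ℝ (Pa t a) := by
  intro x hx y hy u v hu hv huv i
  have h := (convex_Ioo (𝕜 := ℝ) (t (a i : ℕ)) (t ((a i : ℕ) + 1))) (hx i) (hy i) hu hv huv
  simpa using h

theorem dist_lt {δ : ℝ} (hδ : 0 < δ) (v v' : E3) (h : ∀ i, |v i - v' i| < δ / 4) :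
    dist v v' < δ := by
  rw [EuclideanSpace.dist_eq, Real.sqrt_lt' hδ, Fin.sum_univ_three]
  have h2 : ∀ i, dist (v i) (v' i) ^ 2 ≤ (δ / 4) ^ 2 := by
    intro i
    rw [Real.dist_eq]
    exact pow_le_pow_left₀ (abs_nonneg _) (h i).le 2
  have h3 := h2 0
  have h4 := h2 1
  have h5 := h2 2
  nlinarith [sq_pos_of_pos hδ]

theorem disj_Pa {k : ℕ} {t : ℕ → ℝ} (ht : StrictMono t) {a b : Fin 3 → Fin k} (hab : a ≠ b) :
    Pa t a ∩ Pa t b = ∅ := by
  have key : ∀ a b : Fin 3 → Fin k, ∀ i, (a i : ℕ) < b i → Pa t a ∩ Pa t b = ∅ := by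
    intro a b i h
    ext v
    simp only [mem_inter_iff, mem_empty_iff_false, iff_false, not_and]
    intro h1 h2
    have h3 : t ((a i : ℕ) + 1) ≤ t (b i : ℕ) := ht.monotone h
    linarith [(h1 i).2, (h2 i).1]
  obtain ⟨i, hi⟩ := Function.ne_iff.mp hab
  rcases lt_or_gt_of_ne (fun h => hi (Fin.ext h) : (a i : ℕ) ≠ b i) with h | h
  · exact key a b i h
  · rw [inter_comm]; exact key b a i h

theorem locate {k : ℕ} {t : ℕ → ℝ} {x : ℝ} (h0 : t 0 ≤ x) (hk : x ≤ t k)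
    (hx : ∀ l, l ≤ k → x ≠ t l) : ∃ l, l < k ∧ t l < x ∧ x < t (l + 1) := by
  classical
  have hex : ∃ n, x < t n := ⟨k, lt_of_le_of_ne hk (hx k le_rfl)⟩
  have h1 := Nat.find_spec hex
  have h2 : Nat.find hex ≤ k := Nat.find_min' hex (lt_of_le_of_ne hk (hx k le_rfl))
  obtain ⟨l, hl⟩ : ∃ l, Nat.find hex = l + 1 := by
    rcases Nat.eq_zero_or_pos (Nat.find hex) with h | h
    · rw [h] at h1; exact absurd h1 (not_lt.mpr h0)
    · exact ⟨Nat.find hex - 1, by omega⟩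
  have h3 : ¬ x < t l := Nat.find_min hex (by omega)
  refine ⟨l, by omega, lt_of_le_of_ne (not_lt.mp h3) (Ne.symm (hx l (by omega))), ?_⟩
  rw [← hl]; exact h1

theorem finE {X : Type} [TopologicalSpace X] {f : X → E3} {B : Set E3} (c : Cmp X f)
    (hprp : (Prp f)ᶜ ⊆ B) (R R₁ : ℝ) (hR : R₁ ≤ R) (k : ℕ) (t : ℕ → ℝ)
    (ht : ∀ l, l ≤ k → t l ∉ Bad B R) :
    {y : c.Y | y ∈ c.C ∧ c.fh y ∈ box R₁ ∧ ∃ i, ∃ l, l ≤ k ∧ c.fh y i = t l}.Finite := by
  refine Set.Finite.of_finite_image (f := c.fh) ?_ ?_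
  · refine Set.Finite.subset (s := ⋃ l ∈ Finset.range (k + 1),
      (B ∩ box R ∩ {y | ∃ i, y i = t l})) ?_ ?_
    · refine Set.Finite.biUnion (Finset.finite_toSet _) ?_
      intro l hl
      have h := ht l (by simpa [Nat.lt_succ_iff] using hl)
      simpa [Bad] using h
    · rintro _ ⟨y, ⟨hy, hb, i, l, hl, hi⟩, rfl⟩
      rw [mem_iUnion₂]
      refine ⟨l, Finset.mem_range.mpr (by omega), ⟨hprp (c.miss y hy), fun j => (hb j).trans hR⟩,
        i, hi⟩
  · intro y hy y' hy' h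
    rcases (c.fold.fib y y').mp h with h1 | h1
    · exact h1.symm
    · exfalso
      rcases c.two y with h2 | h2
      · exact hy.1 h2
      · exact hy'.1 (h1 ▸ h2)

end N4

open N4

theorem lbN4 (h1 : LbPrp) (h2 : LbShY) (h3 : LbShS) (h4 : LbThin) (h5 : LbGen) (h6 : LbLeb)
    (h7 : LbHB) (h8 : LbGrid) (h9 : LbNerve) : LbN4 := by
  classical
  intro X _ _ _ hX T f B hO c F hF hne R hR0 hKR hex
  obtain ⟨-, -, hprp⟩ := h1 X f B hO
  -- choice of `R₁`
  have hfin : (Bad B (R + 1) ∪ (fun x => -x) '' Bad B (R + 1)).Finite :=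
    (h5 B hO.seg (R + 1)).union ((h5 B hO.seg (R + 1)).image _)
  obtain ⟨R₁, ⟨hR1, hR2⟩, hR3⟩ := ((Ioo_infinite (show R < R + 1 by linarith)).sdiff hfin).nonempty
  have hR4 : R₁ ∉ Bad B (R + 1) := fun h => hR3 (Or.inl h)
  have hR5 : -R₁ ∉ Bad B (R + 1) := fun h => hR3 (Or.inr ⟨-R₁, h, by simp⟩)
  have hR6 : 0 < R₁ := lt_of_le_of_lt hR0 hR1
  have hbox : box R ⊆ box R₁ := fun v hv i => (hv i).trans hR1.le
  set K : Set c.Y := c.j '' T.K with hKdef
  have hKc : IsClosed K := (T.compact.image c.emb.continuous).isClosed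
  have hKC : K ∩ c.C = ∅ := by
    ext y
    simp only [mem_inter_iff, mem_empty_iff_false, iff_false, not_and]
    rintro ⟨x, -, rfl⟩ h
    exact h ⟨x, rfl⟩
  obtain ⟨δ, hδ, hleb⟩ := h6 X f B hO c K R₁ hKc hKC
  obtain ⟨k, t, htm, ht0, htk, htd, htB⟩ := h8 (Bad B (R + 1)) R₁ (δ / 4) (h5 B hO.seg (R + 1)) hR6
    (by linarith) hR4 hR5
  have hPbox : ∀ a : Fin 3 → Fin k, Pa t a ⊆ box R₁ := by
    intro a v hv i
    have e1 : t 0 ≤ t (a i : ℕ) := htm.monotone (Nat.zero_le _)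
    have e2 : t ((a i : ℕ) + 1) ≤ t k := htm.monotone (a i).2
    rw [abs_le]
    constructor
    · linarith [(hv i).1]
    · linarith [(hv i).2]
  -- the sheets of the cells
  have hsh : ∀ a : Fin 3 → Fin k, ∃ O : Set c.Y, IsOpen O ∧ O ∩ K = ∅ ∧
      ((∃ y ∈ c.C, c.fh y ∈ Pa t a) → ∃ (y₀ : c.Y) (r : ℝ), Sheet c y₀ O r ∧
        ∀ v ∈ Pc t a, v ∈ Metric.ball (c.fh y₀) r) ∧
      (¬ (∃ y ∈ c.C, c.fh y ∈ Pa t a) → O = ∅) := by
    intro a
    by_cases h : ∃ y ∈ c.C, c.fh y ∈ Pa t a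
    · obtain ⟨y, hy, hya⟩ := h
      obtain ⟨y₀, O, r, hs, hok, hb⟩ := hleb y hy (hPbox a hya)
      refine ⟨O, hs.opn, hok, fun _ => ⟨y₀, r, hs, fun v hv => hb ?_⟩, fun h => absurd ⟨y, hy, hya⟩ h⟩
      rw [Metric.mem_ball]
      refine dist_lt hδ _ _ fun i => ?_
      have e1 := htd (a i : ℕ) (a i).2
      rw [abs_lt]
      constructor
      · linarith [(hv i).1, (hya i).2]
      · linarith [(hv i).2, (hya i).1]
    · exact ⟨∅, isOpen_empty, by simp, fun h' => absurd h' h, fun _ => rfl⟩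
  choose O hOo hOK hOs hOe using hsh
  let J : Option (Fin 3 → Fin k) → Set c.Y := fun o => o.elim (c.fh ⁻¹' VV R₁)
    fun a => O a ∩ c.fh ⁻¹' Pa t a
  have hJn : J none = c.fh ⁻¹' VV R₁ := rfl
  have hJs : ∀ a, J (some a) = O a ∩ c.fh ⁻¹' Pa t a := fun a => rfl
  have hEf := finE c hprp (R + 1) R₁ hR2.le k t htB
  have hfc := c.fold.cont
  have hVo : IsOpen (VV R₁) := (BOX.isClosed_box R₁).isOpen_compl
  suffices hsuf : ∃ m : ℕ, IsExact (T.lev m).Kᶜ (pull ⟨c.j, c.emb.continuous⟩ F) by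
    obtain ⟨m, hm⟩ := hsuf
    exact hne m hm
  refine h9 X T f c F (Option (Fin 3 → Fin k)) J hEf.toFinset (c.fh ⁻¹' box R₁)
    (h4 X hX f B hO c) hF ?_ ?_ ?_ ?_ ?_ ?_ ?_ ?_ ?_
  · -- open
    rintro (_ | a)
    · rw [hJn]; exact hVo.preimage hfc
    · rw [hJs]; exact (hOo a).inter ((open_Pa t a).preimage hfc)
  · -- disjoint
    have key : ∀ a, J none ∩ J (some a) = ∅ := by
      intro a
      rw [hJn, hJs]
      ext y
      simp only [mem_inter_iff, mem_empty_iff_false, iff_false, not_and]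
      intro e1 _ e3
      exact e1 (hPbox a e3)
    rintro (_ | a) (_ | b) hab
    · exact absurd rfl hab
    · exact key b
    · rw [inter_comm]; exact key a
    · rw [hJs, hJs]
      have e1 : a ≠ b := fun h => hab (by rw [h])
      ext y
      simp only [mem_inter_iff, mem_empty_iff_false, iff_false, not_and]
      rintro ⟨_, e2⟩ _ e3
      have : c.fh y ∈ Pa t a ∩ Pa t b := ⟨e2, e3⟩
      rw [disj_Pa htm e1] at this
      exact this
  · -- outside `K`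
    rintro (_ | a) y hy hyK
    · exact hy (hbox (hKR ⟨y, hyK, rfl⟩))
    · have : y ∈ O a ∩ K := ⟨hy.1, hyK⟩
      rw [hOK a] at this
      exact this
  · -- exact
    rintro (_ | a)
    · refine hex.mono ?_
      intro y hy h
      exact hy (hbox h)
    · rw [hJs]
      by_cases h : ∃ y ∈ c.C, c.fh y ∈ Pa t a
      · obtain ⟨y₀, r, hs, -⟩ := hOs a h
        have e1 := ((h3 X f B hO c y₀ (O a) r hs).2.2.1 (Pa t a) (convex_Pa t a) (open_Pa t a)).2 UU F
        refine e1 (hF.mono ?_)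
        intro y hy hyK
        have : y ∈ O a ∩ K := ⟨hy.1, hyK⟩
        rw [hOK a] at this
        exact this
      · rw [hOe a h]
        refine ⟨fun _ => 1, fun x y p hp => ?_⟩
        exact absurd (hp 0).1 (by simp)
  · -- gates are missing points
    intro y hy
    exact ((Set.Finite.mem_toFinset hEf).mp hy).1
  · -- the missing points are covered
    intro y hy
    by_cases hb : c.fh y ∈ box R₁
    · by_cases hE : ∃ i, ∃ l, l ≤ k ∧ c.fh y i = t l
      · exact Or.inr ((Set.Finite.mem_toFinset hEf).mpr ⟨hy, hb, hE⟩)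
      · left
        have e1 : ∀ i, ∃ l, l < k ∧ t l < c.fh y i ∧ c.fh y i < t (l + 1) := by
          intro i
          refine locate ?_ ?_ ?_
          · rw [ht0]; exact (abs_le.mp (hb i)).1
          · rw [htk]; exact (abs_le.mp (hb i)).2
          · intro l hl h
            exact hE ⟨i, l, hl, h⟩
        choose l hl1 hl2 using e1
        have e2 : c.fh y ∈ Pa t (fun i => (⟨l i, hl1 i⟩ : Fin k)) := fun i => hl2 i
        rw [mem_iUnion]
        refine ⟨some (fun i => (⟨l i, hl1 i⟩ : Fin k)), ?_, e2⟩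
        obtain ⟨y₀, r, hs, hb'⟩ := hOs _ ⟨y, hy, e2⟩
        exact hs.all y hy (hb' _ (sub_Pc _ _ e2))
    · left
      rw [mem_iUnion]
      exact ⟨none, hb⟩
  · exact c.fold.proper.isCompact_preimage (BOX.isCompact_box R₁)
  · intro y hy
    rw [mem_iUnion]
    exact ⟨none, hy⟩
  · -- gates
    intro y hy W hW
    obtain ⟨hyC, hyb, -⟩ := (Set.Finite.mem_toFinset hEf).mp hy
    obtain ⟨ε₀, hε₀, hHB⟩ := h7 R₁ (c.fh y) hR6 hyb
    have hyK : y ∉ K := fun h => by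
      have : y ∈ K ∩ c.C := ⟨h, hyC⟩
      rw [hKC] at this
      exact this
    have hcell : ∀ a : Fin 3 → Fin k, ∃ N ∈ 𝓝 y,
        ((∃ y' ∈ c.C, c.fh y' ∈ Pa t a) → c.fh y ∈ Pc t a → N ⊆ O a) ∧
        (c.fh y ∉ Pc t a → N ∩ c.fh ⁻¹' Pa t a = ∅) := by
      intro a
      by_cases h : c.fh y ∈ Pc t a
      · by_cases h' : ∃ y' ∈ c.C, c.fh y' ∈ Pa t a
        · obtain ⟨y₀, r, hs, hb'⟩ := hOs a h'
          exact ⟨O a, (hOo a).mem_nhds (hs.all y hyC (hb' _ h)), fun _ _ => Subset.rfl,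
            fun h'' => absurd h h''⟩
        · exact ⟨univ, Filter.univ_mem, fun h'' => absurd h'' h', fun h'' => absurd h h''⟩
      · refine ⟨c.fh ⁻¹' (Pc t a)ᶜ, ((closed_Pc t a).isOpen_compl.preimage hfc).mem_nhds h,
          fun _ h'' => absurd h'' h, fun _ => ?_⟩
        ext z
        simp only [mem_inter_iff, mem_empty_iff_false, iff_false, not_and]
        intro e1 e2
        exact e1 (sub_Pc t a e2)
    choose N hN1 hN2 hN3 using hcell
    have hW' : (W ∩ Kᶜ) ∩ ⋂ a, N a ∈ 𝓝 y :=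
      Filter.inter_mem (Filter.inter_mem hW (hKc.isOpen_compl.mem_nhds hyK))
        (Filter.iInter_mem.mpr hN1)
    obtain ⟨O₁, r, hO1, hr, hs1⟩ := h2 X f B hO c y hyC _ hW'
    have hs2 := (h3 X f B hO c y O₁ r hs1).1 (min r ε₀) (lt_min hr hε₀) (min_le_left _ _)
    set O₂ : Set c.Y := O₁ ∩ c.fh ⁻¹' Metric.ball (c.fh y) (min r ε₀) with hO2
    have hsub : O₂ ⊆ (W ∩ Kᶜ) ∩ ⋂ a, N a := fun z hz => hO1 hz.1
    obtain ⟨-, -, hs3, hs4⟩ := h3 X f B hO c y O₂ (min r ε₀) hs2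
    have hu := hs3 univ convex_univ isOpen_univ
    rw [preimage_univ, inter_univ] at hu
    refine ⟨O₂, fun z hz => (hsub hz).1.1, hs2.opn, hs2.mem, hu.1,
      hu.2 UU F (hF.mono fun z hz => (hsub hz).1.2), ?_⟩
    rintro (_ | a)
    · rw [hJn]
      refine hs4 (VV R₁) ?_
      have e1 := hHB (min r ε₀) (lt_min hr hε₀) (min_le_right _ _)
      exact e1
    · rw [hJs]
      by_cases h : c.fh y ∈ Pc t a
      · by_cases h' : ∃ y' ∈ c.C, c.fh y' ∈ Pa t a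
        · have e1 : O₂ ∩ (O a ∩ c.fh ⁻¹' Pa t a) = O₂ ∩ c.fh ⁻¹' Pa t a := by
            ext z
            constructor
            · rintro ⟨a1, -, a3⟩; exact ⟨a1, a3⟩
            · rintro ⟨a1, a2⟩
              exact ⟨a1, hN2 a h' h (mem_iInter.mp (hsub a1).2 a), a2⟩
          rw [e1]
          exact (hs3 (Pa t a) (convex_Pa t a) (open_Pa t a)).1
        · rw [hOe a h']
          intro z hz
          exact absurd hz.2.1 (by simp)
      · intro z hz
        exfalso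
        have e1 : z ∈ N a ∩ c.fh ⁻¹' Pa t a := ⟨mem_iInter.mp (hsub hz.1).2 a, hz.2.2⟩
        rw [hN3 a h] at e1
        exact e1

end CM.LB
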