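import Pool.Agent.Helper37.LB.St
import Pool.Agent.Helper59.CM.M_BALL
import Pool.Agent.Helper59.CM.M_CHAIN
import Pool.Agent.Helper59.CM.M_COMM
import Pool.Agent.Helper59.CM.M_DD
import Pool.Agent.Helper59.CM.M_DROP
import Pool.Agent.Helper59.CM.M_FILT
import Pool.Agent.Helper59.CM.M_LEAD
import Pool.Agent.Helper59.CM.M_MAGNUS
import Pool.Agent.Helper59.CM.M_ND
import Pool.Agent.Helper59.CM.M_PAIR
import Pool.Agent.Helper59.CM.M_ROOT
import Pool.Agent.Helper59.CM.M_SQ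
import Pool.Agent.Helper59.CM.M_UNIQ
import Pool.Agent.Helper59.CM.M_WORD
import Pool.Agent.Helper59.CM.M_ZZ

/-!
Project LB, module NEAR: the functor of a tower is trivial near the missing points.
-/

set_option autoImplicit false

namespace CM.LB

open Set Topology unitInterval

namespace NEAR

/-- a path functor which is trivial on loops is exact -/
theorem exact_of_loops {Y Γ : Type} [TopologicalSpace Y] [Group Γ] {S : Set Y} {F : PFun Y Γ}
    (hF : IsPF S F) (hJ : Jn S)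
    (hl : ∀ (a : Y) (z : Path a a), (∀ t, z t ∈ S) → F a a z = 1) : IsExact S F := by
  classical
  by_cases hS : S.Nonempty
  · obtain ⟨x₀, hx₀⟩ := hS
    refine ⟨fun x => if h : x ∈ S then F x₀ x (hJ x₀ hx₀ x h).somePath else 1, ?_⟩
    intro a b p hp
    have ha : a ∈ S := by have := hp 0; simpa using this
    have hb : b ∈ S := by have := hp 1; simpa using this
    simp only [dif_pos ha, dif_pos hb]
    set ca := (hJ x₀ hx₀ a ha).somePath with hca
    set cb := (hJ x₀ hx₀ b hb).somePath with hcb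
    have hcam : ∀ t, ca t ∈ S := (hJ x₀ hx₀ a ha).somePath_mem
    have hcbm : ∀ t, cb t ∈ S := (hJ x₀ hx₀ b hb).somePath_mem
    have h1 := hl x₀ ((ca.trans p).trans cb.symm) (trans_mem (trans_mem hcam hp) (symm_mem hcbm))
    rw [hF.trans _ _ _ _ _ (trans_mem hcam hp) (symm_mem hcbm),
      hF.trans _ _ _ _ _ hcam hp, hF.symm _ hcbm] at h1
    have h2 : F x₀ a ca * F a b p = F x₀ b cb := mul_inv_eq_one.mp h1
    rw [← h2]
    group
  · refine ⟨fun _ => 1, ?_⟩
    intro a b p hp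
    exact absurd ⟨p 0, hp 0⟩ hS

/-- the segments -/
noncomputable def sg (v₀ : E3) (r : ℝ) (v : E3) : E3 × E3 :=
  (v₀ - (r / ‖v‖) • v, v₀ + (r / ‖v‖) • v)

/-- the union of the segments and the centre -/
def Zs (v₀ : E3) (r : ℝ) (L : Finset E3) : Set E3 :=
  {v₀} ∪ ⋃ v ∈ L, segment ℝ (sg v₀ r v).1 (sg v₀ r v).2

theorem isClosed_segment' (a b : E3) : IsClosed (segment ℝ a b) := by
  rw [segment_eq_image]
  apply IsCompact.isClosed
  exact isCompact_Icc.image (by fun_prop)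

open Classical in
theorem Zs_sub (v₀ : E3) (r : ℝ) (L : Finset E3) :
    Zs v₀ r L ⊆ ⋃ l ∈ insert (v₀, v₀) (L.image (sg v₀ r)), segment ℝ l.1 l.2 := by
  rintro z (hz | hz)
  · rw [mem_iUnion₂]
    refine ⟨(v₀, v₀), Finset.mem_insert_self _ _, ?_⟩
    rw [mem_singleton_iff] at hz
    rw [hz]
    exact left_mem_segment ℝ v₀ v₀
  · rw [mem_iUnion₂] at hz ⊢
    obtain ⟨v, hv, hz⟩ := hz
    exact ⟨sg v₀ r v, Finset.mem_insert_of_mem (Finset.mem_image_of_mem _ hv), hz⟩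

theorem Zs_seg (v₀ : E3) (r : ℝ) (L : Finset E3) : Seg (Zs v₀ r L) := by
  classical
  refine ⟨?_, ?_⟩
  · apply IsClosed.union isClosed_singleton
    exact L.finite_toSet.isClosed_biUnion (fun v _ => isClosed_segment' _ _)
  · intro R
    exact ⟨_, inter_subset_left.trans (Zs_sub v₀ r L)⟩

theorem Zs_mem {v₀ : E3} {r : ℝ} {L : Finset E3} {z : E3} (hz : z ∈ Metric.ball v₀ r)
    (h : ∃ v ∈ L, ∃ t : ℝ, z = v₀ + t • v) : z ∈ Zs v₀ r L := by
  obtain ⟨v, hv, t, rfl⟩ := h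
  by_cases hv0 : v = 0
  · left
    rw [hv0, smul_zero, add_zero]
    rfl
  · right
    rw [mem_iUnion₂]
    refine ⟨v, hv, ?_⟩
    have hvn : 0 < ‖v‖ := norm_pos_iff.mpr hv0
    rw [mem_ball_iff_norm, add_sub_cancel_left, norm_smul, Real.norm_eq_abs] at hz
    set a := r / ‖v‖ with ha
    have hta : |t| < a := by
      rw [ha, lt_div_iff₀ hvn]
      exact hz
    have ha0 : 0 < a := lt_of_le_of_lt (abs_nonneg t) hta
    obtain ⟨h1, h2⟩ := abs_lt.mp hta
    refine ⟨(a - t) / (2 * a), (a + t) / (2 * a), ?_, ?_, ?_, ?_⟩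
    · apply div_nonneg <;> linarith
    · apply div_nonneg <;> linarith
    · field_simp
      ring
    · show ((a - t) / (2 * a)) • (v₀ - a • v) + ((a + t) / (2 * a)) • (v₀ + a • v) = v₀ + t • v
      have e1 : (a - t) / (2 * a) + (a + t) / (2 * a) = 1 := by
        field_simp
        ring
      have e2 : ((a + t) / (2 * a) - (a - t) / (2 * a)) * a = t := by
        field_simp
        ring
      calc ((a - t) / (2 * a)) • (v₀ - a • v) + ((a + t) / (2 * a)) • (v₀ + a • v)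
          = ((a - t) / (2 * a) + (a + t) / (2 * a)) • v₀
            + (((a + t) / (2 * a) - (a - t) / (2 * a)) * a) • v := by module
        _ = v₀ + t • v := by rw [e1, e2, one_smul]

theorem Zs_mem' {v₀ : E3} {r : ℝ} {L : Finset E3} {z : E3} (hz : z ∈ Zs v₀ r L) :
    z = v₀ ∨ ∃ v ∈ L, ∃ t : ℝ, z = v₀ + t • v := by
  rcases hz with hz | hz
  · exact Or.inl hz
  · right
    rw [mem_iUnion₂] at hz
    obtain ⟨v, hv, α, β, _, _, hαβ, hz⟩ := hz
    refine ⟨v, hv, (β - α) * (r / ‖v‖), ?_⟩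
    rw [← hz]
    show α • (v₀ - (r / ‖v‖) • v) + β • (v₀ + (r / ‖v‖) • v) = _
    calc α • (v₀ - (r / ‖v‖) • v) + β • (v₀ + (r / ‖v‖) • v)
        = (α + β) • v₀ + ((β - α) * (r / ‖v‖)) • v := by module
      _ = _ := by rw [hαβ, one_smul]

theorem scale {v₀ : E3} {r : ℝ} {L : Finset E3} {w : E3} (hw : w ∈ Metric.ball v₀ r \ Zs v₀ r L)
    {ε : ℝ} (h0 : 0 < ε) (h1 : ε ≤ 1) :
    v₀ + ε • (w - v₀) ∈ Metric.ball v₀ r \ Zs v₀ r L := by
  obtain ⟨hwb, hwZ⟩ := hw
  refine ⟨?_, ?_⟩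
  · rw [mem_ball_iff_norm] at hwb ⊢
    rw [add_sub_cancel_left, norm_smul, Real.norm_eq_abs, abs_of_pos h0]
    have : ε * ‖w - v₀‖ ≤ 1 * ‖w - v₀‖ := mul_le_mul_of_nonneg_right h1 (norm_nonneg _)
    linarith
  · intro hz
    rcases Zs_mem' hz with h | ⟨v, hv, t, h⟩
    · have h2 : ε • (w - v₀) = 0 := by
        have := congrArg (fun x => x - v₀) h
        simpa using this
      have h3 : w - v₀ = 0 := by
        rcases smul_eq_zero.mp h2 with h3 | h3
        · exact absurd h3 h0.ne'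
        · exact h3
      apply hwZ
      left
      exact sub_eq_zero.mp h3
    · apply hwZ
      apply Zs_mem hwb
      refine ⟨v, hv, t / ε, ?_⟩
      have h2 : ε • (w - v₀) = t • v := add_left_cancel h
      have h3 : w - v₀ = (t / ε) • v := by
        have : ε⁻¹ • (ε • (w - v₀)) = ε⁻¹ • (t • v) := by rw [h2]
        rw [smul_smul, inv_mul_cancel₀ h0.ne', one_smul, smul_smul] at this
        rw [this]
        congr 1
        field_simp
      rw [← h3]
      abel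

theorem core (hSq : StSq) (hBall : StBall) (hFilt : StFilt) (hRho : StRho1)
    (h1 : LbPrp) (h2 : LbShY) (h3 : LbShS) (h4 : LbTrf) (h5 : LbThinE) (h6 : LbCone)
    (h7 : LbRem) (h8 : LbOrd) : LbNear := by
  classical
  intro X _ _ _ T f B hO c F hF hLf y hy
  have hlevK : ∀ n, IsClosed (c.j '' (T.lev n).K) := fun n =>
    ((T.lev n).compact.image c.emb.continuous).isClosed
  have hyj : ∀ n, y ∉ c.j '' (T.lev n).K := fun n ⟨x, _, hx⟩ => hy ⟨x, hx⟩
  obtain ⟨O₀, r₀, hO₀W, hr₀, hsh₀⟩ := h2 X f B hO c y hy (c.j '' T.K)ᶜ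
    ((hlevK 0).isOpen_compl.mem_nhds (hyj 0))
  obtain ⟨r₁, hr₁, L, hcone⟩ := h6 B hO.seg (c.fh y)
  obtain ⟨hPo, _, hPB⟩ := h1 X f B hO
  obtain ⟨r, hr0, hrr₀, hrr₁⟩ : ∃ r : ℝ, 0 < r ∧ r ≤ r₀ ∧ r ≤ r₁ :=
    ⟨min r₀ r₁, lt_min hr₀ hr₁, min_le_left _ _, min_le_right _ _⟩
  have hsh := (h3 X f B hO c y O₀ r₀ hsh₀).1 r hr0 hrr₀
  obtain ⟨O, hOdef⟩ : ∃ O, O = O₀ ∩ c.fh ⁻¹' Metric.ball (c.fh y) r := ⟨_, rfl⟩
  rw [← hOdef] at hsh
  obtain ⟨_, ⟨s, hs1, hs2, hs3⟩, _, _⟩ := h3 X f B hO c y O r hsh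
  obtain ⟨v₀, hv₀⟩ : ∃ v₀, v₀ = c.fh y := ⟨_, rfl⟩
  rw [← hv₀] at hcone
  have himg : c.fh '' O = Metric.ball v₀ r := by rw [hv₀]; exact hsh.img
  have hOK : O ⊆ (c.j '' T.K)ᶜ := by
    rw [hOdef]
    exact inter_subset_left.trans hO₀W
  -- the target
  obtain ⟨S, hS⟩ : ∃ S : Set E3, S = Metric.ball v₀ r ∩ Prp f := ⟨_, rfl⟩
  have hSo : IsOpen S := by rw [hS]; exact Metric.isOpen_ball.inter hPo
  have hOC : ∀ z ∈ O \ c.C, c.fh z ∈ S ∧ s (c.fh z) = z := by
    rintro z ⟨hzO, hzC⟩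
    refine ⟨?_, hs2 z hzO⟩
    rw [hS]
    refine ⟨himg ▸ ⟨z, hzO, rfl⟩, ?_⟩
    by_contra hcon
    exact hzC ((hsh.hit z hzO).mpr hcon)
  have hSO : ∀ v ∈ S, s v ∈ O \ c.C ∧ c.fh (s v) = v := by
    intro v hv
    rw [hS] at hv
    obtain ⟨ha, hb⟩ := hs3 v (himg.symm ▸ hv.1)
    refine ⟨⟨ha, ?_⟩, hb⟩
    intro hC
    have := (hsh.hit _ ha).mp hC
    rw [hb] at this
    exact this hv.2
  have hsub : O \ c.C ⊆ c.j '' T.Kᶜ := by
    rintro z ⟨hzO, hzC⟩
    have hzr : z ∈ range c.j := by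
      by_contra hcon
      exact hzC hcon
    obtain ⟨x, rfl⟩ := hzr
    exact ⟨x, fun hx => hOK hzO ⟨x, hx, rfl⟩, rfl⟩
  have hSball : S ⊆ Metric.ball v₀ r := by rw [hS]; exact inter_subset_left
  obtain ⟨htr, _, _⟩ := h4 c.Y E3 F2 (O \ c.C) S c.fh s c.fold.cont.continuousOn
    (hs1.mono (by rw [himg]; exact hSball)) hOC hSO
  obtain ⟨F', hF', hFF'⟩ := htr F (hF.mono hsub)
  -- the thin set
  obtain ⟨Z, hZ⟩ : ∃ Z : Set E3, Z = Zs v₀ r L := ⟨_, rfl⟩
  have hSegZ : Seg Z := by rw [hZ]; exact Zs_seg v₀ r L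
  have hbZS : Metric.ball v₀ r \ Z ⊆ S := by
    rintro z ⟨hzb, hzZ⟩
    rw [hS]
    refine ⟨hzb, ?_⟩
    by_contra hcon
    apply hzZ
    rw [hZ]
    exact Zs_mem hzb (hcone z (hPB hcon) (Metric.ball_subset_ball hrr₁ hzb))
  have hSZ : S \ Z = Metric.ball v₀ r \ Z := by
    apply Subset.antisymm
    · exact sdiff_subset_sdiff_left hSball
    · exact fun z hz => ⟨hbZS hz, hz.2⟩
  have hJn : Jn (Metric.ball v₀ r \ Z) := by
    refine (hBall Z (insert (v₀, v₀) (L.image (sg v₀ r))) v₀ r hSegZ.1 ?_).1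
    refine inter_subset_left.trans ?_
    rw [hZ]
    exact Zs_sub v₀ r L
  obtain ⟨A, B', hinj, hPF, _⟩ := hRho X T
  -- loops are trivial
  have hloops : ∀ (a : E3) (z : Path a a), (∀ t, z t ∈ Metric.ball v₀ r \ Z) → F' a a z = 1 := by
    intro a z hz
    by_contra hne
    apply hinj _ hne
    apply sr_inj
    rw [sr_one, ← sub_eq_zero]
    apply NS.ext
    intro wd
    rw [NS.co_zero]
    have key : ∀ n : ℕ, Ord (n + 1) (sr (hom2 A B' (F' a a z)) - 1) := by
      intro n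
      -- small scale
      have hVo : IsOpen (c.fh '' (O ∩ (c.j '' (T.lev n).K)ᶜ)) :=
        c.fold.opn _ (hsh.opn.inter (hlevK n).isOpen_compl)
      have hvV : v₀ ∈ c.fh '' (O ∩ (c.j '' (T.lev n).K)ᶜ) := ⟨y, ⟨hsh.mem, hyj n⟩, hv₀.symm⟩
      obtain ⟨δ, hδ, hδV⟩ := Metric.isOpen_iff.mp hVo v₀ hvV
      obtain ⟨ε, hε0, hε1, hεδ⟩ : ∃ ε : ℝ, 0 < ε ∧ ε ≤ 1 ∧ ε * r ≤ δ := by
        refine ⟨min 1 (δ / r), lt_min one_pos (div_pos hδ hr0), min_le_left _ _, ?_⟩
        calc min 1 (δ / r) * r ≤ (δ / r) * r :=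
              mul_le_mul_of_nonneg_right (min_le_right _ _) hr0.le
          _ = δ := div_mul_cancel₀ _ hr0.ne'
      have hcontσ : Continuous (fun x : E3 => v₀ + ε • (x - v₀)) := by fun_prop
      set z' : Path (v₀ + ε • (a - v₀)) (v₀ + ε • (a - v₀)) := z.map hcontσ with hz'
      have hz't : ∀ t, z' t = v₀ + ε • (z t - v₀) := fun t => rfl
      have hz'm : ∀ t, z' t ∈ Metric.ball v₀ r \ Z := by
        intro t
        rw [hz't, hZ]
        exact scale (hZ ▸ hz t) hε0 hε1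
      have hz'δ : ∀ t, z' t ∈ Metric.ball v₀ δ := by
        intro t
        rw [hz't, mem_ball_iff_norm, add_sub_cancel_left, norm_smul, Real.norm_eq_abs,
          abs_of_pos hε0]
        have hzb := (hz t).1
        rw [mem_ball_iff_norm] at hzb
        calc ε * ‖z t - v₀‖ < ε * r := mul_lt_mul_of_pos_left hzb hε0
          _ ≤ δ := hεδ
      -- lift to the sheet
      have hsV : ∀ t, s (z' t) ∈ (O ∩ (c.j '' (T.lev n).K)ᶜ) := by
        intro t
        obtain ⟨u, hu, huz⟩ := hδV (hz'δ t)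
        rw [← huz, hs2 u hu.1]
        exact hu
      have hsOC : ∀ t, s (z' t) ∈ O \ c.C ∧ c.fh (s (z' t)) = z' t :=
        fun t => hSO _ (hbZS (hz'm t))
      have hscont : Continuous (fun t : I => s (z' t)) := by
        have hc : ContinuousOn s (range z') := by
          apply hs1.mono
          rw [himg]
          rintro _ ⟨t, rfl⟩
          exact (hz'm t).1
        exact hc.comp_continuous z'.continuous (fun t => ⟨t, rfl⟩)
      have hex : ∀ t : I, ∃ x, c.j x = s (z' t) := by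
        intro t
        obtain ⟨x, _, hx⟩ := hsub (hsOC t).1
        exact ⟨x, hx⟩
      choose x hx using hex
      have hxc : Continuous x := by
        rw [c.emb.isInducing.continuous_iff]
        have : c.j ∘ x = fun t => s (z' t) := funext hx
        rw [this]
        exact hscont
      have hx01 : x 1 = x 0 := by
        apply c.emb.injective
        rw [hx, hx, z'.source, z'.target]
      set w : Path (x 0) (x 0) := ⟨⟨x, hxc⟩, rfl, hx01⟩ with hw
      have hwt : ∀ t, w t = x t := fun t => rfl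
      have hwK : ∀ t, w t ∈ (T.lev n).Kᶜ := by
        intro t hcon
        rw [hwt] at hcon
        exact (hsV t).2 ⟨x t, hcon, hx t⟩
      have hwK0 : ∀ t, w t ∈ T.Kᶜ := by
        intro t hcon
        rw [hwt] at hcon
        exact hOK (hsV t).1 ⟨x t, hcon, hx t⟩
      have hfh0 : c.fh (c.j (x 0)) = v₀ + ε • (a - v₀) := by
        rw [hx, (hsOC 0).2, z'.source]
      have e1 : F' _ _ (z'.cast hfh0 hfh0) = F _ _ (w.map c.emb.continuous) := by
        apply hFF'
        · intro t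
          show c.j (x t) ∈ O \ c.C
          rw [hx]
          exact (hsOC t).1
        · intro t
          show z' t = c.fh (c.j (x t))
          rw [hx, (hsOC t).2]
      rw [F_cast F', hLf _ _ w hwK0] at e1
      have e2 : Ord (n + 1) (sr (hom2 A B' (F' _ _ z')) - 1) := by
        rw [e1]
        exact h8 X T _ hPF n (x 0) w hwK
      -- the square
      have hQc : Continuous (fun q : I × I =>
          v₀ + (1 - (q.2 : ℝ) * (1 - ε)) • (z q.1 - v₀)) := by fun_prop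
      have hℓc : Continuous (fun t : I => v₀ + (1 - (t : ℝ) * (1 - ε)) • (a - v₀)) := by fun_prop
      set ℓ : Path a (v₀ + ε • (a - v₀)) :=
        ⟨⟨fun t : I => v₀ + (1 - (t : ℝ) * (1 - ε)) • (a - v₀), hℓc⟩, by simp, by simp⟩ with hℓ
      have hsq := hSq E3 F2 S F' hF' ⟨_, hQc⟩ (by
        rintro ⟨t, e⟩
        apply hbZS
        show v₀ + (1 - (e : ℝ) * (1 - ε)) • (z t - v₀) ∈ _
        rw [hZ]
        have he0 : (0 : ℝ) ≤ e := e.2.1
        have he1 : (e : ℝ) ≤ 1 := e.2.2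
        apply scale (hZ ▸ hz t)
        · nlinarith
        · nlinarith) a a _ _ z ℓ ℓ z' (by
        intro t
        show z t = v₀ + (1 - ((0 : I) : ℝ) * (1 - ε)) • (z t - v₀)
        simp) (by
        intro t
        show v₀ + (1 - (t : ℝ) * (1 - ε)) • (a - v₀)
          = v₀ + (1 - (t : ℝ) * (1 - ε)) • (z 1 - v₀)
        rw [z.target]) (by
        intro t
        show v₀ + (1 - (t : ℝ) * (1 - ε)) • (a - v₀)
          = v₀ + (1 - (t : ℝ) * (1 - ε)) • (z 0 - v₀)
        rw [z.source]) (by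
        intro t
        show v₀ + ε • (z t - v₀) = v₀ + (1 - ((1 : I) : ℝ) * (1 - ε)) • (z t - v₀)
        simp)
      have e3 : F' a a z = F' _ _ ℓ * F' _ _ z' * (F' _ _ ℓ)⁻¹ := eq_mul_inv_of_mul_eq hsq
      rw [e3, map_mul, map_mul, map_inv]
      exact ((hFilt (n + 1) (by omega)).2.2 _ _ e2).1
    exact key wd.length wd (Nat.lt_succ_self _)
  have hex1 : IsExact (S \ Z) F' := by
    rw [hSZ]
    exact exact_of_loops (hF'.mono hbZS) hJn hloops
  obtain ⟨g, hg⟩ := h7 E3 F2 S Z F' (h5 Z hSegZ) hSo hF' hex1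
  refine ⟨O, hsh.opn, hsh.mem, hOK, fun u => g (c.fh u), ?_⟩
  intro a b p hp
  have e4 : F' _ _ (p.map c.fold.cont) = F a b p := hFF' a b p _ hp (fun t => rfl)
  rw [← e4]
  exact hg _ _ _ (fun t => (hOC _ (hp t)).1)

theorem nWord : StWord := pWord
theorem nLeadEx : StLeadEx := pLeadEx nWord
theorem nLead : StLead := pLead nWord
theorem nComm : StComm := pComm nWord nLeadEx nLead
theorem nND : StND := pND nWord nComm
theorem nRoot : StRoot := pRoot nWord
theorem nDrop : StDrop := pDrop nWord nLeadEx nLead pLS nRoot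
theorem nD : StD := pD nWord nComm pLS nRoot nDrop nLeadEx nLead
theorem nChain : StChain := pChain nWord nComm nND nD
theorem nRho1 : StRho1 := pRho1 pMagnus (pSeq (pPair (pUniq pFilt)) nChain)

end NEAR

theorem lbNear (h1 : LbPrp) (h2 : LbShY) (h3 : LbShS) (h4 : LbTrf) (h5 : LbThinE) (h6 : LbCone)
    (h7 : LbRem) (h8 : LbOrd) : LbNear :=
  NEAR.core pSq pBall pFilt NEAR.nRho1 h1 h2 h3 h4 h5 h6 h7 h8

end CM.LB
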