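import Pool.Agent.Helper37.LB.St
import Pool.Agent.Helper59.CM.M_AG
import Pool.Agent.Helper59.CM.M_SQ
import Pool.Agent.Helper59.CM.M_GL
import Pool.Agent.Helper59.CM.M_POT
import Pool.Agent.Helper59.CM.M_LEV

/-!
Project LB, module NERVE (helper51).
-/

set_option autoImplicit false

namespace CM.LB

open Set Topology unitInterval

namespace NERVE

/-- lifting of paths along an open embedding -/
theorem lift {X Y : Type} [TopologicalSpace X] [TopologicalSpace Y] {j : X → Y}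
    (hj : IsOpenEmbedding j) {a b : Y} (p : Path a b) (hp : ∀ t, p t ∈ range j) :
    ∃ (a' b' : X) (ha : a = j a') (hb : b = j b') (p' : Path a' b'),
      p = (p'.map hj.continuous).cast ha hb := by
  have hj' : ∀ t, j (hj.isEmbedding.toHomeomorph.symm ⟨p t, hp t⟩) = p t := fun t => by
    have h := hj.isEmbedding.toHomeomorph.apply_symm_apply ⟨p t, hp t⟩
    exact congrArg Subtype.val h
  refine ⟨hj.isEmbedding.toHomeomorph.symm ⟨p 0, hp 0⟩,
    hj.isEmbedding.toHomeomorph.symm ⟨p 1, hp 1⟩, by rw [hj', p.source], by rw [hj', p.target],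
    ⟨⟨fun t => hj.isEmbedding.toHomeomorph.symm ⟨p t, hp t⟩, ?_⟩, rfl, rfl⟩, ?_⟩
  · exact hj.isEmbedding.toHomeomorph.symm.continuous.comp (p.continuous.subtype_mk hp)
  · ext t
    exact (hj' t).symm

/-- exactness can be tested upstairs -/
theorem push {X Y Γ : Type} [TopologicalSpace X] [TopologicalSpace Y] [Group Γ] {j : X → Y}
    (hj : IsOpenEmbedding j) {S : Set X} {F : PFun Y Γ}
    (h : IsExact S (pull ⟨j, hj.continuous⟩ F)) : IsExact (j '' S) F := by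
  classical
  obtain ⟨g, hg⟩ := h
  refine ⟨fun y => if h : ∃ x, j x = y then g h.choose else 1, fun a b p hp => ?_⟩
  obtain ⟨a', b', ha, hb, p', rfl⟩ := lift hj p fun t => by
    obtain ⟨x, -, hx⟩ := hp t
    exact ⟨x, hx⟩
  subst ha hb
  have hch : ∀ x : X, (if h : ∃ x', j x' = j x then g h.choose else 1) = g x := fun x => by
    have h : ∃ x', j x' = j x := ⟨x, rfl⟩
    rw [dif_pos h, hj.injective h.choose_spec]
  rw [F_cast F]
  simp only [hch]
  refine hg a' b' p' fun t => ?_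
  obtain ⟨x, hx, hxt⟩ := hp t
  have : x = p' t := hj.injective hxt
  rw [← this]
  exact hx

/-- gluing of potentials which are given by one function on the cover -/
theorem glue {X Γ : Type} [TopologicalSpace X] [Group Γ] {ι : Type} {S : Set X}
    {O : ι → Set X} {F : PFun X Γ} (hF : IsPF S F) (hO : ∀ i, IsOpen (O i)) (hS : S ⊆ ⋃ i, O i)
    (q : X → Γ) (hq : ∀ i, ∀ (a b : X) (p : Path a b), (∀ t, p t ∈ O i) →
      F a b p = (q a)⁻¹ * q b) : IsExact S F := by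
  have hE : IsExact S (fun a b _ => (q a)⁻¹ * q b : PFun X Γ) := ⟨q, fun a b p _ => rfl⟩
  refine ⟨q, fun a b p hp => ?_⟩
  refine pAG X Γ ι S O F (fun a b _ => (q a)⁻¹ * q b) hF hE.isPF hO hS ?_ a b p hp
  intro i a b p hp
  exact hq i a b p fun t => (hp t).2

/-- exhaustion -/
theorem exh {X : Type} [TopologicalSpace X] [T2Space X] (T : Tower X) {f : X → E3} (c : Cmp X f)
    (Ω Q : Set c.Y) (hΩ : IsOpen Ω) (hC : c.C ⊆ Ω) (hQ : IsCompact Q) (hΩQ : Ωᶜ ⊆ Q) :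
    ∃ N, ∀ n, N ≤ n → (T.lev n).Kᶜ ⊆ c.j ⁻¹' Ω := by
  have h1 : IsCompact Ωᶜ := hQ.of_isClosed_subset hΩ.isClosed_compl hΩQ
  have h2 : Ωᶜ ⊆ range c.j := by
    intro y hy
    by_contra hn
    exact hy (hC hn)
  have h3 : IsCompact (c.j ⁻¹' Ωᶜ) :=
    (c.emb.isEmbedding.isInducing.isCompact_preimage_iff h2).2 h1
  obtain ⟨N, hN⟩ := (pLev X T).2.2.2 _ h3
  refine ⟨N, fun n hn x hx => ?_⟩
  by_contra hxn
  exact hx (hN n hn hxn)

end NERVE

set_option linter.unusedVariables false in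
theorem lbNerve (h1 : LbTrf) (h2 : LbRem) (h3 : LbH1) (h4 : LbGraph) : LbNerve := by
  classical
  intro X _ _ _ T f c F ι _ J E Q hthin hF hJo hJd hJK hJe hE hcov hQ hQJ hgate
  have hjK : ∀ n, IsClosed (c.j '' (T.lev n).K) := fun n =>
    ((T.lev n).compact.image c.emb.continuous).isClosed
  have hjC : ∀ n, ∀ y ∈ c.C, y ∉ c.j '' (T.lev n).K := by
    rintro n y hy ⟨x, -, rfl⟩
    exact hy ⟨x, rfl⟩
  obtain ⟨W, hW1, hW2⟩ := E.finite_toSet.t2_separation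
  -- the first gates
  have hg1 : ∀ y ∈ E, ∃ O ⊆ W y ∩ (c.j '' T.K)ᶜ, IsOpen O ∧ y ∈ O ∧ Jn O ∧ IsExact O F ∧
      ∀ i, Jn (O ∩ J i) := by
    intro y hy
    refine hgate y hy _ (Filter.inter_mem ((hW1 y).2.mem_nhds (hW1 y).1) ?_)
    exact (hjK 0).isOpen_compl.mem_nhds (hjC 0 y (hE y hy))
  choose! O hOW hOo hOy hOJn hOe hOJ using hg1
  have hOd : ∀ y ∈ E, ∀ y' ∈ E, ∀ z, z ∈ O y → z ∈ O y' → y = y' := by
    intro y hy y' hy' z hz hz'
    by_contra hne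
    have := hW2 (Finset.mem_coe.2 hy) (Finset.mem_coe.2 hy') hne
    exact (Set.disjoint_left.1 this) (hOW y hy hz).1 (hOW y' hy' hz').1
  have hJd' : ∀ i k z, z ∈ J i → z ∈ J k → i = k := by
    intro i k z hz hz'
    by_contra hne
    have := hJd i k hne
    exact (this ▸ (⟨hz, hz'⟩ : z ∈ J i ∩ J k) : z ∈ (∅ : Set c.Y))
  -- the first exhaustion
  let P : ι ⊕ E → Set c.Y := Sum.elim J fun y => O y
  have hPo : ∀ k, IsOpen (P k) := by
    rintro (i | y)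
    · exact hJo i
    · exact hOo y y.2
  have hCP : c.C ⊆ ⋃ k, P k := by
    intro y hy
    rcases hcov hy with h | h
    · obtain ⟨i, hi⟩ := mem_iUnion.1 h
      exact mem_iUnion.2 ⟨Sum.inl i, hi⟩
    · exact mem_iUnion.2 ⟨Sum.inr ⟨y, h⟩, hOy y h⟩
  have hPQ : (⋃ k, P k)ᶜ ⊆ Q := by
    intro y hy
    by_contra hn
    obtain ⟨i, hi⟩ := mem_iUnion.1 (hQJ hn)
    exact hy (mem_iUnion.2 ⟨Sum.inl i, hi⟩)
  obtain ⟨n, hn⟩ := NERVE.exh T c (⋃ k, P k) Q (isOpen_iUnion hPo) hCP hQ hPQ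
  have hn0 := hn n le_rfl
  have hn1 := hn (n + 1) (by omega)
  -- the compact set removed
  obtain ⟨K', hK'⟩ : ∃ K', K' = c.j '' (T.lev (n + 1)).K := ⟨_, rfl⟩
  have hK'c : IsClosed K' := by rw [hK']; exact hjK (n + 1)
  have hK'C : ∀ y ∈ c.C, y ∉ K' := by rw [hK']; exact hjC (n + 1)
  have hK'cpt : IsCompact K' := by
    rw [hK']; exact (T.lev (n + 1)).compact.image c.emb.continuous
  have hK'P : K'ᶜ ⊆ ⋃ k, P k := by
    intro y hy
    by_cases hyC : y ∈ c.C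
    · exact hCP hyC
    · obtain ⟨x, rfl⟩ : y ∈ range c.j := by
        by_contra h
        exact hyC h
      exact hn1 fun hx => hy (by rw [hK']; exact ⟨x, hx, rfl⟩)
  -- the second gates
  have hg2 : ∀ y ∈ E, ∃ O' ⊆ O y ∩ K'ᶜ, IsOpen O' ∧ y ∈ O' ∧ Jn O' ∧ IsExact O' F ∧
      ∀ i, Jn (O' ∩ J i) := by
    intro y hy
    refine hgate y hy _ (Filter.inter_mem ((hOo y hy).mem_nhds (hOy y hy)) ?_)
    exact hK'c.isOpen_compl.mem_nhds (hK'C y (hE y hy))
  choose! O' hO'O hO'o hO'y hO'Jn hO'e hO'J using hg2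
  let P' : ι ⊕ E → Set c.Y := Sum.elim (fun i => J i \ K') fun y => O' y
  have hP'o : ∀ k, IsOpen (P' k) := by
    rintro (i | y)
    · exact (hJo i).sdiff hK'c
    · exact hO'o y y.2
  have hCP' : c.C ⊆ ⋃ k, P' k := by
    intro y hy
    rcases hcov hy with h | h
    · obtain ⟨i, hi⟩ := mem_iUnion.1 h
      exact mem_iUnion.2 ⟨Sum.inl i, hi, hK'C y hy⟩
    · exact mem_iUnion.2 ⟨Sum.inr ⟨y, h⟩, hO'y y h⟩
  have hP'Q : (⋃ k, P' k)ᶜ ⊆ Q ∪ K' := by
    intro y hy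
    by_contra hn'
    rw [mem_union, not_or] at hn'
    obtain ⟨i, hi⟩ := mem_iUnion.1 (hQJ hn'.1)
    exact hy (mem_iUnion.2 ⟨Sum.inl i, hi, hn'.2⟩)
  obtain ⟨m, hm⟩ := NERVE.exh T c (⋃ k, P' k) (Q ∪ K') (isOpen_iUnion hP'o) hCP'
    (hQ.union hK'cpt) hP'Q
  refine ⟨m, ?_⟩
  suffices hmain : IsExact (⋃ k, P' k) F by
    obtain ⟨q, hq⟩ := hmain
    refine ⟨fun x => q (c.j x), fun a b p hp => ?_⟩
    exact hq _ _ (p.map c.emb.continuous) fun t => hm m le_rfl (hp t)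
  -- the graph
  let Ed : Type := {e : E × ι // (O' e.1 ∩ J e.2).Nonempty}
  have hu : ∀ e : Ed, ∃ u, u ∈ O' e.1.1 ∧ u ∈ J e.1.2 := fun e => by
    obtain ⟨u, hu⟩ := e.2
    exact ⟨u, hu.1, hu.2⟩
  choose u hu1 hu2 using hu
  have hO'K : ∀ y ∈ E, ∀ z ∈ O' y, z ∉ K' := fun y hy z hz => (hO'O y hy hz).2
  have huK : ∀ e : Ed, u e ∈ J e.1.2 \ K' := fun e =>
    ⟨hu2 e, hO'K _ e.1.1.2 _ (hu1 e)⟩
  let comp : ι → c.Y → Set c.Y := fun i x => {x' | JoinedIn (J i \ K') x x'}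
  have hcomp : ∀ i x y, JoinedIn (J i \ K') x y → comp i x = comp i y := by
    intro i x y hxy
    ext z
    exact ⟨fun h => hxy.symm.trans h, fun h => hxy.trans h⟩
  have hcomp' : ∀ i i' x y, x ∈ J i \ K' → y ∈ J i' \ K' → comp i x = comp i' y →
      i = i' ∧ JoinedIn (J i \ K') x y := by
    intro i i' x y hx hy hxy
    have h5 : y ∈ comp i x := by
      rw [hxy]
      exact JoinedIn.refl hy
    have h6 : JoinedIn (J i \ K') x y := h5
    have h7 : y ∈ J i := h6.mem.2.1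
    exact ⟨hJd' i i' y h7 hy.1, h6⟩
  let s : Ed → E ⊕ Set c.Y := fun e => Sum.inl e.1.1
  let tt : Ed → E ⊕ Set c.Y := fun e => Sum.inr (comp e.1.2 (u e))
  have hreal : ∀ r : Ed → ℝ, ∃ θ : E ⊕ Set c.Y → ℝ, ∀ e, r e = θ (tt e) - θ (s e) := by
    intro r
    let φ : ι ⊕ E → c.Y → Multiplicative ℝ := Sum.elim (fun _ _ => 1) fun y z =>
      if hz : ∃ e : Ed, e.1.1 = y ∧ z ∈ J e.1.2 then Multiplicative.ofAdd (r hz.choose) else 1
    have hφ : ∀ (y : E) (i : ι), ∃ v, ∀ z ∈ J i, φ (Sum.inr y) z = v := by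
      intro y i
      by_cases hyi : (O' y ∩ J i).Nonempty
      · refine ⟨Multiplicative.ofAdd (r ⟨(y, i), hyi⟩), fun z hz => ?_⟩
        have h5 : ∃ e : Ed, e.1.1 = y ∧ z ∈ J e.1.2 := ⟨⟨(y, i), hyi⟩, rfl, hz⟩
        show (if hz : ∃ e : Ed, e.1.1 = y ∧ z ∈ J e.1.2 then
          Multiplicative.ofAdd (r hz.choose) else 1) = _
        rw [dif_pos h5]
        have h6 := h5.choose_spec
        have h7 : h5.choose = (⟨(y, i), hyi⟩ : Ed) := by
          apply Subtype.ext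
          exact Prod.ext h6.1 (hJd' _ _ z h6.2 hz)
        rw [h7]
      · refine ⟨1, fun z hz => ?_⟩
        show (if hz : ∃ e : Ed, e.1.1 = y ∧ z ∈ J e.1.2 then
          Multiplicative.ofAdd (r hz.choose) else 1) = _
        rw [dif_neg]
        rintro ⟨e, he1, he2⟩
        have h6 := hJd' _ _ z he2 hz
        apply hyi
        have h7 := e.2
        rw [he1, h6] at h7
        exact h7
    have hφe : ∀ (e : Ed) (z : c.Y), z ∈ J e.1.2 →
        φ (Sum.inr e.1.1) z = Multiplicative.ofAdd (r e) := by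
      intro e z hz
      have h5 : ∃ e' : Ed, e'.1.1 = e.1.1 ∧ z ∈ J e'.1.2 := ⟨e, rfl, hz⟩
      show (if hz : ∃ e' : Ed, e'.1.1 = e.1.1 ∧ z ∈ J e'.1.2 then
        Multiplicative.ofAdd (r hz.choose) else 1) = _
      rw [dif_pos h5]
      have h6 := h5.choose_spec
      have h7 : h5.choose = e := by
        apply Subtype.ext
        exact Prod.ext h6.1 (hJd' _ _ z h6.2 hz)
      rw [h7]
    obtain ⟨A, hA, hAv⟩ := pPot (pGL pSq) c.Y (Multiplicative ℝ) (ι ⊕ E) P φ hPo (by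
      rintro (i | y) (k | y') x ⟨hx1, hx2⟩
      · exact Filter.Eventually.of_forall fun z => rfl
      · obtain ⟨v, hv⟩ := hφ y' i
        filter_upwards [(hJo i).mem_nhds hx1] with z hz
        rw [hv z hz, hv x hx1]
        rfl
      · obtain ⟨v, hv⟩ := hφ y k
        filter_upwards [(hJo k).mem_nhds hx2] with z hz
        rw [hv z hz, hv x hx2]
        rfl
      · have hyy : y = y' := Subtype.ext (hOd y y.2 y' y'.2 x hx1 hx2)
        subst hyy
        refine Filter.Eventually.of_forall fun z => ?_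
        rw [mul_inv_cancel, mul_inv_cancel])
    -- `A` is exact off `K'`
    have hA1 : IsPF (T.lev n).Kᶜ (pull ⟨c.j, c.emb.continuous⟩ A) :=
      (hA.pull ⟨c.j, c.emb.continuous⟩).mono hn0
    have hA2 : IsExact (T.lev (n + 1)).Kᶜ (pull ⟨c.j, c.emb.continuous⟩ A) :=
      h3 X (T.lev n) _ hA1
    have hA3 : IsExact (K'ᶜ \ c.C) A := by
      refine (NERVE.push c.emb hA2).mono ?_
      rintro y ⟨hy1, hy2⟩
      obtain ⟨x, rfl⟩ : y ∈ range c.j := by
        by_contra h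
        exact hy2 h
      exact ⟨x, fun hx => hy1 (by rw [hK']; exact ⟨x, hx, rfl⟩), rfl⟩
    obtain ⟨ψ, hψ⟩ := h2 c.Y (Multiplicative ℝ) K'ᶜ c.C A hthin hK'c.isOpen_compl
      (hA.mono hK'P) hA3
    -- `ψ` is constant on the components
    have hψc : ∀ e e' : Ed, comp e.1.2 (u e) = comp e'.1.2 (u e') → ψ (u e) = ψ (u e') := by
      intro e e' hee
      obtain ⟨-, γ, hγ⟩ := hcomp' _ _ _ _ (huK e) (huK e') hee
      have h5 := hψ _ _ γ fun t => (hγ t).2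
      have h6 := hAv (Sum.inl e.1.2) _ _ γ fun t => (hγ t).1
      have h7 : (φ (Sum.inl e.1.2) (u e))⁻¹ * φ (Sum.inl e.1.2) (u e') = 1 := by
        show (1 : Multiplicative ℝ)⁻¹ * 1 = 1
        rw [inv_one, one_mul]
      rw [h6, h7] at h5
      exact (inv_mul_eq_one.1 h5.symm)
    refine ⟨Sum.elim (fun y => Multiplicative.toAdd (ψ y * (φ (Sum.inr y) y)⁻¹)) fun S =>
      if hS : ∃ e : Ed, comp e.1.2 (u e) = S then Multiplicative.toAdd (ψ (u hS.choose)) else 0,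
      fun e => ?_⟩
    have h5 : ∃ e' : Ed, comp e'.1.2 (u e') = comp e.1.2 (u e) := ⟨e, rfl⟩
    show r e = (if hS : ∃ e' : Ed, comp e'.1.2 (u e') = comp e.1.2 (u e) then
      Multiplicative.toAdd (ψ (u hS.choose)) else 0) -
        Multiplicative.toAdd (ψ (e.1.1 : c.Y) * (φ (Sum.inr e.1.1) (e.1.1 : c.Y))⁻¹)
    rw [dif_pos h5, hψc _ _ h5.choose_spec]
    obtain ⟨γ, hγ⟩ := hO'Jn _ e.1.1.2 _ (hO'y _ e.1.1.2) _ (hu1 e)
    have h6 := hψ _ _ γ fun t => hO'K _ e.1.1.2 _ (hγ t)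
    have h7 := hAv (Sum.inr e.1.1) _ _ γ fun t => (hO'O _ e.1.1.2 (hγ t)).1
    rw [hφe e _ (hu2 e)] at h7
    rw [h7] at h6
    have h8 := congrArg Multiplicative.toAdd h6
    simp only [toAdd_mul, toAdd_inv, toAdd_ofAdd] at h8 ⊢
    linarith
  -- the nonabelian part
  choose pJ hpJ using hJe
  choose! pO hpO using hO'e
  have : Finite Ed := inferInstanceAs (Finite {e : E × ι // (O' e.1 ∩ J e.2).Nonempty})
  obtain ⟨θ, hθ⟩ := h4 Ed (E ⊕ Set c.Y) s tt hreal UU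
    (fun e => pO e.1.1 (u e) * (pJ e.1.2 (u e))⁻¹)
  have hθ' : ∀ e : Ed, θ (Sum.inl e.1.1) * pO e.1.1 (u e) =
      θ (Sum.inr (comp e.1.2 (u e))) * pJ e.1.2 (u e) := by
    intro e
    have h5 : pO e.1.1 (u e) * (pJ e.1.2 (u e))⁻¹ =
      (θ (Sum.inl e.1.1))⁻¹ * θ (Sum.inr (comp e.1.2 (u e))) := hθ e
    rw [mul_inv_eq_iff_eq_mul] at h5
    rw [h5]
    group
  let q : c.Y → UU := fun x =>
    if hx : ∃ i, x ∈ J i then θ (Sum.inr (comp hx.choose x)) * pJ hx.choose x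
    else if hy : ∃ y : E, x ∈ O' y then θ (Sum.inl hy.choose) * pO hy.choose x else 1
  have hqJ : ∀ i, ∀ x ∈ J i, q x = θ (Sum.inr (comp i x)) * pJ i x := by
    intro i x hx
    have h5 : ∃ i, x ∈ J i := ⟨i, hx⟩
    have h6 : h5.choose = i := hJd' _ _ x h5.choose_spec hx
    show (if hx : ∃ i, x ∈ J i then θ (Sum.inr (comp hx.choose x)) * pJ hx.choose x
      else _) = _
    rw [dif_pos h5, h6]
  have hqO : ∀ y : E, ∀ x ∈ O' y, q x = θ (Sum.inl y) * pO y x := by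
    intro y x hx
    by_cases h5 : ∃ i, x ∈ J i
    · obtain ⟨i, hi⟩ := h5
      rw [hqJ i x hi]
      have hyi : (O' y ∩ J i).Nonempty := ⟨x, hx, hi⟩
      obtain ⟨γ, hγ⟩ := hO'J y y.2 i (u ⟨(y, i), hyi⟩) ⟨hu1 ⟨(y, i), hyi⟩, hu2 ⟨(y, i), hyi⟩⟩
        x ⟨hx, hi⟩
      have h6 : comp i (u ⟨(y, i), hyi⟩) = comp i x :=
        hcomp i _ _ ⟨γ, fun t => ⟨(hγ t).2, hO'K y y.2 _ (hγ t).1⟩⟩
      have h7 := hθ' ⟨(y, i), hyi⟩
      have h8 := hpO y y.2 _ _ γ fun t => (hγ t).1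
      have h9 := hpJ i _ _ γ fun t => (hγ t).2
      rw [h8] at h9
      -- `(pO u)⁻¹ * pO x = (pJ u)⁻¹ * pJ x`
      have h10 : pO y x = pO y (u ⟨(y, i), hyi⟩) * ((pJ i (u ⟨(y, i), hyi⟩))⁻¹ * pJ i x) := by
        rw [← h9]
        group
      have h11 : θ (Sum.inl y) * pO y (u ⟨(y, i), hyi⟩) =
        θ (Sum.inr (comp i (u ⟨(y, i), hyi⟩))) * pJ i (u ⟨(y, i), hyi⟩) := h7
      rw [h10, ← mul_assoc, h11, h6]
      group
    · have h6 : ∃ y : E, x ∈ O' y := ⟨y, hx⟩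
      have h7 : h6.choose = y := Subtype.ext (hOd _ h6.choose.2 _ y.2 x
        (hO'O _ h6.choose.2 h6.choose_spec).1 (hO'O _ y.2 hx).1)
      show (if hx : ∃ i, x ∈ J i then θ (Sum.inr (comp hx.choose x)) * pJ hx.choose x
        else if hy : ∃ y : E, x ∈ O' y then θ (Sum.inl hy.choose) * pO hy.choose x else 1) = _
      rw [dif_neg h5, dif_pos h6, h7]
  have hPF : IsPF (⋃ k, P' k) F := by
    refine hF.mono (iUnion_subset ?_)
    rintro (i | y)
    · exact sdiff_subset.trans (hJK i)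
    · intro z hz
      exact (hOW y y.2 (hO'O y y.2 hz).1).2
  refine NERVE.glue hPF hP'o subset_rfl q ?_
  rintro (i | y) a b p hp
  · have hp' : ∀ t, p t ∈ J i \ K' := hp
    have ha : a ∈ J i := by have := (hp' 0).1; rwa [p.source] at this
    have hb : b ∈ J i := by have := (hp' 1).1; rwa [p.target] at this
    rw [hqJ i a ha, hqJ i b hb, hcomp i a b ⟨p, hp'⟩, hpJ i a b p fun t => (hp' t).1]
    group
  · have hp' : ∀ t, p t ∈ O' y := hp
    have ha : a ∈ O' y := by have := hp' 0; rwa [p.source] at this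
    have hb : b ∈ O' y := by have := hp' 1; rwa [p.target] at this
    rw [hqO y a ha, hqO y b hb, hpO y y.2 a b p hp']
    group

end CM.LB
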