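import Pool.Agent.Helper37.LB.St

/-!
Project LB (MP_e9500f_gt): module NJ, preimages which are not joined.
-/

set_option autoImplicit false

namespace CM.LB

open Set Topology unitInterval

namespace NJ

theorem lpc {Y : Type} [TopologicalSpace Y]
    (h : ∀ y : Y, ∀ W ∈ 𝓝 y, ∃ V ⊆ W, IsOpen V ∧ y ∈ V ∧ Jn V) : LocallyPathConnectedSpace Y := by
  refine ⟨fun x => ?_⟩
  refine ⟨fun t => ⟨fun ht => ?_, ?_⟩⟩
  · obtain ⟨V, hVt, hVo, hxV, hJ⟩ := h x t ht
    exact ⟨V, ⟨hVo.mem_nhds hxV, isPathConnected_iff.mpr ⟨⟨x, hxV⟩, hJ⟩⟩, hVt⟩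
  · rintro ⟨V, ⟨hV, -⟩, hVt⟩
    exact Filter.mem_of_superset hV hVt

end NJ

open NJ in
theorem lbNJ (h : LbTrf) : LbNJ := by
  intro Y Γ _ _ _ f τ V hloc hf hVo hVJ hE hnJ F hF
  have : LocallyPathConnectedSpace Y := lpc hloc
  set U : Set Y := f ⁻¹' V with hU
  have hUo : IsOpen U := hVo.preimage hf.cont
  -- every path component maps onto `V`
  have key : ∀ x ∈ U, V ⊆ f '' pathComponentIn U x := by
    intro x hx
    have hWo : IsOpen (pathComponentIn U x) := hUo.pathComponentIn x
    have hxW : x ∈ pathComponentIn U x := JoinedIn.refl hx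
    have hVne : V.Nonempty := ⟨f x, hx⟩
    have hpre : IsPreconnected V :=
      (isPathConnected_iff.mpr ⟨hVne, hVJ⟩).isConnected.isPreconnected
    refine hpre.subset_of_closure_inter_subset (hf.opn _ hWo) ⟨f x, hx, mem_image_of_mem f hxW⟩ ?_
    rintro y ⟨hy, hyV⟩
    have hcl : closure (f '' pathComponentIn U x) ⊆ f '' closure (pathComponentIn U x) :=
      closure_minimal (image_mono subset_closure) (hf.proper.isClosedMap _ isClosed_closure)
    obtain ⟨x', hx', rfl⟩ := hcl hy
    have hx'U : x' ∈ U := hyV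
    obtain ⟨w, hw1, hw2⟩ := mem_closure_iff.mp hx' _ (hUo.pathComponentIn x')
      (JoinedIn.refl hx'U)
    exact ⟨x', JoinedIn.trans hw2 (JoinedIn.symm hw1), rfl⟩
  -- two points which are not joined
  have hne : ∃ x ∈ U, ∃ x' ∈ U, ¬ JoinedIn U x x' := by
    by_contra hcon
    push Not at hcon
    exact hnJ hcon
  obtain ⟨x, hx, x', hx', hxx⟩ := hne
  -- a path component other than a given one is exact
  have main : ∀ x ∈ U, ∀ x' ∈ U, ¬ JoinedIn U x x' → PFE Γ (pathComponentIn U x) ∧
      ∀ z ∈ U, z ∈ pathComponentIn U x ∨ z ∈ pathComponentIn U x' := by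
    intro x hx x' hx' hxx
    have hdis : ∀ z, z ∈ pathComponentIn U x → z ∈ pathComponentIn U x' → False := by
      intro z hz hz'
      exact hxx (JoinedIn.trans hz (JoinedIn.symm hz'))
    have hfib : ∀ z ∈ U, ∃ a ∈ pathComponentIn U x, ∃ a' ∈ pathComponentIn U x', f a = f z ∧
        f a' = f z ∧ ∀ w, f w = f z → w = a ∨ w = a' := by
      intro z hz
      obtain ⟨a, ha, haz⟩ := key x hx hz
      obtain ⟨a', ha', haz'⟩ := key x' hx' hz
      refine ⟨a, ha, a', ha', haz, haz', fun w hw => ?_⟩
      have h1 : a' = τ a := by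
        rcases (hf.fib a a').mp (haz.trans haz'.symm) with h1 | h1
        · subst h1
          exact (hdis _ ha ha').elim
        · exact h1
      rcases (hf.fib a w).mp (haz.trans hw.symm) with h2 | h2
      · exact Or.inl h2
      · exact Or.inr (h2.trans h1.symm)
    refine ⟨?_, ?_⟩
    · -- transport
      have hsec : ∀ v : E3, ∃ s : Y, v ∈ V → s ∈ pathComponentIn U x ∧ f s = v := by
        intro v
        by_cases hv : v ∈ V
        · obtain ⟨a, ha, hav⟩ := key x hx hv
          exact ⟨a, fun _ => ⟨ha, hav⟩⟩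
        · exact ⟨x, fun h' => (hv h').elim⟩
      choose s hs using hsec
      have hinj : ∀ z ∈ pathComponentIn U x, ∀ z' ∈ pathComponentIn U x, f z = f z' → z = z' := by
        intro z hz z' hz' hzz
        obtain ⟨a, ha, a', ha', -, -, hall⟩ := hfib z (pathComponentIn_subset hz)
        have e1 : z = a := by
          rcases hall z rfl with h1 | h1
          · exact h1
          · subst h1
            exact (hdis _ hz ha').elim
        have e2 : z' = a := by
          rcases hall z' hzz.symm with h1 | h1
          · exact h1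
          · subst h1
            exact (hdis _ hz' ha').elim
        rw [e1, e2]
      have hmap : ∀ z ∈ pathComponentIn U x, f z ∈ V := by
        intro z hz
        have h1 : z ∈ U := pathComponentIn_subset hz
        exact h1
      have hscont : ContinuousOn s V := by
        intro v hv
        have hsv := hs v hv
        rw [ContinuousWithinAt, Filter.tendsto_def]
        intro N hN
        -- open neighbourhood
        obtain ⟨N', hN'N, hN'o, hsN'⟩ := mem_nhds_iff.mp hN
        have hO : IsOpen (N' ∩ pathComponentIn U x) := hN'o.inter (hUo.pathComponentIn x)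
        have hI : f '' (N' ∩ pathComponentIn U x) ∈ 𝓝 v :=
          (hf.opn _ hO).mem_nhds ⟨s v, ⟨hsN', hsv.1⟩, hsv.2⟩
        refine Filter.mem_of_superset (Filter.inter_mem (mem_nhdsWithin_of_mem_nhds hI)
          self_mem_nhdsWithin) ?_
        rintro w ⟨⟨z, ⟨hzN, hzW⟩, rfl⟩, hwV⟩
        have h1 := hs (f z) hwV
        have h2 : s (f z) = z := hinj _ h1.1 _ hzW h1.2
        show s (f z) ∈ N
        rw [h2]
        exact hN'N hzN
      obtain ⟨-, -, h3⟩ := h Y E3 Γ (pathComponentIn U x) V f s hf.cont.continuousOn hscont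
        (fun z hz => ⟨hmap z hz, hinj _ (hs _ (hmap z hz)).1 _ hz (hs _ (hmap z hz)).2⟩)
        (fun v hv => hs v hv)
      exact h3 hE
    · intro z hz
      obtain ⟨a, ha, a', ha', -, -, hall⟩ := hfib z hz
      rcases hall z rfl with h1 | h1
      · subst h1
        exact Or.inl ha
      · subst h1
        exact Or.inr ha'
  obtain ⟨hE1, hcov⟩ := main x hx x' hx' hxx
  obtain ⟨hE2, -⟩ := main x' hx' x hx (fun hj => hxx hj.symm)
  obtain ⟨g, hg⟩ := hE1 F (hF.mono pathComponentIn_subset)
  obtain ⟨g', hg'⟩ := hE2 F (hF.mono pathComponentIn_subset)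
  have hstay : ∀ (x₀ a b : Y) (p : Path a b), (∀ t, p t ∈ U) → a ∈ pathComponentIn U x₀ →
      ∀ t, p t ∈ pathComponentIn U x₀ := by
    intro x₀ a b p hp ha t
    have h1 : JoinedIn U a (p t) := by
      have h2 : JoinedIn U (p 0) (p t) := by
        refine ⟨(p.truncateOfLE t.2.1).cast ?_ ?_, fun s => ?_⟩
        · simp
        · simp
        · show (p.truncateOfLE t.2.1) s ∈ U
          exact hp _
      simpa using h2
    exact JoinedIn.trans ha h1
  classical
  refine ⟨fun z => if z ∈ pathComponentIn U x then g z else g' z, fun a b p hp => ?_⟩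
  have ha : a ∈ U := by have := hp 0; simpa using this
  by_cases haW : a ∈ pathComponentIn U x
  · have hb : b ∈ pathComponentIn U x := by
      have := hstay x a b p hp haW 1
      simpa using this
    beta_reduce
    rw [if_pos haW, if_pos hb]
    exact hg a b p (hstay x a b p hp haW)
  · have haW' : a ∈ pathComponentIn U x' := (hcov a ha).resolve_left haW
    have hb' : b ∈ pathComponentIn U x' := by
      have := hstay x' a b p hp haW' 1
      simpa using this
    have hb : b ∉ pathComponentIn U x := by
      intro hb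
      exact hxx (JoinedIn.trans hb (JoinedIn.symm hb'))
    beta_reduce
    rw [if_neg haW, if_neg hb]
    exact hg' a b p (hstay x' a b p hp haW')

end CM.LB
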