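import Pool.Agent.Helper37.LB.St

/-!
Project LB, module OTH (helper4): the other point of the fibre.
-/

set_option autoImplicit false

namespace CM.LB

open Set Topology unitInterval

namespace OTH

variable {X : Type} [TopologicalSpace X] {f : X → E3} {B : Set E3}

theorem oth_pos {x : X} (h : ∃ x', x' ≠ x ∧ f x' = f x) : oth f x ≠ x ∧ f (oth f x) = f x := by
  unfold oth
  rw [dif_pos h]
  exact h.choose_spec

theorem oth_neg {x : X} (h : ¬ ∃ x', x' ≠ x ∧ f x' = f x) : oth f x = x := by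
  unfold oth
  rw [dif_neg h]

theorem f_oth (x : X) : f (oth f x) = f x := by
  by_cases h : ∃ x', x' ≠ x ∧ f x' = f x
  · exact (oth_pos h).2
  · rw [oth_neg h]

theorem eq_iff (hf : Op2 f B) (x x' : X) : f x = f x' ↔ x' = x ∨ x' = oth f x := by
  constructor
  · intro h
    by_cases hx : x' = x
    · exact Or.inl hx
    · right
      have h1 := oth_pos (f := f) ⟨x', hx, h.symm⟩
      rcases hf.fib x x' (oth f x) h (h.symm.trans h1.2.symm) with h2 | h2 | h2
      · exact absurd h2.symm hx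
      · exact h2
      · exact absurd h2.symm h1.1
  · rintro (rfl | rfl)
    · rfl
    · exact (f_oth x).symm

theorem oth_oth (hf : Op2 f B) (x : X) : oth f (oth f x) = x := by
  by_cases hx : oth f x = x
  · rw [hx, hx]
  · have h1 := oth_pos (f := f) (x := oth f x) ⟨x, fun h => hx h.symm, (f_oth x).symm⟩
    have h2 : f x = f (oth f (oth f x)) := (h1.2.trans (f_oth x)).symm
    rcases (eq_iff hf x _).mp h2 with h3 | h3
    · exact h3
    · exact absurd h3 h1.1

theorem cont_ne [T2Space X] (hf : Op2 f B) {x : X} (hx : oth f x ≠ x) :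
    ContinuousAt (oth f) x := by
  intro W hW
  obtain ⟨W', hW'W, hW'o, hxW'⟩ := mem_nhds_iff.mp hW
  obtain ⟨U', U, hU', hU, hxU', hxU, hd⟩ := t2_separation hx
  have h1 : IsOpen (f '' (W' ∩ U')) := hf.opn _ (hW'o.inter hU')
  have h2 : f x ∈ f '' (W' ∩ U') := ⟨oth f x, ⟨hxW', hxU'⟩, f_oth x⟩
  have h3 : f ⁻¹' (f '' (W' ∩ U')) ∩ U ∈ 𝓝 x :=
    Filter.inter_mem (hf.cont.continuousAt.preimage_mem_nhds (h1.mem_nhds h2)) (hU.mem_nhds hxU)
  rw [Filter.mem_map]
  filter_upwards [h3] with z hz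
  obtain ⟨⟨w, hw, hwz⟩, hzU⟩ := hz
  have hne : w ≠ z := by
    rintro rfl
    exact Set.disjoint_left.mp hd hw.2 hzU
  rcases (eq_iff hf z w).mp hwz.symm with h4 | h4
  · exact absurd h4 hne
  · show oth f z ∈ W
    rw [← h4]
    exact hW'W hw.1

theorem cont_eq (hf : Op2 f B) {x : X} (hx : oth f x = x) (hp : f x ∈ Prp f) :
    ContinuousAt (oth f) x := by
  intro W hW
  rw [hx] at hW
  obtain ⟨W', hW'W, hW'o, hxW'⟩ := mem_nhds_iff.mp hW
  obtain ⟨V, hV, K, hK, hVK⟩ := hp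
  have h1 : IsCompact (f '' (K \ W')) := (hK.diff hW'o).image hf.cont
  have h2 : f x ∉ f '' (K \ W') := by
    rintro ⟨k, hk, hkx⟩
    rcases (eq_iff hf x k).mp hkx.symm with h3 | h3
    · exact hk.2 (h3 ▸ hxW')
    · rw [hx] at h3
      exact hk.2 (h3 ▸ hxW')
  have h3 : V ∩ (f '' (K \ W'))ᶜ ∈ 𝓝 (f x) :=
    Filter.inter_mem hV (h1.isClosed.isOpen_compl.mem_nhds h2)
  rw [Filter.mem_map]
  filter_upwards [hf.cont.continuousAt.preimage_mem_nhds h3] with z hz
  show oth f z ∈ W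
  have h5 : f (oth f z) = f z := f_oth z
  have h4 : oth f z ∈ K := hVK (by show f (oth f z) ∈ V; rw [h5]; exact hz.1)
  by_contra hc
  exact hz.2 ⟨oth f z, ⟨h4, fun h => hc (hW'W h)⟩, f_oth z⟩

end OTH

theorem lbOth (h : LbPrp) : LbOth := by
  intro X _ _ _ f B hf
  obtain ⟨_, h2, _⟩ := h X f B hf
  refine ⟨OTH.f_oth, OTH.oth_oth hf, OTH.eq_iff hf, ?_, ?_⟩
  · intro x hx
    apply ContinuousAt.continuousWithinAt
    by_cases hx' : oth f x = x
    · exact OTH.cont_eq hf hx' hx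
    · exact OTH.cont_ne hf hx'
  · intro x hx
    by_contra hne
    exact hx (h2 x (oth f x) (OTH.f_oth x).symm (fun h => hne h.symm))

end CM.LB
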