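import Pool.Agent.Helper37.LB.St

/-!
Project LB, module PHIH: the functor of a tower extends to the completion.
-/

set_option autoImplicit false

namespace CM.LB

open Set Topology unitInterval

theorem lbPhiH (h1 : LbPush) (h2 : LbNear) (h3 : LbThin) (h4 : LbExtZ) : LbPhiH := by
  intro X _ _ _ hloc T f B hf c
  obtain ⟨F, hF, hL⟩ := h1 X c.Y F2 c.j c.emb T.Kᶜ T.Φ T.Φ_pf
  have hinj : Function.Injective c.j := c.emb.injective
  have hS : IsOpen (c.j '' T.K)ᶜ :=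
    (T.compact.image c.emb.continuous).isClosed.isOpen_compl
  have heq : (c.j '' T.K)ᶜ \ c.C = c.j '' T.Kᶜ := by
    ext y
    constructor
    · rintro ⟨hy, hyC⟩
      have hyr : y ∈ range c.j := by
        by_contra hn
        exact hyC hn
      obtain ⟨x, rfl⟩ := hyr
      exact ⟨x, fun hx => hy ⟨x, hx, rfl⟩, rfl⟩
    · rintro ⟨x, hx, rfl⟩
      refine ⟨?_, fun hC => hC ⟨x, rfl⟩⟩
      rintro ⟨x', hx', hxx⟩
      exact hx (hinj hxx ▸ hx')
  have hF' : IsPF ((c.j '' T.K)ᶜ \ c.C) F := by rw [heq]; exact hF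
  obtain ⟨F', hF1, hF2⟩ := h4 c.Y F2 (c.j '' T.K)ᶜ c.C F (h3 X hloc f B hf c) hS hF' (by
    rintro y ⟨hyS, hyC⟩
    obtain ⟨N, hN1, hN2, hN3, hN4⟩ := h2 X T f B hf c F hF hL y hyC
    exact ⟨N, hN1, hN2, hN3, hN4⟩)
  refine ⟨F', hF1, ?_⟩
  intro a b p hp
  rw [hF2 _ _ (p.map c.emb.continuous) (by
    intro t
    rw [heq]
    exact ⟨p t, hp t, rfl⟩)]
  exact hL a b p hp

end CM.LB
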