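import Pool.Agent.Helper37.LB.St

set_option autoImplicit false

namespace CM.LB

open Set Topology unitInterval

namespace PRP

theorem two_mem {X : Type} [TopologicalSpace X] [T2Space X] [LocallyCompactSpace X]
    {f : X → E3} {B : Set E3} (h : Op2 f B) (x₁ x₂ : X) (he : f x₁ = f x₂) (hne : x₁ ≠ x₂) :
    f x₁ ∈ Prp f := by
  obtain ⟨U₁, U₂, hU₁, hU₂, m₁, m₂, hd⟩ := t2_separation hne
  obtain ⟨N₁, hN₁, s₁, c₁⟩ := local_compact_nhds (hU₁.mem_nhds m₁)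
  obtain ⟨N₂, hN₂, s₂, c₂⟩ := local_compact_nhds (hU₂.mem_nhds m₂)
  refine ⟨f '' N₁ ∩ f '' N₂, Filter.inter_mem (h.opn.image_mem_nhds hN₁) ?_, N₁ ∪ N₂,
    c₁.union c₂, ?_⟩
  · rw [he]
    exact h.opn.image_mem_nhds hN₂
  · rintro z ⟨⟨z₁, hz₁, e₁⟩, ⟨z₂, hz₂, e₂⟩⟩
    have hz : z₁ ≠ z₂ := by
      rintro rfl
      exact Set.disjoint_left.1 hd (s₁ hz₁) (s₂ hz₂)
    rcases h.fib z₁ z₂ z (e₁.trans e₂.symm) e₂ with h1 | h1 | h1
    · exact absurd h1 hz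
    · right; rw [← h1]; exact hz₂
    · left; rw [← h1]; exact hz₁

end PRP

theorem lbPrp : LbPrp := by
  intro X _ _ _ f B h
  refine ⟨?_, fun x₁ x₂ he hne => PRP.two_mem h x₁ x₂ he hne, ?_⟩
  · rw [isOpen_iff_mem_nhds]
    rintro y ⟨V, hV, K, hK, hs⟩
    refine Filter.mem_of_superset (interior_mem_nhds.2 hV) ?_
    intro y' hy'
    exact ⟨V, mem_interior_iff_mem_nhds.1 hy', K, hK, hs⟩
  · intro y hy
    by_contra hB
    obtain ⟨x₁, x₂, hne, hf⟩ := Set.ncard_eq_two.1 (h.two y hB)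
    have h1 : f x₁ = y := by
      have : x₁ ∈ f ⁻¹' {y} := by rw [hf]; simp
      simpa using this
    have h2 : f x₂ = y := by
      have : x₂ ∈ f ⁻¹' {y} := by rw [hf]; simp
      simpa using this
    exact hy (h1 ▸ PRP.two_mem h x₁ x₂ (h1.trans h2.symm) hne)

end CM.LB
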