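import Pool.Agent.Helper37.LB.St
import Pool.Agent.Helper59.CM.M_BALL

/-!
Project LB, module QUOT: the gluing relation is open and closed.
-/

set_option autoImplicit false

namespace CM.LB

open Set Topology unitInterval

namespace QUOT

/-- the complement of `B` is dense -/
theorem dense_compl {B : Set E3} (hB : Seg B) {G : Set E3} (hG : IsOpen G) {v : E3} (hv : v ∈ G) :
    ∃ v' ∈ G, v' ∉ B := by
  obtain ⟨r, hr, hrG⟩ := Metric.isOpen_iff.mp hG v hv
  obtain ⟨L, hL⟩ := hB.2 (‖v‖ + r)
  have hsub : B ∩ Metric.ball v r ⊆ ⋃ l ∈ L, segment ℝ l.1 l.2 := by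
    rintro z ⟨hz, hzr⟩
    apply hL
    refine ⟨hz, ?_⟩
    rw [mem_closedBall_zero_iff]
    rw [mem_ball_iff_norm] at hzr
    have : ‖z‖ ≤ ‖z - v‖ + ‖v‖ := by
      have := norm_add_le (z - v) v
      simpa using this
    linarith
  have h1 := (pBall B L v r hB.1 hsub).2
  have h2 : v ∈ closure (Metric.ball v r \ B) := h1 (Metric.mem_ball_self hr)
  obtain ⟨w, hw⟩ := (closure_nonempty_iff.mp ⟨v, h2⟩)
  exact ⟨w, hrG hw.1, hw.2⟩

variable {X : Type} [TopologicalSpace X] [T2Space X] [LocallyCompactSpace X]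

/-- over a point of `Prp f` with one preimage, `f` is not locally injective -/
theorem not_inj (h3 : LbOth) {f : X → E3} {B : Set E3} (hO : Op2 f B) {W : Set X} (hW : IsOpen W)
    (hinj : InjOn f W) {z : X} (hz : z ∈ W) (hzP : f z ∈ Prp f) : oth f z ≠ z := by
  intro hoz
  obtain ⟨_, _, hfib, _, _⟩ := h3 X f B hO
  obtain ⟨V, hV, K, hK, hVK⟩ := hzP
  obtain ⟨V', hV'V, hV'o, hzV'⟩ := mem_nhds_iff.mp hV
  have hC : IsClosed (f '' (K \ W)) := ((hK.diff hW).image hO.cont).isClosed
  have hzC : f z ∉ f '' (K \ W) := by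
    rintro ⟨k, hk, hkz⟩
    rcases (hfib z k).mp hkz.symm with h | h
    · exact hk.2 (h ▸ hz)
    · rw [hoz] at h
      exact hk.2 (h ▸ hz)
  have hG : IsOpen ((f '' (K \ W))ᶜ ∩ V' ∩ f '' W) :=
    (hC.isOpen_compl.inter hV'o).inter (hO.opn W hW)
  have hvG : f z ∈ (f '' (K \ W))ᶜ ∩ V' ∩ f '' W := ⟨⟨hzC, hzV'⟩, ⟨z, hz, rfl⟩⟩
  obtain ⟨v', ⟨⟨hv'C, hv'V⟩, w, hwW, hwv⟩, hv'B⟩ := dense_compl hO.seg hG hvG
  have h2 := hO.two v' hv'B
  obtain ⟨a, b, hab, hfab⟩ := Set.ncard_eq_two.mp h2
  have hex : ∃ w', w' ≠ w ∧ f w' = v' := by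
    have ha : f a = v' := by
      have : a ∈ f ⁻¹' {v'} := by rw [hfab]; simp
      exact this
    have hb : f b = v' := by
      have : b ∈ f ⁻¹' {v'} := by rw [hfab]; simp
      exact this
    by_cases haw : a = w
    · exact ⟨b, fun h => hab (haw.trans h.symm), hb⟩
    · exact ⟨a, haw, ha⟩
  obtain ⟨w', hw'ne, hw'⟩ := hex
  have hw'K : w' ∈ K := hVK (by
    show f w' ∈ V
    rw [hw']
    exact hV'V hv'V)
  by_cases hw'W : w' ∈ W
  · exact hw'ne (hinj hw'W hwW (hw'.trans hwv.symm))
  · exact hv'C ⟨w', ⟨hw'K, hw'W⟩, hw'⟩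

end QUOT

open QUOT

theorem lbQuot (h1 : LbPrp) (h2 : LbSheet) (h3 : LbOth) : LbQuot := by
  intro X _ _ _ f B hO
  obtain ⟨hPo, hPne, _⟩ := h1 X f B hO
  obtain ⟨hof, hoo, hfib, hoc, hon⟩ := h3 X f B hO
  -- the relation
  have hsymm : ∀ p q, gl f p q → gl f q p := by
    rintro p q (h | ⟨a, b, c, d, e⟩)
    · exact Or.inl h.symm
    · exact Or.inr ⟨fun h => a h.symm, c, b, e, d⟩
  have htrans : ∀ p q r, gl f p q → gl f q r → gl f p r := by
    rintro p q r (h | ⟨a, b, c, d, e⟩) (h' | ⟨a', b', c', d', e'⟩)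
    · exact Or.inl (h.trans h')
    · rw [h]
      exact Or.inr ⟨a', b', c', d', e'⟩
    · rw [← h']
      exact Or.inr ⟨a, b, c, d, e⟩
    · left
      apply Prod.ext
      · rw [d', d, hoo]
      · have key : ∀ x y z : Bool, x ≠ y → y ≠ z → x = z := by decide
        exact key _ _ _ a a'
  set s : Setoid (X × Bool) := ⟨gl f, ⟨fun p => Or.inl rfl, fun {p q} => hsymm p q,
    fun {p q r} => htrans p q r⟩⟩ with hs
  have hgl : ∀ p q, s p q ↔ gl f p q := fun p q => Iff.rfl
  refine ⟨s, hgl, ?_⟩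
  -- openness
  have hopen : IsOpenMap (Quotient.mk s) := by
    intro U hU
    rw [← isQuotientMap_quotient_mk'.isOpen_preimage]
    have hset : (Quotient.mk s) ⁻¹' (Quotient.mk s '' U)
        = U ∪ ({q : X × Bool | f q.1 ∈ Prp f} ∩ (fun q : X × Bool => (oth f q.1, !q.2)) ⁻¹' U) := by
      ext q
      constructor
      · rintro ⟨p, hp, hpq⟩
        have h4 : gl f p q := Quotient.exact hpq
        rcases h4 with h | ⟨a, b, c, d, e⟩
        · left
          rw [← h]
          exact hp
        · right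
          refine ⟨c, ?_⟩
          show (oth f q.1, !q.2) ∈ U
          have : (oth f q.1, !q.2) = p := by
            apply Prod.ext
            · exact e.symm
            · have key : ∀ x y : Bool, x ≠ y → (!y) = x := by decide
              exact key _ _ a
          rw [this]
          exact hp
      · rintro (h | ⟨c, h⟩)
        · exact ⟨q, h, rfl⟩
        · refine ⟨(oth f q.1, !q.2), h, ?_⟩
          apply Quotient.sound
          show gl f _ _
          right
          refine ⟨?_, ?_, c, ?_, rfl⟩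
          · show (!q.2) ≠ q.2
            have key : ∀ x : Bool, (!x) ≠ x := by decide
            exact key _
          · show f (oth f q.1) ∈ Prp f
            rw [hof]
            exact c
          · show q.1 = oth f (oth f q.1)
            rw [hoo]
    change IsOpen ((Quotient.mk s) ⁻¹' (Quotient.mk s '' U))
    rw [hset]
    apply hU.union
    have hOo : IsOpen {q : X × Bool | f q.1 ∈ Prp f} :=
      hPo.preimage (hO.cont.comp continuous_fst)
    have hcont : ContinuousOn (fun q : X × Bool => (oth f q.1, !q.2))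
        {q : X × Bool | f q.1 ∈ Prp f} := by
      apply ContinuousOn.prodMk
      · exact hoc.comp continuous_fst.continuousOn (fun q hq => hq)
      · have hnot : Continuous (fun b : Bool => !b) := continuous_of_discreteTopology
        exact (hnot.comp continuous_snd).continuousOn
    exact hcont.isOpen_inter_preimage hOo hU
  refine ⟨hopen, ?_⟩
  have hquot : IsOpenQuotientMap (Quotient.mk s) :=
    ⟨Quotient.mk_surjective, continuous_quotient_mk', hopen⟩
  rw [t2Space_iff_of_isOpenQuotientMap hquot]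
  have hset : {q : (X × Bool) × (X × Bool) | Quotient.mk s q.1 = Quotient.mk s q.2}
      = {q | q.1 = q.2} ∪
        {q | q.1.2 ≠ q.2.2 ∧ f q.1.1 ∈ Prp f ∧ q.2.1 = oth f q.1.1} := by
    ext ⟨p, q⟩
    constructor
    · intro h
      have h4 : gl f p q := Quotient.exact h
      rcases h4 with h | ⟨a, b, c, d, e⟩
      · exact Or.inl h
      · exact Or.inr ⟨a, b, d⟩
    · rintro (h | ⟨a, b, d⟩)
      · exact congrArg _ h
      · apply Quotient.sound
        show gl f p q
        change q.1 = oth f p.1 at d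
        change f p.1 ∈ Prp f at b
        refine Or.inr ⟨a, b, ?_, d, ?_⟩
        · rw [d, hof]
          exact b
        · rw [d, hoo]
  rw [hset]
  apply IsClosed.union
  · exact isClosed_eq continuous_fst continuous_snd
  · rw [← closure_subset_iff_isClosed]
    rintro ⟨p, q⟩ hpq
    rw [mem_closure_iff] at hpq
    -- second entries differ
    have hd : p.2 ≠ q.2 := by
      have ho : IsOpen {z : (X × Bool) × (X × Bool) | z.1.2 = p.2 ∧ z.2.2 = q.2} := by
        apply IsOpen.inter
        · exact (isOpen_discrete {p.2}).preimage (continuous_snd.comp continuous_fst)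
        · exact (isOpen_discrete {q.2}).preimage (continuous_snd.comp continuous_snd)
      obtain ⟨z, ⟨hz1, hz2⟩, hz3, _⟩ := hpq _ ho ⟨rfl, rfl⟩
      rw [← hz1, ← hz2]
      exact hz3
    -- same image
    have hf : f p.1 = f q.1 := by
      by_contra hne
      obtain ⟨A, A', hA, hA', hpA, hqA, hdis⟩ := t2_separation hne
      have ho : IsOpen {z : (X × Bool) × (X × Bool) | f z.1.1 ∈ A ∧ f z.2.1 ∈ A'} := by
        apply IsOpen.inter
        · exact hA.preimage (hO.cont.comp (continuous_fst.comp continuous_fst))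
        · exact hA'.preimage (hO.cont.comp (continuous_fst.comp continuous_snd))
      obtain ⟨z, ⟨hz1, hz2⟩, _, _, hz3⟩ := hpq _ ho ⟨hpA, hqA⟩
      rw [hz3, hof] at hz2
      exact Set.disjoint_left.mp hdis hz1 hz2
    by_cases hP : f p.1 ∈ Prp f
    · refine ⟨hd, hP, ?_⟩
      show q.1 = oth f p.1
      by_contra hne
      obtain ⟨A, A', hA, hA', hqA, hpA, hdis⟩ := t2_separation hne
      have hO1 : IsOpen ((f ⁻¹' Prp f) ∩ (oth f) ⁻¹' A') :=
        hoc.isOpen_inter_preimage (hPo.preimage hO.cont) hA'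
      have ho : IsOpen {z : (X × Bool) × (X × Bool) |
          z.1.1 ∈ (f ⁻¹' Prp f) ∩ (oth f) ⁻¹' A' ∧ z.2.1 ∈ A} := by
        apply IsOpen.inter
        · exact hO1.preimage (continuous_fst.comp continuous_fst)
        · exact hA.preimage (continuous_fst.comp continuous_snd)
      obtain ⟨z, ⟨hz1, hz2⟩, _, _, hz3⟩ := hpq _ ho ⟨⟨hP, hpA⟩, hqA⟩
      rw [hz3] at hz2
      exact Set.disjoint_left.mp hdis hz2 hz1.2
    · exfalso
      have hpq1 : p.1 = q.1 := by
        by_contra hne
        exact hP (hPne p.1 q.1 hf hne)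
      obtain ⟨W, _, hWo, hpW, r, hr, hinj, himg⟩ := h2 X f B hO p.1 hP univ Filter.univ_mem
      have ho : IsOpen {z : (X × Bool) × (X × Bool) | z.1.1 ∈ W ∧ z.2.1 ∈ W} := by
        apply IsOpen.inter
        · exact hWo.preimage (continuous_fst.comp continuous_fst)
        · exact hWo.preimage (continuous_fst.comp continuous_snd)
      obtain ⟨z, ⟨hz1, hz2⟩, _, hzP, hz3⟩ := hpq _ ho ⟨hpW, hpq1 ▸ hpW⟩
      have hfix : oth f z.1.1 = z.1.1 := by
        rw [hz3] at hz2
        exact hinj hz2 hz1 (hof _)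
      exact not_inj h3 hO hWo hinj hz1 hzP hfix

end CM.LB
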