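import Pool.Agent.Helper37.LB.St
import Pool.Agent.Helper59.CM.M_AG

set_option autoImplicit false

namespace CM.LB

open Set Topology unitInterval

namespace REM2

variable {Y Γ : Type} [TopologicalSpace Y] [Group Γ]

/-- potentials of `F`, `F'` on `V` and the constant -/
structure Good (Z : Set Y) (F F' : PFun Y Γ) (g : Y → Γ) (V : Set Y) (q₁ q₂ : Y → Γ) (c : Γ) :
    Prop where
  p1 : ∀ (a b : Y) (p : Path a b), (∀ t, p t ∈ V) → F a b p = (q₁ a)⁻¹ * q₁ b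
  p2 : ∀ (a b : Y) (p : Path a b), (∀ t, p t ∈ V) → F' a b p = (q₂ a)⁻¹ * q₂ b
  cc : ∀ b ∈ V \ Z, c = q₁ b * g b * (q₂ b)⁻¹

theorem ex {S Z : Set Y} {F F' : PFun Y Γ} {g : Y → Γ} (hT : Thin Z) (hS : IsOpen S)
    (hF : IsPF S F) (hF' : IsPF S F')
    (hg : ∀ (a b : Y) (p : Path a b), (∀ t, p t ∈ S \ Z) → F' a b p = (g a)⁻¹ * F a b p * g b)
    (x : Y) (hx : x ∈ S) : ∃ V : Set Y, IsOpen V ∧ x ∈ V ∧ ∃ (q₁ q₂ : Y → Γ) (c : Γ),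
      Good Z F F' g V q₁ q₂ c := by
  obtain ⟨V, hVS, hVo, hxV, -, hJ, ⟨u, hu⟩, hE⟩ := hT.2 x S (hS.mem_nhds hx)
  obtain ⟨q₁, h₁⟩ := hE Γ F (hF.mono hVS)
  obtain ⟨q₂, h₂⟩ := hE Γ F' (hF'.mono hVS)
  refine ⟨V, hVo, hxV, q₁, q₂, q₁ u * g u * (q₂ u)⁻¹, h₁, h₂, ?_⟩
  intro b hb
  obtain ⟨p, hp⟩ := hJ u hu b hb
  have e1 := h₁ u b p fun t => (hp t).1
  have e2 := h₂ u b p fun t => (hp t).1
  have e3 := hg u b p fun t => ⟨hVS (hp t).1, (hp t).2⟩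
  rw [e1, e2] at e3
  have e4 : q₂ b = q₂ u * ((g u)⁻¹ * ((q₁ u)⁻¹ * q₁ b) * g b) := by rw [← e3]; group
  rw [e4]
  group

theorem val {Z : Set Y} {F F' : PFun Y Γ} {g : Y → Γ} {V : Set Y} {q₁ q₂ : Y → Γ} {c : Γ}
    (h : Good Z F F' g V q₁ q₂ c) {a u : Y} (p : Path a u) (hp : ∀ t, p t ∈ V) (hu : u ∉ Z) :
    (q₁ a)⁻¹ * c * q₂ a = F a u p * g u * (F' a u p)⁻¹ := by
  have huV : u ∈ V := by simpa using hp 1
  rw [h.p1 a u p hp, h.p2 a u p hp, h.cc u ⟨huV, hu⟩]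
  group

theorem uniq {Z : Set Y} {F F' : PFun Y Γ} {g : Y → Γ} (hT : Thin Z) {V V' : Set Y}
    {q₁ q₂ q₁' q₂' : Y → Γ} {c c' : Γ} (hV : IsOpen V) (hV' : IsOpen V')
    (h : Good Z F F' g V q₁ q₂ c) (h' : Good Z F F' g V' q₁' q₂' c') {a : Y} (ha : a ∈ V)
    (ha' : a ∈ V') : (q₁ a)⁻¹ * c * q₂ a = (q₁' a)⁻¹ * c' * q₂' a := by
  obtain ⟨W, hW, hWo, haW, hJ, -, ⟨u, hu⟩, -⟩ := hT.2 a (V ∩ V') ((hV.inter hV').mem_nhds ⟨ha, ha'⟩)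
  obtain ⟨p, hp⟩ := hJ a haW u hu.1
  rw [val h p (fun t => (hW (hp t)).1) hu.2, val h' p (fun t => (hW (hp t)).2) hu.2]

end REM2

theorem lbRem2 : LbRem2 := by
  intro Y Γ _ _ S Z F F' g hT hS hF hF' hg
  choose V hVo hxV q₁ q₂ c hG using fun x : S => REM2.ex hT hS hF hF' hg x.1 x.2
  classical
  let g' : Y → Γ := fun x => if hx : x ∈ S then (q₁ ⟨x, hx⟩ x)⁻¹ * c ⟨x, hx⟩ * q₂ ⟨x, hx⟩ x else 1
  have hg' : ∀ (x : S) (a : Y), a ∈ S → a ∈ V x → g' a = (q₁ x a)⁻¹ * c x * q₂ x a := by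
    intro x a haS haV
    have : g' a = (q₁ ⟨a, haS⟩ a)⁻¹ * c ⟨a, haS⟩ * q₂ ⟨a, haS⟩ a := dif_pos haS
    rw [this]
    exact REM2.uniq hT (hVo _) (hVo _) (hG _) (hG _) (hxV ⟨a, haS⟩) haV
  refine ⟨g', ?_⟩
  refine pAG Y Γ S S V F' (fun a b p => (g' a)⁻¹ * F a b p * g' b) hF' ?_ hVo ?_ ?_
  · refine ⟨fun a b p q H hH => ?_, fun a b c p q hp hq => ?_⟩
    · show (g' a)⁻¹ * F a b p * g' b = (g' a)⁻¹ * F a b q * g' b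
      rw [hF.hom a b p q H hH]
    · show (g' a)⁻¹ * F a c (p.trans q) * g' c =
        ((g' a)⁻¹ * F a b p * g' b) * ((g' b)⁻¹ * F b c q * g' c)
      rw [hF.trans a b c p q hp hq]
      group
  · intro x hx
    exact mem_iUnion.2 ⟨⟨x, hx⟩, hxV ⟨x, hx⟩⟩
  · intro x a b p hp
    have ha : a ∈ S ∩ V x := by simpa using hp 0
    have hb : b ∈ S ∩ V x := by simpa using hp 1
    show F' a b p = (g' a)⁻¹ * F a b p * g' b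
    rw [(hG x).p1 a b p fun t => (hp t).2, (hG x).p2 a b p fun t => (hp t).2,
      hg' x a ha.1 ha.2, hg' x b hb.1 hb.2]
    group

theorem lbRem (h : LbRem2) : LbRem := by
  intro Y Γ _ _ S Z F hT hS hF hE
  obtain ⟨g, hg⟩ := hE
  obtain ⟨g', hg'⟩ := h Y Γ S Z (fun _ _ _ => 1) F g hT hS
    ⟨fun _ _ _ _ _ _ => rfl, fun _ _ _ _ _ _ _ => (mul_one _).symm⟩ hF
    (fun a b p hp => by rw [hg a b p hp, mul_one])
  exact ⟨g', fun a b p hp => by rw [hg' a b p hp, mul_one]⟩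

end CM.LB
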