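import Pool.Agent.Helper37.LB.St
import Pool.Agent.Helper59.CM.M_BALL

/-!
Project LB: sheets over the points where the map is not proper.
-/

set_option autoImplicit false

namespace CM.LB

open Set Topology unitInterval

namespace SHEET

theorem jn_pre {X : Type} [TopologicalSpace X] {S : Set X} (h : Jn S) : IsPreconnected S := by
  rcases S.eq_empty_or_nonempty with h0 | ⟨x, hx⟩
  · rw [h0]; exact isPreconnected_empty
  · have : IsPathConnected S := ⟨x, hx, fun {y} hy => h x hx y hy⟩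
    exact this.isConnected.isPreconnected

/-- the ball minus `B` is joined and dense -/
theorem ball_sdiff {B : Set E3} (hB : Seg B) (c : E3) (r : ℝ) :
    Jn (Metric.ball c r \ B) ∧ Metric.ball c r ⊆ closure (Metric.ball c r \ B) := by
  obtain ⟨L, hL'⟩ := hB.2 (‖c‖ + r)
  refine pBall B L c r hB.1 ?_
  intro y hy
  apply hL'
  refine ⟨hy.1, ?_⟩
  rw [mem_closedBall_zero_iff]
  have h1 : ‖y - c‖ < r := by rw [← dist_eq_norm]; exact hy.2
  have h2 : ‖y‖ ≤ ‖y - c‖ + ‖c‖ := by simpa using norm_add_le (y - c) c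
  linarith

/-- open subsets of `E3` meet the complement of `B` -/
theorem open_meets {B : Set E3} (hB : Seg B) {O : Set E3} (hO : IsOpen O) (hne : O.Nonempty) :
    ∃ y ∈ O, y ∉ B := by
  obtain ⟨v, hv⟩ := hne
  obtain ⟨y, hy, hy2⟩ := mem_closure_iff.mp
    ((ball_sdiff hB v 1).2 (Metric.mem_ball_self one_pos)) O hO hv
  exact ⟨y, hy, hy2.2⟩

/-- two different points in a fibre over different open sets: the fibre over nearby points -/
theorem no_third {X : Type} [TopologicalSpace X] {f : X → E3} {B : Set E3} (hop : Op2 f B)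
    {O₁ O₂ O₃ : Set X} (h12 : Disjoint O₁ O₂) (h13 : Disjoint O₁ O₃) (h23 : Disjoint O₂ O₃)
    {y : E3} (h1 : y ∈ f '' O₁) (h2 : y ∈ f '' O₂) (h3 : y ∈ f '' O₃) : False := by
  obtain ⟨z₁, hz₁, e₁⟩ := h1
  obtain ⟨z₂, hz₂, e₂⟩ := h2
  obtain ⟨z₃, hz₃, e₃⟩ := h3
  rcases hop.fib z₁ z₂ z₃ (e₁.trans e₂.symm) (e₂.trans e₃.symm) with h | h | h
  · subst h; exact Set.disjoint_left.mp h12 hz₁ hz₂
  · subst h; exact Set.disjoint_left.mp h23 hz₂ hz₃
  · subst h; exact Set.disjoint_left.mp h13 hz₁ hz₃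

end SHEET

open SHEET in
theorem lbSheet (h : LbPrp) : LbSheet := by
  intro X _ _ _ f B hop x hx W₀ hW₀
  obtain ⟨-, hP2, -⟩ := h X f B hop
  have hf := hop.cont
  have hfib : ∀ z, f z = f x → z = x := by
    intro z hz
    by_contra hne
    exact hx (hP2 x z hz.symm (Ne.symm hne))
  obtain ⟨N, hN, hNW, hNc⟩ := local_compact_nhds hW₀
  set W := interior N with hW
  have hxW : x ∈ W := mem_interior_iff_mem_nhds.mpr hN
  have hWN : W ⊆ N := interior_subset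
  have hWo : IsOpen W := isOpen_interior
  have hD : IsCompact (N \ W) := hNc.diff hWo
  have hfD : IsClosed (f '' (N \ W)) := (hD.image hf).isClosed
  have hb : f x ∉ f '' (N \ W) := by
    rintro ⟨z, hz, hfz⟩
    exact hz.2 ((hfib z hfz) ▸ hxW)
  obtain ⟨r, hr, hrV⟩ := Metric.isOpen_iff.mp hfD.isOpen_compl (f x) hb
  obtain ⟨hJ, hcl⟩ := ball_sdiff hop.seg (f x) r
  set V := Metric.ball (f x) r with hV
  have hVo : IsOpen V := Metric.isOpen_ball
  have hxV : f x ∈ V := Metric.mem_ball_self hr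
  have hpre : IsPreconnected (V \ B) := jn_pre hJ
  -- points of `N` over `V` are in `W`
  have hNV : ∀ z ∈ N, f z ∈ V → z ∈ W := by
    intro z hz hzV
    by_contra hzW
    exact hrV hzV ⟨z, ⟨hz, hzW⟩, rfl⟩
  set W' := W ∩ f ⁻¹' V with hW'
  have hW'o : IsOpen W' := hWo.inter (hVo.preimage hf)
  have hxW' : x ∈ W' := ⟨hxW, hxV⟩
  set E := f ⁻¹' V \ N with hE
  have hEo : IsOpen E := (hVo.preimage hf).sdiff hNc.isClosed
  have hdich : ∀ z, f z ∈ V → z ∈ W' ∨ z ∈ E := by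
    intro z hz
    by_cases hzN : z ∈ N
    · exact Or.inl ⟨hNV z hzN hz, hz⟩
    · exact Or.inr ⟨hz, hzN⟩
  have hdWE : Disjoint W' E := by
    rw [Set.disjoint_left]
    intro z hz hz'
    exact hz'.2 (hWN hz.1)
  have hfW'V : f '' W' ⊆ V := by
    rintro _ ⟨z, hz, rfl⟩; exact hz.2
  have hfEV : f '' E ⊆ V := by
    rintro _ ⟨z, hz, rfl⟩; exact hz.1
  -- the two cases
  set S₂ : Set E3 := {y | ∃ O₁ O₂ : Set X, IsOpen O₁ ∧ IsOpen O₂ ∧ Disjoint O₁ O₂ ∧ O₁ ⊆ W' ∧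
    O₂ ⊆ W' ∧ y ∈ f '' O₁ ∧ y ∈ f '' O₂} with hS₂
  have hS₂o : IsOpen S₂ := by
    rw [isOpen_iff_mem_nhds]
    rintro y ⟨O₁, O₂, ho1, ho2, hd, h1, h2, hy1, hy2⟩
    refine Filter.mem_of_superset (((hop.opn _ ho1).inter (hop.opn _ ho2)).mem_nhds ⟨hy1, hy2⟩) ?_
    rintro y' ⟨hy1', hy2'⟩
    exact ⟨O₁, O₂, ho1, ho2, hd, h1, h2, hy1', hy2'⟩
  have hTo : IsOpen (f '' E) := hop.opn _ hEo
  have hST : ∀ y, y ∈ S₂ → y ∈ f '' E → False := by
    rintro y ⟨O₁, O₂, ho1, ho2, hd, h1, h2, hy1, hy2⟩ hy3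
    exact no_third hop hd (hdWE.mono_left h1) (hdWE.mono_left h2) hy1 hy2 hy3
  have hcov : V \ B ⊆ S₂ ∪ f '' E := by
    rintro y ⟨hyV, hyB⟩
    obtain ⟨z₁, z₂, hne, hz⟩ := Set.ncard_eq_two.mp (hop.two y hyB)
    have hz₁ : f z₁ = y := by
      have : z₁ ∈ f ⁻¹' {y} := by rw [hz]; exact Or.inl rfl
      exact this
    have hz₂ : f z₂ = y := by
      have : z₂ ∈ f ⁻¹' {y} := by rw [hz]; exact Or.inr rfl
      exact this
    rcases hdich z₁ (by rw [hz₁]; exact hyV) with h1 | h1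
    · rcases hdich z₂ (by rw [hz₂]; exact hyV) with h2 | h2
      · left
        obtain ⟨U₁, U₂, hU₁, hU₂, hm1, hm2, hd⟩ := t2_separation hne
        exact ⟨U₁ ∩ W', U₂ ∩ W', hU₁.inter hW'o, hU₂.inter hW'o,
          hd.mono inter_subset_left inter_subset_left, inter_subset_right, inter_subset_right,
          ⟨z₁, ⟨hm1, h1⟩, hz₁⟩, ⟨z₂, ⟨hm2, h2⟩, hz₂⟩⟩
      · exact Or.inr ⟨z₂, h2, hz₂⟩
    · exact Or.inr ⟨z₁, h1, hz₁⟩
  have hT : V \ B ⊆ f '' E := by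
    by_contra hcon
    obtain ⟨y₀, hy₀, hy₀E⟩ := Set.not_subset.mp hcon
    have hy₀S : y₀ ∈ S₂ := (hcov hy₀).resolve_right hy₀E
    -- then all of `V \ B` is in `S₂`
    have hall : ∀ y ∈ V \ B, y ∉ f '' E := by
      intro y hy hyE
      obtain ⟨y', -, h1, h2⟩ := hpre S₂ (f '' E) hS₂o hTo hcov ⟨y₀, hy₀, hy₀S⟩ ⟨y, hy, hyE⟩
      exact hST y' h1 h2
    have hEe : E = ∅ := by
      by_contra hne
      obtain ⟨y, hy, hyB⟩ := open_meets hop.seg hTo
        ((Set.nonempty_iff_ne_empty.mpr hne).image f)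
      exact hall y ⟨hfEV hy, hyB⟩ hy
    apply hx
    refine ⟨V, hVo.mem_nhds hxV, N, hNc, ?_⟩
    intro z hz
    rcases hdich z hz with h1 | h1
    · exact hWN h1.1
    · rw [hEe] at h1
      exact h1.elim
  refine ⟨W', ?_, hW'o, hxW', r, hr, ?_, ?_⟩
  · exact fun z hz => hNW (hWN hz.1)
  · intro z₁ h1 z₂ h2 heq
    by_contra hne
    obtain ⟨U₁, U₂, hU₁, hU₂, hm1, hm2, hd⟩ := t2_separation hne
    have ho1 : IsOpen (U₁ ∩ W') := hU₁.inter hW'o
    have ho2 : IsOpen (U₂ ∩ W') := hU₂.inter hW'o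
    obtain ⟨y, ⟨hy1, hy2⟩, hyB⟩ := open_meets hop.seg
      ((hop.opn _ ho1).inter (hop.opn _ ho2))
      ⟨f z₁, ⟨z₁, ⟨hm1, h1⟩, rfl⟩, ⟨z₂, ⟨hm2, h2⟩, heq.symm⟩⟩
    have hyV : y ∈ V := hfW'V (image_mono inter_subset_right hy1)
    exact no_third hop (hd.mono inter_subset_left inter_subset_left)
      (hdWE.mono_left inter_subset_right) (hdWE.mono_left inter_subset_right) hy1 hy2
      (hT ⟨hyV, hyB⟩)
  · refine Subset.antisymm hfW'V ?_
    have hfN : IsClosed (f '' N) := (hNc.image hf).isClosed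
    have hVS : V \ B ⊆ f '' W' := by
      refine hpre.subset_of_closure_inter_subset (hop.opn _ hW'o) ?_ ?_
      · obtain ⟨y, hy, hyB⟩ := open_meets hop.seg (hop.opn _ hW'o) ⟨f x, x, hxW', rfl⟩
        exact ⟨y, ⟨hfW'V hy, hyB⟩, hy⟩
      · rintro y ⟨hy, hyV⟩
        have h1 : y ∈ f '' N :=
          hfN.closure_subset_iff.mpr (image_mono (inter_subset_left.trans hWN)) hy
        obtain ⟨z, hz, rfl⟩ := h1
        exact ⟨z, ⟨hNV z hz hyV.1, hyV.1⟩, rfl⟩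
    intro v hv
    have h1 : v ∈ f '' N := by
      refine (hfN.closure_subset_iff.mpr (hVS.trans ?_)) (hcl hv)
      exact image_mono (inter_subset_left.trans hWN)
    obtain ⟨z, hz, rfl⟩ := h1
    exact ⟨z, ⟨hNV z hz hv, hv⟩, rfl⟩

end CM.LB
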