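import Pool.Agent.Helper37.LB.St
import Pool.Agent.Helper59.CM.M_CVX

/-!
Project LB, module SHS (helper1): smaller sheets, inverse of `fh` on a sheet.
-/

set_option autoImplicit false

namespace CM.LB

open Set Topology unitInterval

namespace SHS

theorem jn_of_convex {P : Set E3} (hP : Convex ℝ P) : Jn P := fun x hx y hy =>
  (hP.isPathConnected ⟨x, hx⟩).joinedIn x hx y hy

theorem inv_cont {X : Type} [TopologicalSpace X] {f : X → E3} (c : Cmp X f) {O : Set c.Y}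
    (hO : IsOpen O) {s : E3 → c.Y} (hs : ∀ z ∈ O, s (c.fh z) = z) :
    ContinuousOn s (c.fh '' O) := by
  rintro v ⟨z, hz, rfl⟩
  rw [ContinuousWithinAt, hs z hz]
  intro W hW
  rw [Filter.mem_map]
  have h1 : IsOpen (c.fh '' (interior W ∩ O)) := c.fold.opn _ (isOpen_interior.inter hO)
  have h2 : c.fh z ∈ c.fh '' (interior W ∩ O) := ⟨z, ⟨mem_interior_iff_mem_nhds.2 hW, hz⟩, rfl⟩
  refine mem_nhdsWithin_of_mem_nhds (Filter.mem_of_superset (h1.mem_nhds h2) ?_)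
  rintro v ⟨z', ⟨hz'W, hz'O⟩, rfl⟩
  rw [mem_preimage, hs z' hz'O]
  exact interior_subset hz'W

end SHS

theorem lbShS (h : LbTrf) : LbShS := by
  intro X _ _ _ f B hB c y O r hS
  have hcont : Continuous c.fh := c.fold.cont
  have : Nonempty c.Y := ⟨y⟩
  set s : E3 → c.Y := Function.invFunOn c.fh O with hs
  have hs1 : ∀ z ∈ O, s (c.fh z) = z := fun z hz =>
    hS.inj (Function.invFunOn_mem ⟨z, hz, rfl⟩) hz (Function.invFunOn_eq ⟨z, hz, rfl⟩)
  have hs2 : ∀ v ∈ c.fh '' O, s v ∈ O ∧ c.fh (s v) = v := by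
    rintro v ⟨z, hz, rfl⟩
    rw [hs1 z hz]
    exact ⟨hz, rfl⟩
  have hsc : ContinuousOn s (c.fh '' O) := SHS.inv_cont c hS.opn hs1
  have key : ∀ (P : Set E3) (Γ : Type) [Group Γ],
      (Jn (Metric.ball (c.fh y) r ∩ P) → Jn (O ∩ c.fh ⁻¹' P)) ∧
      (PFE Γ (Metric.ball (c.fh y) r ∩ P) → PFE Γ (O ∩ c.fh ⁻¹' P)) := by
    intro P Γ _
    refine (h c.Y E3 Γ (O ∩ c.fh ⁻¹' P) (Metric.ball (c.fh y) r ∩ P) c.fh s hcont.continuousOn
      (hsc.mono ?_) ?_ ?_).2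
    · rw [hS.img]
      exact inter_subset_left
    · rintro z ⟨hz, hzP⟩
      refine ⟨⟨?_, hzP⟩, hs1 z hz⟩
      rw [← hS.img]
      exact ⟨z, hz, rfl⟩
    · rintro v ⟨hv, hvP⟩
      rw [← hS.img] at hv
      obtain ⟨h1, h2⟩ := hs2 v hv
      refine ⟨⟨h1, ?_⟩, h2⟩
      rw [mem_preimage, h2]
      exact hvP
  refine ⟨?_, ⟨s, hsc, hs1, hs2⟩, ?_, ?_⟩
  · intro r' h0 hle
    refine ⟨hS.opn.inter (Metric.isOpen_ball.preimage hcont),
      ⟨hS.mem, Metric.mem_ball_self h0⟩, hS.inj.mono inter_subset_left, ?_, ?_, ?_⟩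
    · rw [image_inter_preimage, hS.img]
      exact inter_eq_self_of_subset_right (Metric.ball_subset_ball hle)
    · intro y' hy' hb
      exact ⟨hS.all y' hy' (Metric.ball_subset_ball hle hb), hb⟩
    · rintro y' ⟨hy', -⟩
      exact hS.hit y' hy'
  · intro P hPc _
    have hc : Convex ℝ (Metric.ball (c.fh y) r ∩ P) := (convex_ball _ _).inter hPc
    refine ⟨(key P Unit).1 (SHS.jn_of_convex hc), fun Γ _ => (key P Γ).2 ?_⟩
    intro F hF
    exact CM.pCvx E3 Γ _ F hc hF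
  · intro P hP
    exact (key P Unit).1 hP

end CM.LB
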