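import Pool.Agent.Helper37.LB.St

set_option autoImplicit false

namespace CM.LB

open Set Topology unitInterval

namespace SHY

theorem fh_tau {X : Type} [TopologicalSpace X] {f : X → E3} (c : Cmp X f) (z : c.Y) :
    c.fh (c.τ z) = c.fh z :=
  ((c.fold.fib z (c.τ z)).2 (Or.inr rfl)).symm

/-- a point of the fibre over a non proper value cannot be alone in `range j` -/
theorem not_fix {X : Type} [TopologicalSpace X] {f : X → E3} (c : Cmp X f) (y' : c.Y)
    (hr : y' ∈ range c.j) (hfix : c.τ y' = y') : c.fh y' ∈ Prp f := by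
  have hcl : IsClosed (c.fh '' (range c.j)ᶜ) :=
    c.fold.proper.isClosedMap _ (c.emb.isOpen_range.isClosed_compl)
  have hv : c.fh y' ∈ (c.fh '' (range c.j)ᶜ)ᶜ := by
    rintro ⟨z, hz, e⟩
    rcases (c.fold.fib y' z).1 e.symm with h | h
    · exact hz (h ▸ hr)
    · rw [hfix] at h
      exact hz (h ▸ hr)
  obtain ⟨ε, hε, hs⟩ := Metric.nhds_basis_closedBall.mem_iff.1 (hcl.isOpen_compl.mem_nhds hv)
  refine ⟨Metric.closedBall (c.fh y') ε, Metric.closedBall_mem_nhds _ hε,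
    f ⁻¹' Metric.closedBall (c.fh y') ε, ?_, Subset.rfl⟩
  have hK : IsCompact (c.fh ⁻¹' Metric.closedBall (c.fh y') ε) :=
    c.fold.proper.isCompact_preimage (isCompact_closedBall _ _)
  have hsub : c.fh ⁻¹' Metric.closedBall (c.fh y') ε ⊆ range c.j := by
    intro z hz
    by_contra hz'
    exact hs hz ⟨z, hz', rfl⟩
  have h1 : f ⁻¹' Metric.closedBall (c.fh y') ε =
      c.j ⁻¹' (c.fh ⁻¹' Metric.closedBall (c.fh y') ε) := by
    ext x
    simp only [mem_preimage, c.comp]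
  rw [h1]
  exact (c.emb.isInducing.isCompact_preimage_iff hsub).2 hK

end SHY

open SHY in
theorem lbShY (h1 : LbPrp) (h2 : LbSheet) : LbShY := by
  intro X _ _ _ f B h c y hy W hW
  obtain ⟨-, hP, -⟩ := h1 X f B h
  have hyr : y ∉ range c.j := hy
  obtain ⟨d, hd⟩ := (c.two y).resolve_left hyr
  have hfd : f d = c.fh y := by
    rw [← c.comp, hd, fh_tau]
  have hnp : f d ∉ Prp f := by
    rw [hfd]; exact c.miss y hyr
  have hnb : {x | c.τ (c.j x) ∈ W} ∈ 𝓝 d := by
    have hc : Continuous fun x => c.τ (c.j x) := c.fold.tcont.comp c.emb.continuous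
    have : W ∈ 𝓝 (c.τ (c.j d)) := by
      rw [hd, c.fold.invol]; exact hW
    exact hc.continuousAt.preimage_mem_nhds this
  obtain ⟨W₁, hW₁, hW₁o, hdW, r, hr, hinj, himg⟩ := h2 X f B h d hnp _ hnb
  refine ⟨c.τ ⁻¹' (c.j '' W₁), r, ?_, hr, ?_⟩
  · rintro z ⟨w, hw, hz⟩
    have h3 := hW₁ hw
    change c.τ (c.j w) ∈ W at h3
    rwa [hz, c.fold.invol] at h3
  have key : ∀ z w, c.j w = c.τ z → f w = c.fh z := by
    intro z w e
    rw [← c.comp, e, fh_tau]
  have hall : ∀ y' ∈ c.C, c.fh y' ∈ Metric.ball (c.fh y) r → y' ∈ c.τ ⁻¹' (c.j '' W₁) := by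
    intro y' hy' hb
    obtain ⟨d', hd'⟩ := (c.two y').resolve_left hy'
    rw [← hfd, ← himg] at hb
    obtain ⟨w, hw, e⟩ := hb
    by_cases hwd : w = d'
    · subst hwd
      exact ⟨w, hw, hd'⟩
    · have h3 := hP w d' (e.trans (key y' d' hd').symm) hwd
      rw [e] at h3
      exact absurd h3 (c.miss y' hy')
  refine ⟨?_, ⟨d, hdW, hd⟩, ?_, ?_, hall, ?_⟩
  · exact (c.emb.isOpenMap _ hW₁o).preimage c.fold.tcont
  · rintro z ⟨w, hw, hz⟩ z' ⟨w', hw', hz'⟩ e
    have h3 : w = w' := hinj hw hw' (by rw [key z w hz, key z' w' hz', e])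
    subst h3
    have h4 : c.τ z = c.τ z' := hz.symm.trans hz'
    rw [← c.fold.invol z, h4, c.fold.invol]
  · ext v
    constructor
    · rintro ⟨z, ⟨w, hw, hz⟩, rfl⟩
      rw [← key z w hz, ← hfd, ← himg]
      exact ⟨w, hw, rfl⟩
    · intro hv
      rw [← hfd, ← himg] at hv
      obtain ⟨w, hw, rfl⟩ := hv
      refine ⟨c.τ (c.j w), ⟨w, hw, ?_⟩, ?_⟩
      · rw [c.fold.invol]
      · rw [fh_tau, c.comp]
  · intro y' hy'
    refine ⟨fun h3 => c.miss y' h3, fun hn => ?_⟩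
    by_contra hC
    have hr' : y' ∈ range c.j := by
      by_contra h3
      exact hC h3
    obtain ⟨x, hx⟩ := hr'
    obtain ⟨w, hw, hz⟩ := hy'
    have e1 : f x = c.fh y' := by rw [← c.comp, hx]
    by_cases hxw : x = w
    · subst hxw
      exact hn (not_fix c y' ⟨x, hx⟩ (hz.symm.trans hx))
    · have h3 := hP x w (e1.trans (key y' w hz).symm) hxw
      rw [e1] at h3
      exact hn h3

end CM.LB
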