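import Pool.Agent.Helper37.LB.St
import Pool.Agent.Helper59.CM.M_BALL

/-!
Project LB (MP_e9500f_gt), module THIN: the set of missing points is thin.
-/

set_option autoImplicit false

namespace CM.LB

open Set Topology unitInterval

namespace THIN

/-- `StBall` for a closed subset of a `Seg` set -/
theorem ball_seg (hB : StBall) {B D : Set E3} (hS : Seg B) (hD : IsClosed D) (hDB : D ⊆ B)
    (c : E3) (r : ℝ) :
    Jn (Metric.ball c r \ D) ∧ Metric.ball c r ⊆ closure (Metric.ball c r \ D) := by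
  obtain ⟨L, hL⟩ := hS.2 (‖c‖ + r)
  refine hB D L c r hD fun z hz => hL ⟨hDB hz.1, ?_⟩
  have h1 : dist z c < r := hz.2
  have h2 : dist z 0 ≤ dist z c + dist c 0 := dist_triangle z c 0
  rw [dist_zero_right c] at h2
  rw [Metric.mem_closedBall]
  linarith

end THIN

theorem lbThin (h1 : LbPrp) (h2 : LbShY) (h3 : LbShS) (h4 : LbTrf) : LbThin := by
  intro X _ _ _ hLoc f B hO c
  obtain ⟨hPo, _, hPB⟩ := h1 X f B hO
  refine ⟨c.emb.isOpen_range.isClosed_compl, fun y W hW => ?_⟩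
  by_cases hy : y ∈ range c.j
  · obtain ⟨x, rfl⟩ := hy
    obtain ⟨V₀, hV₀W, hV₀o, hxV₀, hJ, hE⟩ := hLoc x (c.j ⁻¹' W)
      (c.emb.continuous.continuousAt.preimage_mem_nhds hW)
    haveI : Nonempty X := ⟨x⟩
    have hinv : ∀ x', Function.invFun c.j (c.j x') = x' :=
      Function.leftInverse_invFun c.emb.injective
    have hφ : ContinuousOn (Function.invFun c.j) (c.j '' V₀) := by
      rw [c.emb.isInducing.continuousOn_iff]
      refine continuousOn_id.congr ?_
      rintro _ ⟨x', _, rfl⟩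
      simp [hinv]
    have hs : ContinuousOn c.j V₀ := c.emb.continuous.continuousOn
    have ha : ∀ y ∈ c.j '' V₀, Function.invFun c.j y ∈ V₀ ∧ c.j (Function.invFun c.j y) = y := by
      rintro _ ⟨x', hx', rfl⟩
      rw [hinv]
      exact ⟨hx', rfl⟩
    have hb : ∀ y' ∈ V₀, c.j y' ∈ c.j '' V₀ ∧ Function.invFun c.j (c.j y') = y' :=
      fun y' hy' => ⟨mem_image_of_mem _ hy', hinv y'⟩
    have hsub : c.j '' V₀ \ c.C = c.j '' V₀ := by
      ext z
      constructor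
      · exact fun h => h.1
      · rintro ⟨x', hx', rfl⟩
        exact ⟨⟨x', hx', rfl⟩, fun h => h ⟨x', rfl⟩⟩
    have hJ' : Jn (c.j '' V₀) :=
      (h4 c.Y X (Multiplicative ℝ) (c.j '' V₀) V₀ (Function.invFun c.j) c.j hφ hs ha hb).2.1 hJ
    refine ⟨c.j '' V₀, ?_, c.emb.isOpenMap V₀ hV₀o, mem_image_of_mem _ hxV₀, hJ', ?_, ?_, ?_⟩
    · rintro _ ⟨x', hx', rfl⟩
      exact hV₀W hx'
    · rw [hsub]; exact hJ'
    · rw [hsub]; exact ⟨_, mem_image_of_mem _ hxV₀⟩
    · intro Γ _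
      exact (h4 c.Y X Γ (c.j '' V₀) V₀ (Function.invFun c.j) c.j hφ hs ha hb).2.2 (hE Γ)
  · obtain ⟨O, r, hOW, hr, hSh⟩ := h2 X f B hO c y hy W hW
    obtain ⟨_, _, hC, hD⟩ := h3 X f B hO c y O r hSh
    have hbs := THIN.ball_seg pBall hO.seg hPo.isClosed_compl hPB (c.fh y) r
    have hdiff : Metric.ball (c.fh y) r \ (Prp f)ᶜ = Metric.ball (c.fh y) r ∩ Prp f := by
      rw [sdiff_compl]
    rw [hdiff] at hbs
    have hOC : O \ c.C = O ∩ c.fh ⁻¹' Prp f := by
      ext z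
      constructor
      · rintro ⟨hz, hzC⟩
        refine ⟨hz, ?_⟩
        by_contra hn
        exact hzC ((hSh.hit z hz).2 hn)
      · rintro ⟨hz, hzP⟩
        exact ⟨hz, fun hzC => (hSh.hit z hz).1 hzC hzP⟩
    have huniv : O ∩ c.fh ⁻¹' univ = O := by simp
    have hCu := hC univ convex_univ isOpen_univ
    rw [huniv] at hCu
    refine ⟨O, hOW, hSh.opn, hSh.mem, hCu.1, ?_, ?_, fun Γ _ => hCu.2 Γ⟩
    · rw [hOC]; exact hD _ hbs.1
    · have hne : (Metric.ball (c.fh y) r ∩ Prp f).Nonempty := by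
        have : (closure (Metric.ball (c.fh y) r ∩ Prp f)).Nonempty :=
          ⟨c.fh y, hbs.2 (Metric.mem_ball_self hr)⟩
        exact closure_nonempty_iff.1 this
      obtain ⟨v, hv, hvP⟩ := hne
      rw [← hSh.img] at hv
      obtain ⟨z, hz, rfl⟩ := hv
      rw [hOC]
      exact ⟨z, hz, hvP⟩

end CM.LB
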