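import Pool.Agent.Helper37.LB.St
import Pool.Agent.Helper59.CM.M_BALL
import Pool.Agent.Helper59.CM.M_CVX
import Pool.Agent.Helper59.CM.M_CONV

/-! Project LB, module THINE: closed sets locally contained in finitely many segments are thin;
small balls of an open set. -/

set_option autoImplicit false

namespace CM.LB

open Set Topology unitInterval

theorem THINE.jn_ball {V : Type} [NormedAddCommGroup V] [NormedSpace ℝ V] (c : V) (r : ℝ) :
    Jn (Metric.ball c r) := fun _ hy _ hz =>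
  ((convex_ball c r).isPathConnected ⟨_, hy⟩).joinedIn _ hy _ hz

theorem lbThinE : LbThinE := by
  intro B hB
  refine ⟨hB.1, fun y W hW => ?_⟩
  obtain ⟨r, hr, hball⟩ := Metric.mem_nhds_iff.1 hW
  obtain ⟨L, hL⟩ := hB.2 (‖y‖ + r)
  have hsub : B ∩ Metric.ball y r ⊆ ⋃ l ∈ L, segment ℝ l.1 l.2 := by
    intro z hz
    refine hL ⟨hz.1, ?_⟩
    have h1 : dist z y < r := hz.2
    have h2 : dist z 0 ≤ dist z y + dist y 0 := dist_triangle _ _ _
    rw [dist_zero_right y] at h2
    rw [Metric.mem_closedBall]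
    linarith
  obtain ⟨h1, h2⟩ := pBall B L y r hB.1 hsub
  refine ⟨Metric.ball y r, hball, Metric.isOpen_ball, Metric.mem_ball_self hr,
    THINE.jn_ball y r, h1, ?_, ?_⟩
  · exact closure_nonempty_iff.1 ⟨y, h2 (Metric.mem_ball_self hr)⟩
  · intro Γ _ F hF
    exact pCvx E3 Γ _ F (convex_ball _ _) hF

theorem lbLocAll : LbLocAll := by
  intro M hM x W hW
  obtain ⟨U, hU, hUW⟩ := mem_nhds_subtype M x W |>.1 hW
  have hUM : U ∩ M ∈ 𝓝 (x : E) := Filter.inter_mem hU (hM.mem_nhds x.2)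
  obtain ⟨r, hr, hball⟩ := Metric.mem_nhds_iff.1 hUM
  have hBM : Metric.ball (x : E) r ⊆ M := fun y hy => (hball hy).2
  refine ⟨Subtype.val ⁻¹' Metric.ball (x : E) r, ?_, ?_, ?_, ?_, ?_⟩
  · intro y hy
    exact hUW (hball hy).1
  · exact Metric.isOpen_ball.preimage continuous_subtype_val
  · exact Metric.mem_ball_self hr
  · intro y hy z hz
    obtain ⟨γ, hγ⟩ := THINE.jn_ball (x : E) r _ hy _ hz
    refine ⟨⟨⟨fun t => ⟨γ t, hBM (hγ t)⟩, ?_⟩, ?_, ?_⟩, fun t => hγ t⟩
    · exact Continuous.subtype_mk γ.continuous _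
    · exact Subtype.ext γ.source
    · exact Subtype.ext γ.target
  · intro Γ _ F hF
    obtain ⟨F', hF', hFF⟩ := pConv E Γ M _ F hF
    have himg : (Subtype.val '' (Subtype.val ⁻¹' Metric.ball (x : E) r : Set ↥M) : Set E) =
        Metric.ball (x : E) r := by
      rw [Subtype.image_preimage_coe]
      exact inter_eq_right.2 hBM
    rw [himg] at hF'
    obtain ⟨g, hg⟩ := pCvx E Γ _ F' (convex_ball _ _) hF'
    refine ⟨fun y => g y, fun a b p hp => ?_⟩
    rw [← hFF a b p hp]
    exact hg _ _ _ fun t => hp t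

end CM.LB
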