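import Pool.Agent.Helper37.LB.St

/-!
Project LB: transport of path functors along homeomorphisms between subsets.
-/

set_option autoImplicit false

namespace CM.LB

open Set Topology unitInterval

namespace TRF

variable {Y Y' Γ : Type} [TopologicalSpace Y] [TopologicalSpace Y'] [Group Γ]

/-- image of a path in `O'` under a map which is continuous on `O'` -/
def mp {O' : Set Y'} {s : Y' → Y} (hs : ContinuousOn s O') {a b : Y'} (p : Path a b)
    (h : ∀ t, p t ∈ O') : Path (s a) (s b) where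
  toFun t := s (p t)
  continuous_toFun := hs.comp_continuous p.continuous h
  source' := congrArg s p.source
  target' := congrArg s p.target

theorem mp_apply {O' : Set Y'} {s : Y' → Y} (hs : ContinuousOn s O') {a b : Y'} (p : Path a b)
    (h : ∀ t, p t ∈ O') (t : I) : (mp hs p h) t = s (p t) := rfl

theorem mp_trans {O' : Set Y'} {s : Y' → Y} (hs : ContinuousOn s O') {a b c : Y'}
    (p : Path a b) (q : Path b c) (hp : ∀ t, p t ∈ O') (hq : ∀ t, q t ∈ O')
    (h : ∀ t, (p.trans q) t ∈ O') :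
    mp hs (p.trans q) h = (mp hs p hp).trans (mp hs q hq) := by
  ext t
  rw [mp_apply, Path.trans_apply, Path.trans_apply]
  split_ifs <;> rfl

open Classical in
/-- the transported functor -/
noncomputable def tr {O' : Set Y'} {s : Y' → Y} (hs : ContinuousOn s O') (F : PFun Y Γ) :
    PFun Y' Γ := fun a b p => if h : ∀ t, p t ∈ O' then F (s a) (s b) (mp hs p h) else 1

theorem tr_pf {O : Set Y} {O' : Set Y'} {s : Y' → Y} (hs : ContinuousOn s O')
    (hO : ∀ y' ∈ O', s y' ∈ O) {F : PFun Y Γ} (hF : IsPF O F) : IsPF O' (tr hs F) := by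
  refine ⟨?_, ?_⟩
  · intro a b p q H hH
    have hp : ∀ t, p t ∈ O' := fun t => by
      have e : H (0, t) = p t := H.apply_zero t
      have := hH (0, t)
      rwa [e] at this
    have hq : ∀ t, q t ∈ O' := fun t => by
      have e : H (1, t) = q t := H.apply_one t
      have := hH (1, t)
      rwa [e] at this
    unfold tr
    rw [dif_pos hp, dif_pos hq]
    let H' : (mp hs p hp).Homotopy (mp hs q hq) :=
      { toFun := fun x => s (H x)
        continuous_toFun := hs.comp_continuous H.continuous hH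
        map_zero_left := fun t => congrArg s (H.apply_zero t)
        map_one_left := fun t => congrArg s (H.apply_one t)
        prop' := fun u t ht => congrArg s (H.eq_fst u ht) }
    exact hF.hom _ _ _ _ H' (fun x => hO _ (hH x))
  · intro a b c p q hp hq
    have hpq : ∀ t, (p.trans q) t ∈ O' := trans_mem hp hq
    unfold tr
    rw [dif_pos hp, dif_pos hq, dif_pos hpq, mp_trans hs p q hp hq hpq]
    exact hF.trans _ _ _ _ _ (fun t => hO _ (hp t)) (fun t => hO _ (hq t))

theorem tr_eq {O : Set Y} {O' : Set Y'} {φ : Y → Y'} {s : Y' → Y} (hs : ContinuousOn s O')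
    (h1 : ∀ y ∈ O, φ y ∈ O' ∧ s (φ y) = y) (F : PFun Y Γ) {a b : Y} (p : Path a b)
    (p' : Path (φ a) (φ b)) (hp : ∀ t, p t ∈ O) (hp' : ∀ t, p' t = φ (p t)) :
    tr hs F _ _ p' = F a b p := by
  have ha : a ∈ O := by simpa using hp 0
  have hb : b ∈ O := by simpa using hp 1
  have h : ∀ t, p' t ∈ O' := fun t => by rw [hp' t]; exact (h1 _ (hp t)).1
  unfold tr
  rw [dif_pos h]
  have e : mp hs p' h = p.cast (h1 a ha).2 (h1 b hb).2 := by
    ext t
    rw [mp_apply, hp' t]
    exact (h1 _ (hp t)).2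
  rw [e, F_cast F]

end TRF

open TRF in
theorem lbTrf : LbTrf := by
  intro Y Y' Γ _ _ _ O O' φ s hφ hs h1 h2
  refine ⟨?_, ?_, ?_⟩
  · intro F hF
    exact ⟨tr hs F, tr_pf hs (fun y' hy' => (h2 y' hy').1) hF,
      fun a b p p' hp hp' => tr_eq hs h1 F p p' hp hp'⟩
  · intro hJ x hx y hy
    obtain ⟨γ, hγ⟩ := hJ (φ x) (h1 x hx).1 (φ y) (h1 y hy).1
    refine ⟨(mp hs γ hγ).cast (h1 x hx).2.symm (h1 y hy).2.symm, fun t => ?_⟩
    exact (h2 _ (hγ t)).1
  · intro hP F hF
    obtain ⟨g, hg⟩ := hP (tr hs F) (tr_pf hs (fun y' hy' => (h2 y' hy').1) hF)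
    refine ⟨fun y => g (φ y), fun a b p hp => ?_⟩
    have h3 : ∀ t, (mp hφ p hp) t ∈ O' := fun t => (h1 _ (hp t)).1
    have h4 := tr_eq hs h1 F p (mp hφ p hp) hp (fun t => rfl)
    rw [← h4]
    exact hg _ _ _ h3

theorem lbPush (h : LbTrf) : LbPush := by
  intro X Y Γ _ _ _ j hj S F hF
  rcases isEmpty_or_nonempty X with hX | hX
  · refine ⟨fun _ _ _ => 1, IsExact.isPF ⟨fun _ => 1, fun a b p hp => by simp⟩, ?_⟩
    intro a
    exact (hX.false a).elim
  · have hsj : ∀ x, Function.invFun j (j x) = x := Function.leftInverse_invFun hj.injective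
    have hs : ContinuousOn (Function.invFun j) (j '' S) := by
      rintro _ ⟨x, -, rfl⟩
      refine ContinuousAt.continuousWithinAt ?_
      unfold ContinuousAt
      rw [← hj.map_nhds_eq x, hsj x, Filter.tendsto_map'_iff]
      have : Function.invFun j ∘ j = id := funext hsj
      rw [this]
      exact Filter.tendsto_id
    obtain ⟨h1, -, -⟩ := h X Y Γ S (j '' S) j (Function.invFun j) hj.continuous.continuousOn hs
      (fun x hx => ⟨⟨x, hx, rfl⟩, hsj x⟩) (by
        rintro _ ⟨x, hx, rfl⟩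
        rw [hsj x]
        exact ⟨hx, rfl⟩)
    obtain ⟨F', hF', hF2⟩ := h1 F hF
    exact ⟨F', hF', fun a b p hp => hF2 a b p _ hp (fun t => rfl)⟩

end CM.LB
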