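import Pool.Agent.Helper37.LB.M_OP2
import Pool.Agent.Helper37.LB.M_PRP
import Pool.Agent.Helper37.LB.M_SHEET
import Pool.Agent.Helper37.LB.M_OTH
import Pool.Agent.Helper37.LB.M_QUOT
import Pool.Agent.Helper37.LB.M_CMP
import Pool.Agent.Helper37.LB.M_TRF
import Pool.Agent.Helper37.LB.M_REM2
import Pool.Agent.Helper37.LB.M_EXTZ
import Pool.Agent.Helper37.LB.M_THINE
import Pool.Agent.Helper37.LB.M_SHY
import Pool.Agent.Helper37.LB.M_SHS
import Pool.Agent.Helper37.LB.M_THIN
import Pool.Agent.Helper37.LB.M_ORD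
import Pool.Agent.Helper37.LB.M_CONE
import Pool.Agent.Helper37.LB.M_NEAR
import Pool.Agent.Helper37.LB.M_PHIH
import Pool.Agent.Helper37.LB.M_GEN
import Pool.Agent.Helper37.LB.M_EXTF
import Pool.Agent.Helper37.LB.M_H1
import Pool.Agent.Helper37.LB.M_GRAPH
import Pool.Agent.Helper37.LB.M_NERVE
import Pool.Agent.Helper37.LB.M_LEB
import Pool.Agent.Helper37.LB.M_HB
import Pool.Agent.Helper37.LB.M_N4
import Pool.Agent.Helper37.LB.M_NJ
import Pool.Agent.Helper37.LB.M_MAINL

/-!
Project LB (MP_e9500f_gt, literal definition): assembly.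
-/

set_option autoImplicit false

namespace CM.LB

open Set Topology

namespace ALL

theorem aPrp : LbPrp := lbPrp
theorem aSheet : LbSheet := lbSheet aPrp
theorem aOth : LbOth := lbOth aPrp
theorem aQuot : LbQuot := lbQuot aPrp aSheet aOth
theorem aCmp : LbCmp := lbCmp aPrp aSheet aOth aQuot
theorem aTrf : LbTrf := lbTrf
theorem aPush : LbPush := lbPush aTrf
theorem aRem2 : LbRem2 := lbRem2
theorem aRem : LbRem := lbRem aRem2
theorem aShY : LbShY := lbShY aPrp aSheet
theorem aShS : LbShS := lbShS aTrf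
theorem aThin : LbThin := lbThin aPrp aShY aShS aTrf
theorem aNear : LbNear := lbNear aPrp aShY aShS aTrf lbThinE lbCone aRem lbOrd
theorem aPhiH : LbPhiH := lbPhiH aPush aNear aThin lbExtZ
theorem aExtF : LbExtF := lbExtF aPrp aShY aShS lbGen
theorem aNerve : LbNerve := lbNerve aTrf aRem lbH1 lbGraph
theorem aLeb : LbLeb := lbLeb aPrp aShY aShS
theorem aN4 : LbN4 := lbN4 aPrp aShY aShS aThin lbGen aLeb lbHB lbGrid aNerve
theorem aNJ : LbNJ := lbNJ aTrf
theorem aMain : LbMain := lbMain aCmp aThin aPhiH aRem2 aRem aExtF aN4 aNJ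

end ALL

theorem pFinalL : LbFinal := lbFinal lbOp2 ALL.aMain lbLocAll

end CM.LB
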