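import Pool.Agent.Helper59.CM.StMain

/-!
Project LB (MP_e9500f_gt, literal definition): the branched covering is NOT assumed to be proper.

Definitions.
-/

set_option autoImplicit false

namespace CM.LB

open Set Topology unitInterval

/-- Two-fold branched covering of `ℝ³` in the literal sense of the problem file (topological
version: the map is only required to be continuous; not assumed to be proper). -/
structure IsBranchedL {X : Type} [TopologicalSpace X] (f : X → E3) : Prop where
  cont : Continuous f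
  surj : Function.Surjective f
  disc : ∀ y, DiscreteTopology ↥(f ⁻¹' {y})
  branch : ∃ B : Set E3, IsClosed B ∧
    (∀ R : ℝ, ∃ L : Finset (E3 × E3), B ∩ Metric.closedBall 0 R ⊆ ⋃ l ∈ L, segment ℝ l.1 l.2) ∧
    IsCoveringMapOn f Bᶜ ∧ ∀ y ∉ B, (f ⁻¹' {y}).ncard = 2

/-- closed and locally contained in finitely many segments -/
def Seg (B : Set E3) : Prop := IsClosed B ∧
  ∀ R : ℝ, ∃ L : Finset (E3 × E3), B ∩ Metric.closedBall 0 R ⊆ ⋃ l ∈ L, segment ℝ l.1 l.2

/-- open surjection, two points in the fibres off `B`, at most two in every fibre -/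
structure Op2 {X : Type} [TopologicalSpace X] (f : X → E3) (B : Set E3) : Prop where
  cont : Continuous f
  surj : Function.Surjective f
  opn : IsOpenMap f
  seg : Seg B
  two : ∀ y ∉ B, (f ⁻¹' {y}).ncard = 2
  fib : ∀ x₁ x₂ x₃, f x₁ = f x₂ → f x₂ = f x₃ → x₁ = x₂ ∨ x₂ = x₃ ∨ x₁ = x₃

/-- the points over which `f` is proper -/
def Prp {X : Type} [TopologicalSpace X] (f : X → E3) : Set E3 :=
  {y | ∃ V ∈ 𝓝 y, ∃ K : Set X, IsCompact K ∧ f ⁻¹' V ⊆ K}

open Classical in
/-- the other point of the fibre, or the point itself -/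
noncomputable def oth {X : Type} (f : X → E3) (x : X) : X :=
  if h : ∃ x', x' ≠ x ∧ f x' = f x then h.choose else x

/-- the completion of a (non proper) two-fold branched covering -/
structure Cmp (X : Type) [TopologicalSpace X] (f : X → E3) where
  Y : Type
  top : TopologicalSpace Y
  t2 : T2Space Y
  j : X → Y
  τ : Y → Y
  fh : Y → E3
  emb : IsOpenEmbedding j
  fold : Fold fh τ
  comp : ∀ x, fh (j x) = f x
  two : ∀ y, y ∈ range j ∨ τ y ∈ range j
  miss : ∀ y, y ∉ range j → fh y ∉ Prp f

attribute [instance] Cmp.top Cmp.t2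

/-- the missing points -/
def Cmp.C {X : Type} [TopologicalSpace X] {f : X → E3} (c : Cmp X f) : Set c.Y := (range c.j)ᶜ

/-- `Z` is closed and locally does not separate; moreover the space has small joined
neighbourhoods on which all path functors are exact -/
def Thin {Y : Type} [TopologicalSpace Y] (Z : Set Y) : Prop := IsClosed Z ∧
  ∀ y : Y, ∀ W ∈ 𝓝 y, ∃ V ⊆ W, IsOpen V ∧ y ∈ V ∧ Jn V ∧ Jn (V \ Z) ∧ (V \ Z).Nonempty ∧
    ∀ (Γ : Type) [Group Γ], PFE Γ V

/-- `O` is a sheet over the ball of radius `r` around `fh y`, at a missing point `y` -/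
structure Sheet {X : Type} [TopologicalSpace X] {f : X → E3} (c : Cmp X f) (y : c.Y)
    (O : Set c.Y) (r : ℝ) : Prop where
  opn : IsOpen O
  mem : y ∈ O
  inj : InjOn c.fh O
  img : c.fh '' O = Metric.ball (c.fh y) r
  all : ∀ y' ∈ c.C, c.fh y' ∈ Metric.ball (c.fh y) r → y' ∈ O
  hit : ∀ y' ∈ O, (y' ∈ c.C ↔ c.fh y' ∉ Prp f)

/-- same value on the paths in `S`, transported along `j` -/
def Lifts {X Y Γ : Type} [TopologicalSpace X] [TopologicalSpace Y] (j : X → Y)
    (hj : Continuous j) (S : Set X) (F : PFun X Γ) (F' : PFun Y Γ) : Prop :=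
  ∀ (a b : X) (p : Path a b), (∀ t, p t ∈ S) → F' (j a) (j b) (p.map hj) = F a b p

/-- the plane sections of `B` in the box which are finite -/
def Bad (B : Set E3) (R : ℝ) : Set ℝ := {t | ¬ (B ∩ box R ∩ {y | ∃ i, y i = t}).Finite}

end CM.LB
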