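import Pool.Agent.Helper37.LB.St
import Pool.Agent.Helper59.CM.M_FOLD
import Pool.Agent.Helper59.CM.M_OPEN
import Pool.Agent.Helper59.CM.M_BALL

set_option autoImplicit false

namespace CM.LB

open Set Topology unitInterval

theorem lbOp2 : LbOp2 := by
  intro X _ _ _ f hf hint
  obtain ⟨B, hB, hL, hcov, hcard⟩ := hf.branch
  have hint' := hint B hB hL
  have hopen : IsOpenMap f := pOpen pBall X f B hf.cont hf.disc hB hL hcov hint'
  refine ⟨B, hf.cont, hf.surj, hopen, ⟨hB, hL⟩, hcard, ?_⟩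
  intro x₁ x₂ x₃ h12 h23
  by_contra hne
  push Not at hne
  exact FOLD.two hf.cont hopen hint' hcard h12 (h12.trans h23) hne.1 hne.2.2 hne.2.1

end CM.LB
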