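import Pool.Agent.Helper37.LB.St
import Pool.Agent.Helper59.CM.M_FILT
import Pool.Agent.Helper59.CM.M_LEV
import Pool.Agent.Helper59.CM.M_UNIQ
import Pool.Agent.Helper59.CM.M_PAIR

/-!
Project LB, module ORD: values on loops at level `n` have order at least `n + 1`.
-/

set_option autoImplicit false

namespace CM.LB

open Set Topology unitInterval NS

namespace ORD

/-- elements of order at least `k` -/
def sub (k : ℕ) (hk : 1 ≤ k) : Subgroup UU where
  carrier := {u | Ord k (sr u - 1)}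
  one_mem' := by
    intro w _
    rw [sr_one, sub_self, co_zero]
  mul_mem' := by
    intro a b ha hb
    exact ((pFilt k hk).1 a b ha hb).1
  inv_mem' := by
    intro a ha
    exact ((pFilt k hk).2.1 a ha).1

theorem mem_sub (k : ℕ) (hk : 1 ≤ k) (u : UU) : u ∈ sub k hk ↔ Ord k (sr u - 1) := Iff.rfl

theorem ord_mono {k l : ℕ} (h : k ≤ l) {f : NS} (hf : Ord l f) : Ord k f :=
  fun w hw => hf w (lt_of_lt_of_le hw h)

theorem cm_ord (k : ℕ) (hk : 1 ≤ k) (a b : UU) (ha : Ord k (sr a - 1)) (hb : Ord k (sr b - 1)) :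
    Ord (k + 1) (sr (cm a b) - 1) := by
  obtain ⟨hm, hi, _⟩ := pFilt k hk
  have ha' := hi a ha
  have hb' := hi b hb
  have h1 := hm a b ha hb
  have h2 := hm (a * b) a⁻¹ h1.1 ha'.1
  have h3 := hm (a * b * a⁻¹) b⁻¹ h2.1 hb'.1
  intro w hw
  rcases Nat.lt_succ_iff_lt_or_eq.mp hw with hlt | heq
  · exact h3.1 w hlt
  · show co (sr (a * b * a⁻¹ * b⁻¹) - 1) w = 0
    rw [h3.2 w heq, h2.2 w heq, h1.2 w heq, ha'.2 w heq, hb'.2 w heq]
    ring

theorem w2_ord (k : ℕ) (hk : 1 ≤ k) (a b : UU) (ha : Ord k (sr a - 1)) (hb : Ord k (sr b - 1)) :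
    Ord (k + 1) (sr (W2 a b) - 1) := by
  have h1 : Ord k (sr (cm a b) - 1) := ord_mono (Nat.le_succ k) (cm_ord k hk a b ha hb)
  have h2 : Ord k (sr (cm b (cm a b)) - 1) := ord_mono (Nat.le_succ k) (cm_ord k hk b _ hb h1)
  have h3 : Ord k (sr (cm a (cm b (cm a b))) - 1) :=
    ord_mono (Nat.le_succ k) (cm_ord k hk a _ ha h2)
  exact cm_ord k hk _ _ h1 h3

theorem hom2_mem (S : Subgroup UU) (a b : UU) (ha : a ∈ S) (hb : b ∈ S) (W : F2) :
    hom2 a b W ∈ S := by
  induction W using FreeGroup.induction_on with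
  | C1 => rw [map_one]; exact S.one_mem
  | of x =>
    unfold hom2
    rw [FreeGroup.lift_apply_of]
    split_ifs
    · exact ha
    · exact hb
  | inv_of x ih => rw [map_inv]; exact S.inv_mem ih
  | mul x y hx hy => rw [map_mul]; exact S.mul_mem hx hy

theorem pair_ord {X : Type} [TopologicalSpace X] (T : Tower X) (h : PFun X UU)
    (hh : IsPF T.Kᶜ h) (n : ℕ) :
    Ord (n + 1) (sr (h _ _ (T.lev n).lx) - 1) ∧ Ord (n + 1) (sr (h _ _ (T.lev n).ly) - 1) := by
  induction n with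
  | zero =>
    have key : ∀ u : UU, Ord (0 + 1) (sr u - 1) := by
      intro u w hw
      have : w = [] := List.length_eq_zero_iff.mp (by omega)
      subst this
      rw [co_sub, sr_nil, co_one_nil, sub_self]
    exact ⟨key _, key _⟩
  | succ n ih =>
    have hn : IsPF (T.lev n).Kᶜ h := hh.mono (compl_subset_compl.mpr ((pLev X T).2.2.1 0 n (Nat.zero_le n)))
    obtain ⟨g, hg1, hg2⟩ := (pPair (pUniq pFilt) X (T.lev n) h hn).2
    have hk : 1 ≤ n + 1 + 1 := by omega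
    have e1 := ((pFilt (n + 1 + 1) hk).2.2 _ g
      (cm_ord (n + 1) (by omega) _ _ ih.1 ih.2)).1
    have e2 := ((pFilt (n + 1 + 1) hk).2.2 _ g
      (w2_ord (n + 1) (by omega) _ _ ih.1 ih.2)).1
    constructor
    · show Ord (n + 1 + 1) (sr (h (T.lev n).shift.p (T.lev n).shift.p (T.lev n).shift.lx) - 1)
      rw [hg1]
      exact e1
    · show Ord (n + 1 + 1) (sr (h (T.lev n).shift.p (T.lev n).shift.p (T.lev n).shift.ly) - 1)
      rw [hg2]
      exact e2

end ORD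

theorem lbOrd : LbOrd := by
  intro X _ T h hh n a z hz
  have hn : IsPF (T.lev n).Kᶜ h :=
    hh.mono (compl_subset_compl.mpr ((pLev X T).2.2.1 0 n (Nat.zero_le n)))
  obtain ⟨g, hg⟩ := (pPair (pUniq pFilt) X (T.lev n) h hn).1
  obtain ⟨h1, h2⟩ := ORD.pair_ord T h hh n
  have hk : 1 ≤ n + 1 := by omega
  have hm : hom2 (h _ _ (T.lev n).lx) (h _ _ (T.lev n).ly) ((T.lev n).Φ a a z) ∈
      ORD.sub (n + 1) hk := ORD.hom2_mem _ _ _ h1 h2 _
  have e := ((pFilt (n + 1) hk).2.2 _ (g a)⁻¹ hm).1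
  rw [hg a a z hz]
  rw [inv_inv] at e
  exact e

end CM.LB
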