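import Pool.Agent.Helper37.LB.Defs

/-!
Project LB (MP_e9500f_gt, literal definition, maps not assumed proper): statements with written
proofs. A module proves `theorem LbX_proof : LbX` (other statements of `Lb..`, `St..` may be taken as
hypotheses; `StX_proof` of project CM are in Pool/Agent/Helper59/CM/M_*.lean).
-/

set_option autoImplicit false

namespace CM.LB

open Set Topology unitInterval

/-- every point has small open joined neighbourhoods on which all path functors are exact -/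
def LocAll (X : Type) [TopologicalSpace X] : Prop := ∀ x : X, ∀ W ∈ 𝓝 x, ∃ V ⊆ W, IsOpen V ∧
  x ∈ V ∧ Jn V ∧ ∀ (Γ : Type) [Group Γ], PFE Γ V

/-- OP2. Proof. `StOpen` gives `IsOpenMap f`. If `x₁, x₂, x₃` are distinct points of one fibre over `b`
take disjoint open neighbourhoods; their images are open, the intersection of the images is a
neighbourhood of `b`, contains a point outside `B` (`StBall`: `V ⊆ closure (V \ B)`), over which there are
three points, against `ncard = 2` (as in `StFold`). -/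
def LbOp2 : Prop := ∀ (X : Type) [TopologicalSpace X] [T2Space X] [LocallyCompactSpace X]
  (f : X → E3), IsBranchedL f →
  (∀ B : Set E3, IsClosed B →
    (∀ R : ℝ, ∃ L : Finset (E3 × E3), B ∩ Metric.closedBall 0 R ⊆ ⋃ l ∈ L, segment ℝ l.1 l.2) →
    interior (f ⁻¹' B) = ∅) → ∃ B : Set E3, Op2 f B

/-- PRP. `Prp f` is open; two different points in a fibre: choose disjoint compact
neighbourhoods `N₁, N₂`, `V = f '' int N₁ ∩ f '' int N₂`; over a point of `V` there is a point in `N₁` and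
one in `N₂`, so all points of the fibre are in `N₁ ∪ N₂` (`Op2.fib`). For `y ∉ B` the fibre has two points. -/
def LbPrp : Prop := ∀ (X : Type) [TopologicalSpace X] [T2Space X] [LocallyCompactSpace X]
  (f : X → E3) (B : Set E3), Op2 f B → IsOpen (Prp f) ∧
  (∀ x₁ x₂, f x₁ = f x₂ → x₁ ≠ x₂ → f x₁ ∈ Prp f) ∧ (Prp f)ᶜ ⊆ B

/-- SHEET. If `f` is not proper over `f x` then `f` is a homeomorphism of a small neighbourhood of
`x` onto a ball.  Proof. The fibre of `f x` is `{x}` (`LbPrp`). Let `N ⊆ W₀` be a compact neighbourhood of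
`x`, `W = interior N`, `V` a ball around `f x` disjoint from the compact set `f '' (N \ W)`, `W' = W ∩ f⁻¹' V
= N ∩ f⁻¹' V`. For `y ∈ V \ B` let `n y ∈ {0,1,2}` be the number of preimages in `W'`; it is locally constant
(two preimages `x₁ ≠ x₂`, each has an open neighbourhood inside `W'` or inside `f⁻¹' V \ N`, their images are
neighbourhoods of `y`, `Op2.fib`), so constant `= d` on `V \ B` (`StBall`: joined). `d = 0` is impossible
(`f '' W'` is open and nonempty, `V \ B` is dense in `V`). `d = 2`: then `f⁻¹' V ⊆ N` (a point of the open set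
`f⁻¹' V \ N` would give, by openness and density, a third preimage over a point of `V \ B`), so
`f x ∈ Prp f`, contradiction. So `d = 1`. `f` is injective on `W'`: two points with the same image have
disjoint neighbourhoods, images overlap in an open set, a point outside `B` has two preimages in `W'`.
`f '' W' = V`: `f '' N ∩ V` is closed in `V` and contains `V \ B`. -/
def LbSheet : Prop := ∀ (X : Type) [TopologicalSpace X] [T2Space X] [LocallyCompactSpace X]
  (f : X → E3) (B : Set E3), Op2 f B → ∀ x, f x ∉ Prp f → ∀ W₀ ∈ 𝓝 x, ∃ W ⊆ W₀, IsOpen W ∧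
  x ∈ W ∧ ∃ r : ℝ, 0 < r ∧ InjOn f W ∧ f '' W = Metric.ball (f x) r

/-- OTH. Continuity at `x`, `f x ∈ Prp f`: if `x' = oth f x ≠ x`: given an open `W' ∋ x'`, with disjoint
neighbourhoods `W_x`, `W_{x'} ⊆ W'`, a point `z ∈ W_x` near `x` has `f z ∈ f '' W_{x'}`, so `oth f z ∈ W_{x'}`. If
`oth f x = x`: `K` compact with `f⁻¹' V ⊆ K`; for an open `W ∋ x` the compact set `f '' (K \ W)` does not
contain `f x`, so `f⁻¹' V' ⊆ W` for a smaller `V'`. -/
def LbOth : Prop := ∀ (X : Type) [TopologicalSpace X] [T2Space X] [LocallyCompactSpace X]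
  (f : X → E3) (B : Set E3), Op2 f B → (∀ x, f (oth f x) = f x) ∧ (∀ x, oth f (oth f x) = x) ∧
  (∀ x x', f x = f x' ↔ x' = x ∨ x' = oth f x) ∧ ContinuousOn (oth f) (f ⁻¹' Prp f) ∧
  (∀ x, f x ∉ Prp f → oth f x = x)

/-- gluing of two copies of `X` along `f⁻¹' Prp f` by the involution `oth f` -/
def gl {X : Type} [TopologicalSpace X] (f : X → E3) (p q : X × Bool) : Prop :=
  p = q ∨ (p.2 ≠ q.2 ∧ f p.1 ∈ Prp f ∧ f q.1 ∈ Prp f ∧ q.1 = oth f p.1 ∧ p.1 = oth f q.1)

/-- QUOT. `gl f` is an equivalence relation; the quotient map is open (the saturation of `U × {b}` is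
`U × {b} ∪ (oth f '' (U ∩ f⁻¹' Prp f)) × {!b}`, open because `oth f` is a homeomorphism of `f⁻¹' Prp f`); the
relation is closed, so the quotient is Hausdorff: let `(x_i, x'_i) → (x, x')`, `x'_i = oth f x_i`,
`f x_i ∈ Prp f`. Then `f x = f x'`. If `f x ∈ Prp f`: `x' = oth f x` by continuity. If `f x ∉ Prp f`: `x' = x`
(`LbPrp`), take `W ∋ x` from `LbSheet`: for large `i` `x_i, x'_i ∈ W` and `f x_i = f x'_i`, so `x_i = x'_i = oth f x_i`:
the fibre of `v = f x_i` is the single point `x_i` and `v ∈ Prp f`; impossible: `K` compact with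
`f⁻¹' V' ⊆ K` for a neighbourhood `V'` of `v`; points `v' ∉ B` of `f '' W` near `v` have exactly one preimage in
`W`, the other one is in `K \ W` (compact), so by `IsCompact` of `f '' (K \ W)` (closed, contains such `v'`
arbitrarily near `v`) `v` has a preimage in `K \ W`, different from `x_i ∈ W`. -/
def LbQuot : Prop := ∀ (X : Type) [TopologicalSpace X] [T2Space X] [LocallyCompactSpace X]
  (f : X → E3) (B : Set E3), Op2 f B → ∃ s : Setoid (X × Bool), (∀ p q, s p q ↔ gl f p q) ∧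
  IsOpenMap (Quotient.mk s) ∧ T2Space (Quotient s)

/-- CMP. `Y = Quotient s` of `LbQuot`, `j x = [(x, false)]`, `τ [(x,b)] = [(x, !b)]`, `fh [(x,b)] = f x`. `j` is
injective (two pairs with the same second entry), open, continuous. `fib`: use `LbOth`. Proper
(`isProperMap_iff_isCompact_preimage` or similar): every `y` has a neighbourhood `V` with `fh⁻¹' V`
inside a compact set: `y ∈ Prp f`: image of `K × Bool`; `y ∉ Prp f`: `y = f x`, `N` a compact neighbourhood of
`x` inside `W` of `LbSheet`, `V = f '' interior N`: a point `z` with `f z ∈ V` is in `N`, or there is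
`z₁ ∈ N` with `f z₁ = f z`, `z₁ ≠ z`, then `f z ∈ Prp f`, `z = oth f z₁`, `[(z,b)] = [(z₁,!b)]`; so
`fh⁻¹' V ⊆` image of `N × Bool`. `two`: clear. `miss`: `[(x, true)] = [(oth f x, false)]` if `f x ∈ Prp f`. -/
def LbCmp : Prop := ∀ (X : Type) [TopologicalSpace X] [T2Space X] [LocallyCompactSpace X]
  (f : X → E3) (B : Set E3), Op2 f B → Nonempty (Cmp X f)

/-- TRF (transport along a homeomorphism between subsets). `F' p' = F (s ∘ p')` for paths `p'` in `O'`
(the composition is a continuous path), anything otherwise. -/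
def LbTrf : Prop := ∀ (Y Y' Γ : Type) [TopologicalSpace Y] [TopologicalSpace Y'] [Group Γ]
  (O : Set Y) (O' : Set Y') (φ : Y → Y') (s : Y' → Y), ContinuousOn φ O → ContinuousOn s O' →
  (∀ y ∈ O, φ y ∈ O' ∧ s (φ y) = y) → (∀ y' ∈ O', s y' ∈ O ∧ φ (s y') = y') →
  (∀ F : PFun Y Γ, IsPF O F → ∃ F' : PFun Y' Γ, IsPF O' F' ∧
    ∀ (a b : Y) (p : Path a b) (p' : Path (φ a) (φ b)), (∀ t, p t ∈ O) → (∀ t, p' t = φ (p t)) →
      F' _ _ p' = F a b p) ∧
  (Jn O' → Jn O) ∧ (PFE Γ O' → PFE Γ O)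

/-- PUSH (push forward along an open embedding; special case of `LbTrf`, `O = S`, `O' = j '' S`). -/
def LbPush : Prop := ∀ (X Y Γ : Type) [TopologicalSpace X] [TopologicalSpace Y] [Group Γ]
  (j : X → Y) (hj : IsOpenEmbedding j) (S : Set X) (F : PFun X Γ), IsPF S F →
  ∃ F' : PFun Y Γ, IsPF (j '' S) F' ∧ Lifts j hj.continuous S F F'

/-- REM2. Path functors on `S` which are gauge equivalent off a thin set are gauge equivalent.
Proof. For `x ∈ S` choose `V ⊆ S` from `Thin`, potentials `p₁`, `p₂` of `F`, `F'` on `V`. On `V \ Z` (joined,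
nonempty) `b ↦ p₁ b * g b * (p₂ b)⁻¹` is constant `= c` (compare along a path). Put
`g' x = (p₁ x)⁻¹ * c * p₂ x` (for this choice at `x`). For every `a ∈ V` the value `g' a` (defined by its own
choice `V_a`) is `(p₁ a)⁻¹ * c * p₂ a`: compare the potentials on a set `V' ⊆ V ∩ V_a` from `Thin` at `a`
(joined, `V' \ Z` nonempty). So the formula holds for paths inside `V`, and everywhere by `StAG`
(`(a,b,p) ↦ (g' a)⁻¹ * F p * g' b` is a path functor on `S`). -/
def LbRem2 : Prop := ∀ (Y Γ : Type) [TopologicalSpace Y] [Group Γ] (S Z : Set Y)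
  (F F' : PFun Y Γ) (g : Y → Γ), Thin Z → IsOpen S → IsPF S F → IsPF S F' →
  (∀ (a b : Y) (p : Path a b), (∀ t, p t ∈ S \ Z) → F' a b p = (g a)⁻¹ * F a b p * g b) →
  ∃ g' : Y → Γ, ∀ (a b : Y) (p : Path a b), (∀ t, p t ∈ S) → F' a b p = (g' a)⁻¹ * F a b p * g' b

/-- REM. Exact off a thin set implies exact. (`LbRem2` with the constant functor `1`.) -/
def LbRem : Prop := ∀ (Y Γ : Type) [TopologicalSpace Y] [Group Γ] (S Z : Set Y)
  (F : PFun Y Γ), Thin Z → IsOpen S → IsPF S F → IsExact (S \ Z) F → IsExact S F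

/-- EXTZ. Extension across a thin set of a functor which is locally exact near the set.
Proof. For `z ∈ S ∩ Z` let `N_z ⊆ N` be from `Thin`, `p_z` a potential of `F` on `N_z \ Z`. For
`w ∈ N_z ∩ Z` the function `u ↦ p_z u * (p_w u)⁻¹` is constant `= c` on `V' \ Z` for a set
`V' ⊆ N_z ∩ N_w` from `Thin` at `w`; define `q_z w = c`, and `q_z = p_z` on `N_z \ Z`. Then
`q_z' * q_z⁻¹` is locally constant on `N_z ∩ N_z'`. The exact functors `F_z` with potentials `q_z` on `N_z` and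
`F` on the open set `S \ Z` agree on paths in the overlaps; `StGL`. -/
def LbExtZ : Prop := ∀ (Y Γ : Type) [TopologicalSpace Y] [Group Γ] (S Z : Set Y)
  (F : PFun Y Γ), Thin Z → IsOpen S → IsPF (S \ Z) F →
  (∀ y ∈ S ∩ Z, ∃ N : Set Y, IsOpen N ∧ y ∈ N ∧ N ⊆ S ∧ IsExact (N \ Z) F) →
  ∃ F' : PFun Y Γ, IsPF S F' ∧ ∀ (a b : Y) (p : Path a b), (∀ t, p t ∈ S \ Z) → F' a b p = F a b p

/-- THINE. Closed sets which are locally contained in finitely many segments are thin in `ℝ³`
(`StBall`, `StCvx`; `V` = small balls). -/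
def LbThinE : Prop := ∀ B : Set E3, Seg B → Thin B

/-- LOCALL. -/
def LbLocAll : Prop := ∀ M : Set E, IsOpen M → LocAll ↥M

/-- SHY (sheets at the missing points). Proof. `y ∉ range j`, so `τ y = j d`, `f d = fh y ∉ Prp f`. By
`LbSheet` at `d` (neighbourhood `j⁻¹' (τ⁻¹' W)`) there is `W₁ ∋ d`, `f` injective on `W₁`, `f '' W₁ = ball`; `O = τ '' (j '' W₁)
= τ⁻¹' (j '' W₁)`. `all`: `y' ∈ C`, `τ y' = j d'`, `f d' = fh y' ∉ Prp f`, `f d' = f w` with `w ∈ W₁`, so `w = d'` (`LbPrp`).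
`hit`: `→` is `miss`. `←`: `v = fh y' ∉ Prp f`; it is enough to find a point of `C` over `v` (then it is in `O` by
`all` and equals `y'` by injectivity). If the fibre `{y', τ y'}` of `fh` were inside `range j`, `y' = j x`,
`τ y' = j x'`, `f x = f x' = v`, so `x = x'` (`LbPrp`), the fibre is `{y'} ⊆ range j`, by properness
`fh⁻¹' V ⊆ range j` for a closed ball `V` around `v`, `fh⁻¹' V` compact, so `f⁻¹' V = j⁻¹' (fh⁻¹' V)` is compact and
`v ∈ Prp f`. -/
def LbShY : Prop := ∀ (X : Type) [TopologicalSpace X] [T2Space X] [LocallyCompactSpace X]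
  (f : X → E3) (B : Set E3), Op2 f B → ∀ (c : Cmp X f), ∀ y ∈ c.C, ∀ W ∈ 𝓝 y,
  ∃ (O : Set c.Y) (r : ℝ), O ⊆ W ∧ 0 < r ∧ Sheet c y O r

/-- SHS. Smaller sheets, and inverse of `fh` on a sheet (`fh` is open and injective on `O`); a subset
of a sheet over a convex open set is joined and all path functors are exact there (`LbTrf`, `StCvx`). -/
def LbShS : Prop := ∀ (X : Type) [TopologicalSpace X] [T2Space X] [LocallyCompactSpace X]
  (f : X → E3) (B : Set E3), Op2 f B → ∀ (c : Cmp X f) (y : c.Y) (O : Set c.Y) (r : ℝ),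
  Sheet c y O r →
  (∀ r', 0 < r' → r' ≤ r → Sheet c y (O ∩ c.fh ⁻¹' Metric.ball (c.fh y) r') r') ∧
  (∃ s : E3 → c.Y, ContinuousOn s (c.fh '' O) ∧ (∀ z ∈ O, s (c.fh z) = z) ∧
    ∀ v ∈ c.fh '' O, s v ∈ O ∧ c.fh (s v) = v) ∧
  (∀ P : Set E3, Convex ℝ P → IsOpen P → Jn (O ∩ c.fh ⁻¹' P) ∧
    ∀ (Γ : Type) [Group Γ], PFE Γ (O ∩ c.fh ⁻¹' P)) ∧
  (∀ P : Set E3, Jn (Metric.ball (c.fh y) r ∩ P) → Jn (O ∩ c.fh ⁻¹' P))

/-- THIN. The set of missing points is thin. Proof: `C` is closed. At `y ∈ range j`: `V = j '' V₀`, `V₀` from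
`LocAll` (transport by `LbTrf`), `V \ C = V`. At `y ∈ C`: `V` = a sheet (`LbShY`); `V \ C = V ∩ fh⁻¹' Prp f` (`hit`) is
homeomorphic to `ball \ (Prp f)ᶜ`, `(Prp f)ᶜ ⊆ B` closed: `StBall`. -/
def LbThin : Prop := ∀ (X : Type) [TopologicalSpace X] [T2Space X] [LocallyCompactSpace X],
  LocAll X → ∀ (f : X → E3) (B : Set E3), Op2 f B → ∀ c : Cmp X f, Thin c.C

/-- ORD. Values on loops at level `n` have order at least `n + 1`. Proof. By `StPair` for `T.lev n`, `h` is
`hom2 a b ∘ Φ` up to gauge with `(a,b)` = the values on the loops of level `n`, and the pair of level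
`n + 1` is conjugate to `(W1 a b, W2 a b)`. By induction the pair of level `n` has order `≥ n + 1`
(`StFilt`: the coefficients of degree `k` of a commutator of elements of order `k` cancel), and
elements of order `≥ k` form a normal subgroup. (`(T.lev n).shift = T.lev (n+1)` is `rfl`.) -/
def LbOrd : Prop := ∀ (X : Type) [TopologicalSpace X] (T : Tower X) (h : PFun X UU),
  IsPF T.Kᶜ h → ∀ (n : ℕ) (a : X) (z : Path a a), (∀ t, z t ∈ (T.lev n).Kᶜ) →
  Ord (n + 1) (sr (h a a z) - 1)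

/-- CONE. Locally `B` is contained in finitely many lines through the point. (Finitely many
segments meet a bounded neighbourhood; the segments not containing `y` have positive distance
from `y`; a segment containing `y` is inside the line through `y` in its direction.) -/
def LbCone : Prop := ∀ B : Set E3, Seg B → ∀ y : E3, ∃ r : ℝ, 0 < r ∧ ∃ L : Finset E3,
  ∀ z ∈ B, z ∈ Metric.ball y r → ∃ v ∈ L, ∃ t : ℝ, z = y + t • v

/-- NEAR. The functor of a tower is trivial near the missing points.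
Proof. Let `O`, `r` be a sheet at `y` disjoint from the closed set `j '' T.K` (compact), `r` so small that
`LbCone` holds for `B`, `v₀ = fh y`, with directions `L`; `Z = ⋃_{v ∈ L}` the segments
`[v₀ - 2r v/‖v‖, v₀ + 2r v/‖v‖]` and `{v₀}` (a `Seg` set, thin by `LbThinE`), invariant under the contractions
`σ_ε(v) = v₀ + ε (v - v₀)`, `0 < ε ≤ 1`, in both directions inside the ball. `(Prp f)ᶜ ∩ ball ⊆ B ∩ ball ⊆ Z`. Transport
`F` from `O \ C` to `F'` on `S = ball \ (Prp f)ᶜ` (`LbTrf`, `Sheet.hit`). `S \ Z = ball \ Z` is joined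
(`StBall`). Loops `z` in `ball \ Z`: by the square lemma `StSq` for `(t, e) ↦ σ_{1-e(1-ε)} (z t)`, `F' z` is conjugate
to `F' (σ_ε z)`. For given `n` and small `ε` the lift of `σ_ε z` to `O` avoids the closed set `j '' (T.lev n).K` (it
does not contain `y`), so it is `j ∘ w`, `w` a loop in `(T.lev n).Kᶜ`, and `F' (σ_ε z) = T.Φ w`. With `A, B` from
`StRho1` (`hom2 A B` injective) and `LbOrd` for `hom2 A B ∘ T.Φ`: `hom2 A B (F' z)` has order `≥ n + 1` for all
`n`, so it is `1`, `F' z = 1`. Hence `F'` is exact on `ball \ Z`, on `S` by `LbRem`, and `F` is exact on `O \ C`. -/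
def LbNear : Prop := ∀ (X : Type) [TopologicalSpace X] [T2Space X] [LocallyCompactSpace X]
  (T : Tower X) (f : X → E3) (B : Set E3), Op2 f B → ∀ (c : Cmp X f) (F : PFun c.Y F2),
  IsPF (c.j '' T.Kᶜ) F → Lifts c.j c.emb.continuous T.Kᶜ T.Φ F → ∀ y ∈ c.C,
  ∃ N : Set c.Y, IsOpen N ∧ y ∈ N ∧ N ⊆ (c.j '' T.K)ᶜ ∧ IsExact (N \ c.C) F

/-- PHIH. The functor of a tower extends to the completion. (`LbPush`, `LbNear`, `LbThin`, `LbExtZ` with
`S = (j '' T.K)ᶜ`, `S \ C = j '' T.Kᶜ`.) -/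
def LbPhiH : Prop := ∀ (X : Type) [TopologicalSpace X] [T2Space X] [LocallyCompactSpace X],
  LocAll X → ∀ (T : Tower X) (f : X → E3) (B : Set E3), Op2 f B → ∀ c : Cmp X f,
  ∃ F : PFun c.Y F2, IsPF (c.j '' T.K)ᶜ F ∧ Lifts c.j c.emb.continuous T.Kᶜ T.Φ F

/-- GEN. A segment which is not contained in the plane `y i = t` meets it in at most one point;
finitely many segments and three coordinates give finitely many bad `t`. -/
def LbGen : Prop := ∀ B : Set E3, Seg B → ∀ R : ℝ, (Bad B R).Finite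

/-- EXTF (extension of a functor given near infinity of the completion).
Proof. By `LbGen` choose `R₀ < R < R₀ + 1` with `R, -R ∉ Bad B (R₀ + 1)`. `E` = the missing points `y` with
`fh y ∈ box R`, some `|fh y i| = R`: finite (`fh` is injective on `C`: `Fold.fib` and `two`). Choose
disjoint sheets `O_y ⊆ fh⁻¹' VV R₀`, `y ∈ E` (`LbShY`, T2). `h` is exact on each `O_y` (`LbShS`, `P = univ`), so on their
disjoint union. `S = fh⁻¹' VV R`, `N = fh⁻¹' (interior (box R)) ∪ ⋃ O_y`; `S ∩ N ⊆ ⋃ O_y`. `StExt`: `F'` on `S ∪ N` with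
`F' = h` on `S`. `(S ∪ N)ᶜ` is a closed subset of `fh⁻¹' box R` (compact, `Fold.proper`) disjoint from `C`, so
`j⁻¹'` of it is compact and inside `(T.lev n).K` for some `n` (`StLev`). Pull `F'` back by `j`. -/
def LbExtF : Prop := ∀ (X : Type) [TopologicalSpace X] [T2Space X] [LocallyCompactSpace X]
  (T : Tower X) (f : X → E3) (B : Set E3), Op2 f B → ∀ (c : Cmp X f) (R₀ : ℝ) (h : PFun c.Y UU),
  0 ≤ R₀ → IsPF (c.fh ⁻¹' VV R₀) h → ∃ (n : ℕ) (R : ℝ) (F : PFun X UU), R₀ < R ∧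
    IsPF (T.lev n).Kᶜ F ∧ ∀ (a b : X) (p : Path a b),
      (∀ t, p t ∈ (T.lev n).Kᶜ ∧ f (p t) ∈ VV R) → F a b p = h _ _ (p.map c.emb.continuous)

/-- H1. Real functors die at the next level. Proof. `A' = hom2 (A lx) (A ly) ∘ Φ`; `A' * A⁻¹` is a path
functor (abelian group), trivial on `lx`, `ly`, exact by `T.fill`; so `A` and `A'` agree on loops. On
`T.shift.lx = T.lx.map G` (a loop in `T.Kᶜ`): `A' = W1 (A lx) (A ly) = 1`; same for `ly`. Apply `T.shift.fill`. -/
def LbH1 : Prop := ∀ (X : Type) [TopologicalSpace X] (T : Tower X)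
  (A : PFun X (Multiplicative ℝ)), IsPF T.Kᶜ A → IsExact T.shift.Kᶜ A

/-- GRAPH. A finite graph without real first cohomology is a forest, so has no nonabelian
cohomology. Proof by induction on the number of edges (prove it for all finite subsets `D` of `Ed`):
pick `e₀ ∈ D`, apply the hypothesis to `r = ` indicator of `e₀`: `θ` is constant along the other edges
and `θ (t e₀) = θ (s e₀) + 1`. `S = {v | θ v ≥ θ (t e₀)}`: every other edge of `D` has both or no ends in
`S`. Take `θ'` for `D \ {e₀}` and multiply it on `S` from the left by the constant that makes `e₀` right. -/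
def LbGraph : Prop := ∀ (Ed Vt : Type) [Finite Ed] (s t : Ed → Vt),
  (∀ r : Ed → ℝ, ∃ θ : Vt → ℝ, ∀ e, r e = θ (t e) - θ (s e)) →
  ∀ (Γ : Type) [Group Γ] (g : Ed → Γ), ∃ θ : Vt → Γ, ∀ e, g e = (θ (s e))⁻¹ * θ (t e)

/-- NERVE. Family `J` of disjoint open sets and finitely many gates `E` which together cover the
missing points and the outside of a compact set; `F` exact on all pieces. Then `F` is exact near
infinity of `X`.
Proof. Choose open `O_y ∋ y` (`y ∈ E`), pairwise disjoint, as in the gate hypothesis. `Ω = ⋃ J i ∪ ⋃ O_y`; `Ωᶜ` is a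
compact subset of `range j`, so `(j '' (T.lev n).K)ᶜ ⊆ Ω` for some `n` (`StLev`). Put `K' = j '' (T.lev (n+1)).K` (closed,
disjoint from `C`), choose `O'_y ⊆ O_y \ K'` by the gate hypothesis. `Ω' = ⋃ (J i \ K') ∪ ⋃ O'_y`, again
`(j '' (T.lev m).K)ᶜ ⊆ Ω'` for some `m`. CLAIM: `F` is exact on `Ω'` (then pull back by `j`).
Edges: pairs `e = (y,i)` with `O'_y ∩ J i ≠ ∅`, `u_e` a point of it. Vertices: `E ⊕ Set Y`; `s e = inl y`,
`t e = inr {x | JoinedIn (J i \ K') u_e x}`.
(real) For `r : Ed → ℝ`: by `StPot` there is a real functor `A` on `Ω` with potentials `0` on `J i` and `φ_y` on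
`O_y`, `φ_y = r (y,i)` on `O_y ∩ J i` for an edge, `0` elsewhere. `A ∘ j` on `(T.lev n).Kᶜ`; `LbH1`: exact on
`(T.lev (n+1)).Kᶜ`; so `A` is exact on `K'ᶜ \ C` (`LbTrf`), on `K'ᶜ` by `LbRem`: potential `ψ`. `θ (inl y) = ψ y - φ_y y`,
`θ (inr Q) = ψ u` for any `u_e = u` with `t e = inr Q` (well defined: `A = 0` on paths in `J i`). Path from `y` to `u_e` in
`O'_y` (joined): `φ_y u_e - φ_y y = ψ u_e - ψ y`, so `r e = θ (t e) - θ (s e)`.
(UU) `p_i`, `p_y` potentials of `F` on `J i`, `O'_y`. `LbGraph` for `g e = p_y u_e * (p_i u_e)⁻¹` gives `θ`. Potential of `F` on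
`Ω'`: `q x = θ (inr {x' | JoinedIn (J i \ K') x x'}) * p_i x` for `x ∈ J i \ K'` (this set equals
`{x' | JoinedIn (J i \ K') u_e x'}` if `x` is joined to `u_e`), `q x = θ (inl y) * p_y x` for
`x ∈ O'_y` outside all `J i`; on `O'_y ∩ J i` (joined, so `p_y * p_i⁻¹` is constant `= g e`) both formulas
agree. Then `F p = (q a)⁻¹ * q b` for paths inside one `J i \ K'` or one `O'_y`, hence on `Ω'` (`StAG`). -/
def LbNerve : Prop := ∀ (X : Type) [TopologicalSpace X] [T2Space X] [LocallyCompactSpace X]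
  (T : Tower X) (f : X → E3) (c : Cmp X f) (F : PFun c.Y UU) (ι : Type) [Finite ι]
  (J : ι → Set c.Y) (E : Finset c.Y) (Q : Set c.Y), Thin c.C → IsPF (c.j '' T.K)ᶜ F →
  (∀ i, IsOpen (J i)) → (∀ i k, i ≠ k → J i ∩ J k = ∅) → (∀ i, J i ⊆ (c.j '' T.K)ᶜ) →
  (∀ i, IsExact (J i) F) → (∀ y ∈ E, y ∈ c.C) → c.C ⊆ (⋃ i, J i) ∪ E → IsCompact Q →
  Qᶜ ⊆ ⋃ i, J i →
  (∀ y ∈ E, ∀ W ∈ 𝓝 y, ∃ O ⊆ W, IsOpen O ∧ y ∈ O ∧ Jn O ∧ IsExact O F ∧ ∀ i, Jn (O ∩ J i)) →
  ∃ m : ℕ, IsExact (T.lev m).Kᶜ (pull ⟨c.j, c.emb.continuous⟩ F)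

/-- LEB. Uniform size of sheets over a box (`lebesgue_number_lemma_of_metric` for the compact set
`(Prp f)ᶜ ∩ box R`, covered by the images of sheets disjoint from `K`; every point of `(Prp f)ᶜ` is `fh`
of a missing point, see the proof of `LbShY`). -/
def LbLeb : Prop := ∀ (X : Type) [TopologicalSpace X] [T2Space X] [LocallyCompactSpace X]
  (f : X → E3) (B : Set E3), Op2 f B → ∀ (c : Cmp X f) (K : Set c.Y) (R : ℝ), IsClosed K →
  K ∩ c.C = ∅ → ∃ δ : ℝ, 0 < δ ∧ ∀ y ∈ c.C, c.fh y ∈ box R → ∃ (y₀ : c.Y) (O : Set c.Y) (r : ℝ),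
    Sheet c y₀ O r ∧ O ∩ K = ∅ ∧ Metric.ball (c.fh y) δ ⊆ Metric.ball (c.fh y₀) r

/-- HB. For `y ∈ box R` and small balls: `ball \ box` is a union of half balls `{z i > R}` (`y i = R`),
`{z i < -R}` (`y i = -R`), which are convex and pairwise meet near `y`; empty if `y` is interior. -/
def LbHB : Prop := ∀ (R : ℝ) (y : E3), 0 < R → y ∈ box R → ∃ ε₀ : ℝ, 0 < ε₀ ∧
  ∀ ε : ℝ, 0 < ε → ε ≤ ε₀ → Jn (Metric.ball y ε \ box R)

/-- GRID. A fine subdivision avoiding a finite set. -/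
def LbGrid : Prop := ∀ (Z : Set ℝ) (R δ : ℝ), Z.Finite → 0 < R → 0 < δ → R ∉ Z → -R ∉ Z →
  ∃ (k : ℕ) (t : ℕ → ℝ), StrictMono t ∧ t 0 = -R ∧ t k = R ∧
    (∀ i, i < k → t (i + 1) - t i < δ) ∧ ∀ i, i ≤ k → t i ∉ Z

/-- N4. The functor is not exact outside a compact set of the completion.
Proof. Suppose it is exact on `fh⁻¹' VV R`. By `LbGen` choose `R < R₁ < R + 1`, `R₁, -R₁ ∉ Bad B (R+1)`. `δ` from `LbLeb`
(`K = j '' T.K`, `R₁`). Subdivision `t 0 = -R₁ < … < t k = R₁`, gaps `< δ/4`, avoiding `Bad B (R+1)` (`LbGrid`).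
Cells `P a = {v | ∀ i, t (a i) < v i < t (a i + 1)}`, `a : Fin 3 → Fin k`; diameter `< δ/2`. `ι = Option (Fin 3 → Fin k)`,
`J none = fh⁻¹' VV R₁`; if some `y ∈ C` has `fh y ∈ P a`: choose such `y`, a sheet `O` from `LbLeb`, and
`J (some a) = O ∩ fh⁻¹' P a`, otherwise `∅`. `E` = missing points `y`, `fh y ∈ box R₁`, some coordinate of `fh y` in
`{t 0, …, t k}`: finite. `Q = fh⁻¹' box R₁`. `C ⊆ ⋃ J ∪ E` by `Sheet.all`. Gates: let `y ∈ E`, `W` given. If `fh y ∈ closure (P a)`
and `J (some a) ≠ ∅` then `fh y` is in the ball of its sheet, so `y ∈` that sheet (`Sheet.all`). So a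
small sheet `O ⊆ W` at `y` is contained in all these sheets, disjoint from `fh⁻¹' P a` for
`fh y ∉ closure (P a)`, and its radius is `≤ ε₀` of `LbHB`. Then `O ∩ J (some a) = O ∩ fh⁻¹' P a` or `∅` is joined
(`LbShS`), `O ∩ J none` is joined (`LbHB`, `LbShS`). `LbNerve` gives a contradiction. -/
def LbN4 : Prop := ∀ (X : Type) [TopologicalSpace X] [T2Space X] [LocallyCompactSpace X],
  LocAll X → ∀ (T : Tower X) (f : X → E3) (B : Set E3), Op2 f B → ∀ (c : Cmp X f)
  (F : PFun c.Y UU), IsPF (c.j '' T.K)ᶜ F →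
  (∀ m : ℕ, ¬ IsExact (T.lev m).Kᶜ (pull ⟨c.j, c.emb.continuous⟩ F)) →
  ∀ R : ℝ, 0 ≤ R → c.fh '' (c.j '' T.K) ⊆ box R → ¬ IsExact (c.fh ⁻¹' VV R) F

/-- NJ. If the preimage of `V` is not joined then it consists of two copies of `V`.
Proof. For `x ∈ U = f⁻¹' V` let `W_x` be the set of points joined to `x` in `U`, open. `f '' W_x` is open and
closed in `V` (properness, as in `StU2`), so `= V`. Choose `x, x'` not joined: `W_x`, `W_x'` are disjoint, every
fibre has a point in each, fibres have at most two points, so `f` is injective on each and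
`U = W_x ∪ W_x'`. `f : W_x → V` is an open continuous bijection: transport (`LbTrf`); union of two
disjoint open sets. -/
def LbNJ : Prop := ∀ (Y Γ : Type) [TopologicalSpace Y] [T2Space Y] [Group Γ] (f : Y → E3)
  (τ : Y → Y) (V : Set E3), (∀ y : Y, ∀ W ∈ 𝓝 y, ∃ V ⊆ W, IsOpen V ∧ y ∈ V ∧ Jn V) →
  Fold f τ → IsOpen V → Jn V → PFE Γ V → ¬ Jn (f ⁻¹' V) → PFE Γ (f ⁻¹' V)

/-- MAINL. The contradiction. -/
def LbMain : Prop := ∀ (X : Type) [TopologicalSpace X] [T2Space X] [LocallyCompactSpace X],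
  LocAll X → ∀ (T : Tower X) (f : X → E3) (B : Set E3), ¬ Op2 f B

/-- FINAL. -/
def LbFinal : Prop := ∃ M : Set E3, IsOpen M ∧ ContractibleSpace ↥M ∧
  ∀ f : ↥M → E3, ¬ IsBranchedL f

end CM.LB
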